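import Pool.Agent.Y690.X.Thm

/-!
# The characters `ψ ^ a * conj ψ ^ b`
-/

set_option autoImplicit false
set_option linter.unusedSectionVars false
set_option linter.unusedVariables false

open Filter IsDedekindDomain
open scoped Topology

namespace Pool.Agent.Y690.NV

open Pool.Agent.W192.HK

open Complex (I)

variable {R : Subring ℂ} (hR : ∀ z : ℂ, z ∈ R ↔ ∃ x y : ℤ, z = x + y * I)

/-- the conclusion for one character `ψ ^ a * conj ψ ^ b` -/
def Sg1 (ψ : Ideal R → ℂ) (k a b : ℕ) : Prop := ∃ L : ℂ → ℂ, Differentiable ℂ L ∧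
  (∀ s : ℂ, (k : ℝ) + 1 / 2 < s.re →
    HasSum (fun J : Ideal R => ψ J ^ a * (starRingEnd ℂ) (ψ J) ^ b * (nm J : ℂ) ^ (-s)) (L s)) ∧
  L (k : ℂ) ≠ 0

lemma Sg1.swap {ψ : Ideal R → ℂ} {k a b : ℕ} (h : Sg1 ψ k a b) : Sg1 ψ k b a := by
  obtain ⟨L, h1, h2, h3⟩ := h
  refine ⟨cj L, cj_diff h1, fun s hs => ?_, ?_⟩
  · have h6 := (h2 ((starRingEnd ℂ) s) (by rw [Complex.conj_re]; exact hs)).map (starRingEnd ℂ)
      Complex.continuous_conj
    have h7 : (fun J : Ideal R => ψ J ^ b * (starRingEnd ℂ) (ψ J) ^ a * (nm J : ℂ) ^ (-s)) =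
        (starRingEnd ℂ) ∘ (fun J : Ideal R => ψ J ^ a * (starRingEnd ℂ) (ψ J) ^ b *
          (nm J : ℂ) ^ (-(starRingEnd ℂ) s)) := by
      funext J
      simp only [Function.comp]
      rw [map_mul, map_mul, map_pow, map_pow, Complex.conj_conj]
      rw [← map_neg, Complex.cpow_conj _ _ (by
        rw [Complex.arg_ofReal_of_nonneg (by rw [nm]; positivity)]
        exact Real.pi_pos.ne), Complex.conj_conj, Complex.conj_ofReal]
      ring
    rw [h7]
    exact h6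
  · have h4 : cj L (k : ℂ) = (starRingEnd ℂ) (L k) := by
      unfold cj
      rw [Complex.conj_natCast]
    rw [h4, Ne, map_eq_zero]
    exact h3

open Classical in
lemma sy_odd (D α : R) (hpm : ∀ α : R, qs D α = 0 ∨ qs D α = 1 ∨ qs D α = -1) {n : ℕ}
    (hn : Odd n) : sy D α ^ n = sy D α := by
  unfold sy
  split_ifs
  · rw [one_pow]
  · rcases hpm α with h | h | h
    · rw [h, zero_pow hn.pos.ne']
    · rw [h, one_pow]
    · rw [h, hn.neg_one_pow]

lemma qs_three (D α : R) : qs D α = 0 ∨ qs D α = 1 ∨ qs D α = -1 := by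
  unfold qs
  split_ifs
  · exact Or.inl rfl
  · exact Or.inr (Or.inl rfl)
  · exact Or.inr (Or.inr rfl)

lemma tw_gen (hbasic : H_BASIC) {D : R} (hD : Adm D) (n : ℕ) {α : R}
    (hα : α - 1 ∈ sp (ff hR)) : tw hR n D (sp α) = ((sy D α : ℤ) : ℂ) * (α : ℂ) ^ n := by
  classical
  unfold tw sy
  rcases hD with h | ⟨hp, a, b, hπ, hab⟩
  · rw [if_pos h, if_pos h, th0_gen hR n hα]
    push_cast
    rw [one_mul]
  · have h : D ≠ 1 := fun h => hp.not_isUnit (h ▸ isUnit_one)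
    obtain ⟨hπ0, hmax, hfin, hπf, t, ht, hN⟩ := prime_data hR hbasic hp hπ
    have := Fintype.ofFinite (R ⧸ sp D)
    rw [Nat.card_eq_fintype_card] at ht
    rw [if_neg h, if_neg h, th0_gen hR n hα, chI_gen D hR ht, mul_comm]

lemma tw_zero (D : R) (n : ℕ) {J : Ideal R}
    (hJ : ¬ ∃ α : R, α - 1 ∈ sp (ff hR) ∧ J = sp α) : tw hR n D J = 0 := by
  have h1 : th0 hR n J = 0 := by
    refine th0_zero hR n fun h => hJ ?_
    obtain ⟨α, h2, h3⟩ := (gen_iff hR J).mpr h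
    exact ⟨α, h3, h2⟩
  unfold tw
  rw [h1]
  split_ifs
  · rfl
  · rw [zero_mul]

lemma nm_bot_zero (hbasic : H_BASIC) (hr : QR R I) : nm (⊥ : Ideal R) = 0 := by
  obtain ⟨b1, b2, b3, b4, b5, b6, b7, -⟩ := hbasic R I hr
  have h := b5 (0 : R)
  have h2 : sp (0 : R) = ⊥ := Ideal.span_singleton_eq_bot.mpr rfl
  rw [h2] at h
  rw [h]
  simp

/-- relation of the two descriptions -/
lemma tw_rel (hbasic : H_BASIC) {D : R} (hD : Adm D) {a b : ℕ} (hab : b ≤ a)
    (hodd : Odd (a + b)) (J : Ideal R) :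
    tw hR 1 D J ^ a * (starRingEnd ℂ) (tw hR 1 D J) ^ b =
      tw hR (a - b) D J * (nm J : ℂ) ^ b := by
  by_cases hJ : ∃ α : R, α - 1 ∈ sp (ff hR) ∧ J = sp α
  · obtain ⟨α, hα, rfl⟩ := hJ
    obtain ⟨b1, b2, b3, b4, b5, b6, b7, -⟩ := hbasic R I (qr hR)
    rw [tw_gen hR hbasic hD 1 hα, tw_gen hR hbasic hD _ hα, b5, ← Complex.mul_conj, pow_one, map_mul,
      map_intCast, mul_pow, mul_pow, mul_pow]
    have h1 : ((sy D α : ℤ) : ℂ) ^ a * ((sy D α : ℤ) : ℂ) ^ b = ((sy D α : ℤ) : ℂ) := by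
      rw [← pow_add]
      exact_mod_cast sy_odd D α (qs_three D) hodd
    have h2 : (α : ℂ) ^ a = (α : ℂ) ^ (a - b) * (α : ℂ) ^ b := by
      rw [← pow_add, Nat.sub_add_cancel hab]
    rw [h2]
    linear_combination ((α : ℂ) ^ (a - b) * (α : ℂ) ^ b * (starRingEnd ℂ) (α : ℂ) ^ b) * h1
  · rw [tw_zero hR D 1 hJ, tw_zero hR D _ hJ, zero_mul]
    have ha : a ≠ 0 := by
      rintro rfl
      have : b = 0 := by omega
      subst this
      simp at hodd
    rw [zero_pow ha, zero_mul]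

theorem single (hbasic : H_BASIC) (hfp : H_FP) (hcnt : H_CNT) (hdec : H_DEC) (hafe : H_AFE)
    (hprod : H_PROD) {D : R} (hD : Adm D) (k a b m e : ℕ) (he : e = 4 * m ∨ e = 4 * m + 1)
    (h1 : a + b = 2 * k - 1) (hk : 1 ≤ k) (h2 : a = b + (2 * e + 1) ∨ b = a + (2 * e + 1)) :
    Sg1 (tw hR 1 D) k a b := by
  have key : ∀ a b : ℕ, a + b = 2 * k - 1 → a = b + (2 * e + 1) → Sg1 (tw hR 1 D) k a b := by
    intro a b h1 h2
    obtain ⟨hHC, F, hF1, hF2, hF3⟩ := tw_main hR hbasic hfp hcnt hdec hafe hprod hD m e he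
    have hke : k = e + 1 + b := by omega
    have hodd : Odd (a + b) := ⟨k - 1, by omega⟩
    have hab : a - b = 2 * e + 1 := by omega
    obtain ⟨b1, b2, b3, b4, b5, b6, b7, -⟩ := hbasic R I (qr hR)
    have hbot : tw hR (2 * e + 1) D ⊥ = 0 := (hHC.zero ⊥).2 (Or.inl rfl)
    refine ⟨fun s => F (s - b), by fun_prop, fun s hs => ?_, ?_⟩
    · have hz' : ((e + 1 : ℕ) : ℝ) + 1 / 2 < (s - b).re := by
        rw [Complex.sub_re, Complex.natCast_re]
        rw [hke] at hs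
        push_cast at hs ⊢
        linarith
      have h6 : (fun J : Ideal R => tw hR 1 D J ^ a * (starRingEnd ℂ) (tw hR 1 D J) ^ b *
          (nm J : ℂ) ^ (-s)) = fun J : Ideal R => tw hR (2 * e + 1) D J *
          (nm J : ℂ) ^ (-(s - b)) := by
        funext J
        rw [tw_rel hR hbasic hD (by omega) hodd, hab]
        by_cases hI : J = ⊥
        · rw [hI, hbot, zero_mul, zero_mul, zero_mul]
        · have h7 : (nm J : ℂ) ≠ 0 := by
            have h8 := b3 J hI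
            have : nm J ≠ 0 := by linarith
            exact_mod_cast this
          have h8 : (nm J : ℂ) ^ (-(s - b)) = (nm J : ℂ) ^ (-s) * (nm J : ℂ) ^ b := by
            rw [show -(s - (b : ℂ)) = -s + b by ring, Complex.cpow_add _ _ h7,
              Complex.cpow_natCast]
          rw [h8]
          ring
      rw [h6]
      exact hF2 (s - b) hz'
    · have h7 : (k : ℂ) - b = ((e + 1 : ℕ) : ℂ) := by
        rw [hke]
        push_cast
        ring
      simp only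
      rw [h7]
      exact hF3
  rcases h2 with h2 | h2
  · exact key a b h1 h2
  · exact (key b a (by omega) h2).swap

/-- multiplicativity -/
lemma tw_mul (hbasic : H_BASIC) (hfp : H_FP) (hcnt : H_CNT) (hdec : H_DEC) (hafe : H_AFE)
    (hprod : H_PROD) {D : R} (hD : Adm D) (A B : Ideal R) :
    tw hR 1 D (A * B) = tw hR 1 D A * tw hR 1 D B :=
  (tw_main hR hbasic hfp hcnt hdec hafe hprod hD 0 0 (Or.inl rfl)).1.mul A B

/-- the Euler product -/
lemma euler_one (hbasic : H_BASIC) (hr : QR R I) {ψ : Ideal R → ℂ} (hbot : ψ ⊥ = 0)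
    (htop : ψ ⊤ = 1) (hmul : ∀ A B : Ideal R, ψ (A * B) = ψ A * ψ B) {a b : ℕ}
    (hab : a + b ≠ 0) (z F : ℂ)
    (h : HasSum (fun J : Ideal R => ψ J ^ a * (starRingEnd ℂ) (ψ J) ^ b * (nm J : ℂ) ^ (-z)) F) :
    HasProd (fun v : HeightOneSpectrum R => (1 - ψ v.asIdeal ^ a *
      (starRingEnd ℂ) (ψ v.asIdeal) ^ b * (nm v.asIdeal : ℂ) ^ (-z))⁻¹) F := by
  obtain ⟨b1, b2, b3, b4, b5, b6, b7, -⟩ := hbasic R I hr
  have := hr.ded
  have hcm : Pool.Agent.Y690.CM (fun J : Ideal R => ψ J ^ a * (starRingEnd ℂ) (ψ J) ^ b *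
      (nm J : ℂ) ^ (-z)) := by
    refine ⟨?_, ?_, fun A B => ?_⟩
    · rw [hbot, map_zero]
      have : (0 : ℂ) ^ a * 0 ^ b = 0 := by
        rw [← pow_add, zero_pow hab]
      rw [this, zero_mul]
    · rw [htop, (b7 ⊤).2 rfl, Complex.ofReal_one, Complex.one_cpow, map_one, one_pow, one_pow,
        mul_one, mul_one]
    · rw [hmul, b4, Complex.ofReal_mul, Complex.mul_cpow_ofReal_nonneg
        (by rw [nm]; positivity) (by rw [nm]; positivity), map_mul, mul_pow, mul_pow]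
      ring
  have h1 := hasProd_ideal hcm h.summable.norm
  rw [h.tsum_eq] at h1
  exact h1

/-- **Finite direct sums.** -/
theorem family (hbasic : H_BASIC) (hfp : H_FP) (hcnt : H_CNT) (hdec : H_DEC) (hafe : H_AFE)
    (hprod : H_PROD) (n : ℕ) {D : Fin n → R} (hD : ∀ i, Adm (D i)) (k : ℕ) (hk : 1 ≤ k)
    (a b : Fin n → ℕ) (hab : ∀ i, a i + b i = 2 * k - 1)
    (h8 : ∀ i, ((a i : ℤ) - b i).natAbs % 8 = 1 ∨ ((a i : ℤ) - b i).natAbs % 8 = 3) :
    ∃ L : ℂ → ℂ, Differentiable ℂ L ∧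
      (∀ s : ℂ, (k : ℝ) + 1 / 2 < s.re → HasProd (fun v : HeightOneSpectrum R =>
        ∏ i, (1 - tw hR 1 (D i) v.asIdeal ^ a i * (starRingEnd ℂ) (tw hR 1 (D i) v.asIdeal) ^ b i *
          (nm v.asIdeal : ℂ) ^ (-s))⁻¹) (L s)) ∧
      L (k : ℂ) ≠ 0 := by
  have h1 : ∀ i, Sg1 (tw hR 1 (D i)) k (a i) (b i) := by
    intro i
    have h := h8 i
    have h2 := hab i
    obtain ⟨q, hq⟩ : ∃ q : ℕ, ((a i : ℤ) - b i).natAbs = 8 * q + 1 ∨
        ((a i : ℤ) - b i).natAbs = 8 * q + 3 := ⟨((a i : ℤ) - b i).natAbs / 8, by omega⟩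
    rcases hq with hq | hq
    · exact single hR hbasic hfp hcnt hdec hafe hprod (hD i) k (a i) (b i) q (4 * q) (Or.inl rfl)
        h2 hk (by omega)
    · exact single hR hbasic hfp hcnt hdec hafe hprod (hD i) k (a i) (b i) q (4 * q + 1)
        (Or.inr rfl) h2 hk (by omega)
  choose F hF1 hF2 hF3 using h1
  have hHC := fun i => (tw_main hR hbasic hfp hcnt hdec hafe hprod (hD i) 0 0 (Or.inl rfl)).1
  have hbot : ∀ i, tw hR 1 (D i) ⊥ = 0 := fun i => ((hHC i).zero ⊥).2 (Or.inl rfl)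
  have htop : ∀ i, tw hR 1 (D i) ⊤ = 1 := by
    intro i
    have h3 := (hHC i).princ 1 one_ne_zero (by rw [sub_self]; exact (sp (ff hR * D i)).zero_mem)
    rwa [sp, Ideal.span_singleton_one, Subring.coe_one, one_pow] at h3
  refine ⟨fun s => ∏ i, F i s, ?_, fun s hs => ?_, ?_⟩
  · exact Differentiable.fun_finsetProd fun i _ => hF1 i
  · refine hasProd_prod fun i _ => ?_
    refine euler_one hbasic (qr hR) (hbot i) (htop i) (hHC i).mul ?_ s _ (hF2 i s hs)
    have := hab i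
    omega
  · exact Finset.prod_ne_zero_iff.mpr fun i _ => hF3 i

end Pool.Agent.Y690.NV
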