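import Pool.Agent.Y690.X.Hc
import Mathlib.NumberTheory.LegendreSymbol.QuadraticChar.Basic

/-!
# The quadratic residue symbol modulo a Gaussian prime
-/

set_option autoImplicit false
set_option linter.unusedSectionVars false
set_option linter.style.haveILetI false

namespace Pool.Agent.Y690.NV

open Pool.Agent.W192.HK

open Complex (I)

variable {R : Subring ℂ}

open Classical in
/-- the quadratic residue symbol -/
noncomputable def qs (π α : R) : ℤ :=
  if α ∈ sp π then 0 else if ∃ β : R, β * β - α ∈ sp π then 1 else -1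

open Classical in
theorem qs_eq (π : R) [hm : (sp π).IsMaximal] [Fintype (R ⧸ sp π)] (α : R) :
    letI := Ideal.Quotient.field (sp π)
    qs π α = quadraticChar (R ⧸ sp π) (Ideal.Quotient.mk (sp π) α) := by
  letI := Ideal.Quotient.field (sp π)
  unfold qs
  rw [quadraticChar_apply]
  unfold quadraticCharFun
  have h1 : (Ideal.Quotient.mk (sp π) α = 0) ↔ α ∈ sp π := Ideal.Quotient.eq_zero_iff_mem
  have h2 : IsSquare (Ideal.Quotient.mk (sp π) α) ↔ ∃ β : R, β * β - α ∈ sp π := by
    constructor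
    · rintro ⟨b, hb⟩
      obtain ⟨β, rfl⟩ := Ideal.Quotient.mk_surjective b
      refine ⟨β, ?_⟩
      rw [← Ideal.Quotient.mk_eq_mk_iff_sub_mem, hb, map_mul]
    · rintro ⟨β, hβ⟩
      refine ⟨Ideal.Quotient.mk _ β, ?_⟩
      rw [← Ideal.Quotient.mk_eq_mk_iff_sub_mem] at hβ
      rw [← hβ, map_mul]
  simp only [h1, h2]

section props

variable (π : R) [hm : (sp π).IsMaximal] [Fintype (R ⧸ sp π)]

lemma qs_mul (α β : R) : qs π (α * β) = qs π α * qs π β := by
  classical
  letI := Ideal.Quotient.field (sp π)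
  rw [qs_eq, qs_eq, qs_eq, map_mul, map_mul]

lemma qs_one : qs π 1 = 1 := by
  classical
  letI := Ideal.Quotient.field (sp π)
  rw [qs_eq, map_one, map_one]

lemma qs_per {α β : R} (h : α - β ∈ sp π) : qs π α = qs π β := by
  classical
  letI := Ideal.Quotient.field (sp π)
  rw [qs_eq, qs_eq, (Ideal.Quotient.mk_eq_mk_iff_sub_mem _ _).mpr h]

lemma qs_zero_iff (α : R) : qs π α = 0 ↔ α ∈ sp π := by
  classical
  letI := Ideal.Quotient.field (sp π)
  rw [qs_eq, quadraticChar_eq_zero_iff, Ideal.Quotient.eq_zero_iff_mem]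

lemma qs_pm {α : R} (h : α ∉ sp π) : qs π α = 1 ∨ qs π α = -1 := by
  classical
  letI := Ideal.Quotient.field (sp π)
  rw [qs_eq]
  refine quadraticChar_dichotomy ?_
  rwa [Ne, Ideal.Quotient.eq_zero_iff_mem]

lemma ring_char (hodd : Odd (Fintype.card (R ⧸ sp π))) :
    letI := Ideal.Quotient.field (sp π)
    ringChar (R ⧸ sp π) ≠ 2 := by
  letI := Ideal.Quotient.field (sp π)
  intro h
  have := FiniteField.even_card_of_char_two h
  rw [Nat.odd_iff] at hodd
  omega

lemma qs_ex (hodd : Odd (Fintype.card (R ⧸ sp π))) : ∃ α : R, qs π α = -1 := by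
  classical
  letI := Ideal.Quotient.field (sp π)
  obtain ⟨a, ha⟩ := quadraticChar_exists_neg_one (ring_char π hodd)
  obtain ⟨α, rfl⟩ := Ideal.Quotient.mk_surjective a
  exact ⟨α, by rw [qs_eq]; exact ha⟩

lemma qs_sum (hodd : Odd (Fintype.card (R ⧸ sp π))) : ∑ w : R ⧸ sp π, qs π w.out = 0 := by
  classical
  letI := Ideal.Quotient.field (sp π)
  have h := quadraticChar_sum_zero (ring_char π hodd)
  rw [← h]
  refine Finset.sum_congr rfl fun w _ => ?_
  have h2 := qs_eq π w.out
  rw [Ideal.Quotient.mk_out] at h2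
  rw [h2]

variable (hR : ∀ z : ℂ, z ∈ R ↔ ∃ x y : ℤ, z = x + y * I)

lemma qs_ii {t : ℕ} (ht : Fintype.card (R ⧸ sp π) = 8 * t + 1) : qs π (ii hR) = 1 := by
  classical
  letI := Ideal.Quotient.field (sp π)
  have hodd : Odd (Fintype.card (R ⧸ sp π)) := ⟨4 * t, by rw [ht]; ring⟩
  have hF := ring_char π hodd
  have hi : (Ideal.Quotient.mk (sp π) (ii hR)) * (Ideal.Quotient.mk (sp π) (ii hR)) = -1 := by
    rw [← map_mul, ii_sq, map_neg, map_one]
  have hne : Ideal.Quotient.mk (sp π) (ii hR) ≠ 0 := by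
    intro h
    rw [h, mul_zero] at hi
    exact one_ne_zero (neg_eq_zero.mp hi.symm)
  rw [qs_eq, quadraticChar_eq_pow_of_char_ne_two hF hne, ht, show (8 * t + 1) / 2 = 2 * (2 * t) by
    omega, pow_mul, pow_two, hi, pow_mul]
  norm_num

lemma qs_ii_pow {t : ℕ} (ht : Fintype.card (R ⧸ sp π) = 8 * t + 1) (j : ℕ) :
    qs π (ii hR ^ j) = 1 := by
  induction j with
  | zero => rw [pow_zero, qs_one]
  | succ j ih => rw [pow_succ, qs_mul, ih, qs_ii π hR ht, one_mul]

include hR in
lemma qs_unit {t : ℕ} (ht : Fintype.card (R ⧸ sp π) = 8 * t + 1) (u w : R) (h : u * w = 1) :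
    qs π u = 1 := by
  obtain ⟨j, -, hj⟩ := unit_pow hR u w h
  have h1 := congrArg (qs π) hj
  rwa [qs_mul, qs_ii_pow π hR ht, one_mul, qs_one] at h1

open Classical in
/-- the symbol as a function on ideals -/
noncomputable def chI (π : R) (J : Ideal R) : ℂ :=
  if h : ∃ α : R, J = sp α then ((qs π (Classical.choose h) : ℤ) : ℂ) else 0

include hR in
lemma chI_gen {t : ℕ} (ht : Fintype.card (R ⧸ sp π) = 8 * t + 1) (α : R) :
    chI π (sp α) = ((qs π α : ℤ) : ℂ) := by
  have h : ∃ β : R, sp α = sp β := ⟨α, rfl⟩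
  unfold chI
  rw [dif_pos h]
  have h1 := Classical.choose_spec h
  rw [Ideal.span_singleton_eq_span_singleton] at h1
  obtain ⟨u, hu⟩ := h1
  rw [← hu, qs_mul, qs_unit π hR ht (u : R) ((u⁻¹ : Rˣ) : R) (by rw [Units.mul_inv]), mul_one]

lemma cop_iff (hπ : π ≠ 0) (α : R) : IsCoprime (sp α) (sp π) ↔ α ∉ sp π := by
  constructor
  · intro h hα
    have h1 : sp α ≤ sp π := (Ideal.span_singleton_le_iff_mem _).mpr hα
    have h2 : sp π = ⊤ := by
      have := Ideal.isCoprime_iff_sup_eq.mp h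
      rwa [sup_eq_right.mpr h1] at this
    exact hm.ne_top h2
  · intro hα
    rw [Ideal.isCoprime_iff_sup_eq]
    refine hm.out.2 _ ?_
    exact lt_of_le_of_ne le_sup_right fun h => hα (by
      rw [h]
      exact Ideal.mem_sup_left (Ideal.mem_span_singleton_self α))

include hR in
theorem hc_chI (hπ : π ≠ 0) {t : ℕ} (ht : Fintype.card (R ⧸ sp π) = 8 * t + 1) :
    HC 0 (sp π) (chI π) := by
  have := pid hR
  refine ⟨?_, ?_, ?_, ?_, ?_⟩
  · rwa [Ne, Ideal.span_singleton_eq_bot]
  · intro A B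
    obtain ⟨α, rfl⟩ := (IsPrincipalIdealRing.principal A).principal
    obtain ⟨β, rfl⟩ := (IsPrincipalIdealRing.principal B).principal
    have h1 : (Submodule.span R {α} : Ideal R) * (Submodule.span R {β} : Ideal R) =
        sp (α * β) := Ideal.span_singleton_mul_span_singleton α β
    rw [h1, chI_gen π hR ht]
    have h2 : chI π (Submodule.span R {α} : Ideal R) = _ := chI_gen π hR ht α
    have h3 : chI π (Submodule.span R {β} : Ideal R) = _ := chI_gen π hR ht β
    rw [h2, h3, qs_mul]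
    push_cast
    rfl
  · intro A
    obtain ⟨α, rfl⟩ := (IsPrincipalIdealRing.principal A).principal
    have h2 : chI π (Submodule.span R {α} : Ideal R) = _ := chI_gen π hR ht α
    have h3 : (IsCoprime (Submodule.span R {α} : Ideal R) (sp π)) ↔ α ∉ sp π := cop_iff π hπ α
    have h4 : (Submodule.span R {α} : Ideal R) = ⊥ ↔ α = 0 := Submodule.span_singleton_eq_bot
    rw [h2, h3, h4, not_not]
    have h5 : ((qs π α : ℤ) : ℂ) = 0 ↔ qs π α = 0 := by exact_mod_cast Iff.rfl
    rw [h5, qs_zero_iff]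
    constructor
    · intro h; exact Or.inr h
    · rintro (h | h)
      · rw [h]; exact (sp π).zero_mem
      · exact h
  · intro α _ hα
    rw [chI_gen π hR ht, qs_per π hα, qs_one, pow_zero]
    push_cast
    rfl
  · intro q' hq'
    have hodd : Odd (Fintype.card (R ⧸ sp π)) := ⟨4 * t, by rw [ht]; ring⟩
    obtain ⟨α, hα⟩ := qs_ex π hodd
    have h1 : q' = ⊤ := hm.out.2 _ hq'
    refine ⟨α, ?_, ?_, ?_, ?_⟩
    · rintro rfl
      have := (qs_zero_iff π 0).mpr (sp π).zero_mem
      rw [hα] at this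
      norm_num at this
    · rw [h1]; exact Submodule.mem_top
    · rw [cop_iff π hπ]
      intro h
      have := (qs_zero_iff π α).mpr h
      rw [hα] at this
      norm_num at this
    · rw [chI_gen π hR ht, hα, pow_zero]
      norm_num

end props

end Pool.Agent.Y690.NV
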