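import Pool.Agent.Y690.X.Val
import Pool.Agent.W192.HK.Parts

/-!
# The value formula
-/

set_option autoImplicit false
set_option linter.unusedSectionVars false

open Filter
open scoped Topology PeriodPair

namespace Pool.Agent.Y690.NV

open H667R3 Pool.Agent.TH936.CW Pool.Agent.W192.HK
open Pool.Agent.TH936.CM (IsLat latE latE_coe out_sub exists_gen)

variable {L : PeriodPair} {R : Subring ℂ} {Ω q : ℂ}
variable (hCM : CM L) (hq : ∀ l ∈ L.lattice, eta L l = 0 * l + q * (starRingEnd ℂ) l)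

include hCM hq in
theorem ek_dist (hL : IsLat L R Ω) (e : ℕ) (μ : R) (hμ : μ ≠ 0) [Fintype (R ⧸ sp μ)] {z : ℂ}
    (hz : (μ : ℂ) * z ∉ L.lattice) {N : ℕ} (hN : 0 < N) (hNz : (N : ℂ) * z ∈ L.lattice) :
    ∑ y : R ⧸ sp μ, ek L 0 q e (z + Ω * y.out / μ) = gm e μ * ek L 0 q e (μ * z) := by
  have h := Fd_zero hCM hq hL e μ hμ hz hN hNz
  unfold Fd at h
  exact sub_eq_zero.mp h

include hCM hq in
theorem lim_one (hL : IsLat L R Ω) (e : ℕ) {m k : ℕ} (hk : k = m + 1) (hm : 0 < m)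
    [Fintype (R ⧸ sp ((k : ℕ) : R))] {z : ℂ} (hz : z ∉ L.lattice)
    (hmz : (m : ℂ) * z ∈ L.lattice) :
    Tendsto (fun δ : ℝ => (k : ℂ) * EK R Ω e (δ * Complex.normSq (((k : ℕ) : R) : ℂ)⁻¹) z -
      (Fintype.card (R ⧸ sp ((k : ℕ) : R)) : ℂ) * EK R Ω e δ z) (𝓝[>] 0)
      (𝓝 (((k : ℂ) - (Fintype.card (R ⧸ sp ((k : ℕ) : R)) : ℂ)) *
        ((q ^ e)⁻¹ * ek L 0 q e z))) := by
  have hk0 : 0 < k := by omega
  have hkR : ((k : ℕ) : R) ≠ 0 := by
    intro h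
    have h5 := congrArg Subtype.val h
    push_cast at h5
    exact hk0.ne' (by exact_mod_cast h5)
  have hkC : (((k : ℕ) : R) : ℂ) = (k : ℂ) := by push_cast; rfl
  have hkz : (((k : ℕ) : R) : ℂ) * z ∉ L.lattice := by
    rw [hkC, hk]
    intro h
    apply hz
    have h1 := sub_mem h hmz
    convert h1 using 1
    push_cast
    ring
  have hkzz : (((k : ℕ) : R) : ℂ) * z - z ∈ L.lattice := by
    rw [hkC, hk]
    convert hmz using 1
    push_cast
    ring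
  have hgm : gm e (((k : ℕ) : R) : ℂ) = k := by
    rw [hkC]
    exact gg_nat e k
  set t : R ⧸ sp ((k : ℕ) : R) → ℂ := fun y => Ω * y.out / (((k : ℕ) : R) : ℂ) with ht
  have hmem : ∀ y, z + t y ∉ L.lattice := fun y => mu_mul hL _ hkR _ hkz
  have hmem' : ∀ y, z - t y ∉ L.lattice := by
    intro y
    have := mu_mul hL _ hkR (-y.out) hkz
    convert this using 2
    simp only [ht]
    push_cast
    ring
  have hneg : ∀ (f : ℂ → ℂ), (∀ a b : ℂ, a ∉ L.lattice → b - a ∈ L.lattice → f b = f a) →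
      ∑ y, f (z + t y) = ∑ y, f (z - t y) := by
    intro f hf
    rw [← Equiv.sum_comp (Equiv.neg (R ⧸ sp ((k : ℕ) : R))) (fun y => f (z + t y))]
    refine Finset.sum_congr rfl fun y _ => ?_
    refine hf _ _ (hmem' y) ?_
    have h1 : (-y).out - (-y.out) ∈ sp ((k : ℕ) : R) := by
      have := out_sub (sp ((k : ℕ) : R)) (-y.out)
      rwa [map_neg, Ideal.Quotient.mk_out] at this
    have h2 := (lat_dm_iff hL _ hkR _).2 h1
    convert h2 using 1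
    simp only [ht, Equiv.neg_apply]
    push_cast
    ring
  -- the limit
  have h1 : Tendsto (fun δ : ℝ => ∑ y, (1 / 2 : ℂ) * (EK R Ω e δ (z + t y) +
      EK R Ω e δ (z - t y) - 2 * EK R Ω e δ z)) (𝓝[>] 0)
      (𝓝 (∑ y, (1 / 2 : ℂ) * TT L e ((starRingEnd ℂ) z) (t y) z)) :=
    tendsto_finsetSum _ fun y _ => (lim_TT hL e hz).const_mul _
  have h2 : ∑ y, (1 / 2 : ℂ) * TT L e ((starRingEnd ℂ) z) (t y) z =
      ((k : ℂ) - (Fintype.card (R ⧸ sp ((k : ℕ) : R)) : ℂ)) * ((q ^ e)⁻¹ * ek L 0 q e z) := by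
    have h3 : ∀ y, (1 / 2 : ℂ) * TT L e ((starRingEnd ℂ) z) (t y) z =
        (1 / 2) * (q ^ e)⁻¹ * (ek L 0 q e (z + t y) + ek L 0 q e (z - t y) -
          2 * ek L 0 q e z) := by
      intro y
      rw [TT_Dk' hCM hq e hz (hmem y) (hmem' y)]
      unfold Dk
      ring
    rw [Finset.sum_congr rfl (fun y _ => h3 y), ← Finset.mul_sum, Finset.sum_sub_distrib,
      Finset.sum_add_distrib, ← hneg (fun w => ek L 0 q e w) (fun a b ha hb => ek_per hq e ha hb),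
      Finset.sum_const, Finset.card_univ, nsmul_eq_mul]
    have h4 := ek_dist hCM hq hL e _ hkR hkz hm hmz
    rw [hgm, ek_per hq e hz hkzz] at h4
    rw [h4]
    ring
  rw [h2] at h1
  refine h1.congr' ?_
  filter_upwards [self_mem_nhdsWithin] with δ (hδ : 0 < δ)
  have e1 := EK_dm hL e hδ _ hkR z
  rw [hgm, EK_per hL e _ hkzz] at e1
  rw [← e1, ← Finset.mul_sum, Finset.sum_sub_distrib, Finset.sum_add_distrib,
    ← hneg (fun w => EK R Ω e δ w) (fun a b _ hb => EK_per hL e δ hb), Finset.sum_const,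
    Finset.card_univ, nsmul_eq_mul]
  ring

include hCM hq in
/-- the value formula -/
theorem value (hbasic : H_BASIC) {ω : ℂ} (hR : QR R ω) (hL : IsLat L R Ω) (e : ℕ) (μ : R)
    (hμ : μ ≠ 0) [Fintype (R ⧸ sp μ)] (c : R → ℂ) (hc : ∀ a b : R, a - b ∈ sp μ → c a = c b)
    (hc0 : ∀ a ∈ sp μ, c a = 0) (hc1 : ∀ a : R, ‖c a‖ ≤ 1) {ℓ : ℂ}
    (hℓ : Tendsto (fun δ : ℝ => SK e c δ) (𝓝[>] 0) (𝓝 ℓ)) :
    ℓ = gg e ((starRingEnd ℂ) ((μ : ℂ) / Ω)) ((μ : ℂ) / Ω) * ((q ^ e)⁻¹ *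
      ∑ x : R ⧸ sp μ, c x.out * ek L 0 q e (Ω * x.out / μ)) := by
  obtain ⟨-, b2, b3, b4, b5, -, -, -, b9⟩ := hbasic R ω hR
  have hμC := coe_ne hμ
  have hΩ := hL.ne
  have hns : 0 < Complex.normSq (μ : ℂ) := Complex.normSq_pos.2 hμC
  -- a natural number in the ideal
  obtain ⟨m, hm, hmμ⟩ : ∃ m : ℕ, 0 < m ∧ (m : R) ∈ sp μ := by
    refine ⟨Nat.card (R ⧸ sp μ), Nat.card_pos, ?_⟩
    rw [← Ideal.Quotient.eq_zero_iff_mem, map_natCast]
    have := Finite.of_fintype (R ⧸ sp μ)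
    rw [Nat.card_eq_fintype_card]
    have h1 := card_nsmul_eq_zero' (G := R ⧸ sp μ) (x := 1)
    rwa [Nat.card_eq_fintype_card, nsmul_one] at h1
  obtain ⟨k, hk⟩ : ∃ k : ℕ, k = m + 1 := ⟨_, rfl⟩
  have hk0 : 0 < k := by omega
  have hkR : ((k : ℕ) : R) ≠ 0 := by
    intro h
    have h5 := congrArg Subtype.val h
    push_cast at h5
    exact hk0.ne' (by exact_mod_cast h5)
  have hkC : (((k : ℕ) : R) : ℂ) = (k : ℂ) := by push_cast; rfl
  have hcard : (Nat.card (R ⧸ sp ((k : ℕ) : R)) : ℝ) = (k : ℝ) ^ 2 := by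
    have := b5 ((k : ℕ) : R)
    unfold nm at this
    rw [this, hkC, Complex.normSq_natCast]
    ring
  have hfin : Finite (R ⧸ sp ((k : ℕ) : R)) := by
    refine Nat.finite_of_card_ne_zero ?_
    intro h
    rw [h] at hcard
    have : (0 : ℝ) < (k : ℝ) ^ 2 := by positivity
    push_cast at hcard
    linarith
  have := Fintype.ofFinite (R ⧸ sp ((k : ℕ) : R))
  have hKk : ((k : ℕ) : ℂ) - (Fintype.card (R ⧸ sp ((k : ℕ) : R)) : ℂ) ≠ 0 := by
    rw [← Nat.card_eq_fintype_card]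
    have h2 : Nat.card (R ⧸ sp ((k : ℕ) : R)) = k ^ 2 := by exact_mod_cast hcard
    rw [h2, sub_ne_zero]
    intro h3
    have h4 : k = k ^ 2 := by exact_mod_cast h3
    have h5 : 2 ≤ k := by omega
    nlinarith
  set κ : ℂ := gg e ((starRingEnd ℂ) ((μ : ℂ) / Ω)) ((μ : ℂ) / Ω) with hκ
  have hκ0 : κ ≠ 0 := by
    rw [hκ]
    have h : (μ : ℂ) / Ω ≠ 0 := div_ne_zero hμC hΩ
    unfold gg
    exact mul_ne_zero (pow_ne_zero _ ((map_ne_zero _).2 h)) (pow_ne_zero _ (inv_ne_zero h))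
  have hΩn : 0 < Complex.normSq Ω := Complex.normSq_pos.2 hΩ
  have hnsΩ : 0 < Complex.normSq ((μ : ℂ) / Ω) := Complex.normSq_pos.2 (div_ne_zero hμC hΩ)
  have hnk : 0 < Complex.normSq (((k : ℕ) : R) : ℂ)⁻¹ :=
    Complex.normSq_pos.2 (inv_ne_zero (coe_ne hkR))
  have hcs : ∀ δ : ℝ, 0 < δ → Summable (fun α : R => c α * gd e δ (α : ℂ)) := by
    intro δ hδ
    have h1 := summ_gd hL e 0 (δ := δ / Complex.normSq Ω) (by positivity)
    have h2 : Summable (fun α : R => ‖gd e δ (α : ℂ)‖) := by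
      have h3 := (h1.mul_left (gg e ((starRingEnd ℂ) Ω⁻¹) Ω⁻¹)).norm
      refine h3.congr fun α => ?_
      have e : (α : ℂ) = Ω⁻¹ * (0 + Ω * α) := by field_simp; ring
      conv_rhs => rw [e, gd_mul, Complex.normSq_inv]
      rw [div_eq_mul_inv]
    refine Summable.of_norm_bounded h2 fun α => ?_
    rw [norm_mul]
    exact mul_le_of_le_one_left (norm_nonneg _) (hc1 α)
  -- the limit of the sums
  have hl1 : Tendsto (fun δ : ℝ => ∑ x : R ⧸ sp μ, c x.out * ((k : ℂ) *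
      EK R Ω e (δ * Complex.normSq (((k : ℕ) : R) : ℂ)⁻¹) (Ω * x.out / μ) -
      (Fintype.card (R ⧸ sp ((k : ℕ) : R)) : ℂ) * EK R Ω e δ (Ω * x.out / μ))) (𝓝[>] 0)
      (𝓝 (∑ x : R ⧸ sp μ, c x.out * (((k : ℂ) - (Fintype.card (R ⧸ sp ((k : ℕ) : R)) : ℂ)) *
        ((q ^ e)⁻¹ * ek L 0 q e (Ω * x.out / μ))))) := by
    refine tendsto_finsetSum _ fun x _ => ?_
    by_cases hx : c x.out = 0
    · simp only [hx, zero_mul]
      exact tendsto_const_nhds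
    · refine Tendsto.const_mul _ ?_
      have hxn : (x.out : R) ∉ sp μ := fun h => hx (hc0 _ h)
      have hz : Ω * (x.out : R) / μ ∉ L.lattice := fun h => hxn ((lat_dm_iff hL μ hμ _).1 h)
      refine lim_one hCM hq hL e hk hm hz ?_
      rw [Ideal.mem_span_singleton'] at hmμ
      obtain ⟨a, ha⟩ := hmμ
      have haC : (a : ℂ) * μ = m := by
        have := congrArg Subtype.val ha
        push_cast at this
        exact this
      have : (m : ℂ) * (Ω * (x.out : R) / μ) = Ω * ((a * x.out : R) : ℂ) := by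
        rw [← haC]
        push_cast
        field_simp
      rw [this]
      exact hL.mem_mul _
  have hl2 := hl1.comp (lim_scale hnsΩ)
  have hl3 : Tendsto (fun δ : ℝ => κ⁻¹ * ((k : ℂ) * SK e c (δ * Complex.normSq (((k : ℕ) : R) : ℂ)⁻¹) -
      (Fintype.card (R ⧸ sp ((k : ℕ) : R)) : ℂ) * SK e c δ)) (𝓝[>] 0)
      (𝓝 (κ⁻¹ * ((k : ℂ) * ℓ - (Fintype.card (R ⧸ sp ((k : ℕ) : R)) : ℂ) * ℓ))) :=
    (((hℓ.comp (lim_scale hnk)).const_mul _).sub (hℓ.const_mul _)).const_mul _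
  have heq := tendsto_nhds_unique (hl2.congr' ?_) hl3
  · rw [Finset.sum_congr rfl (fun x _ => mul_left_comm (c x.out) _ _), ← Finset.mul_sum,
      Finset.sum_congr rfl (fun x _ => mul_left_comm (c x.out) ((q ^ e)⁻¹) _), ← Finset.mul_sum]
      at heq
    have h3 : ((k : ℂ) - (Fintype.card (R ⧸ sp ((k : ℕ) : R)) : ℂ)) * (κ * ((q ^ e)⁻¹ *
        ∑ x : R ⧸ sp μ, c x.out * ek L 0 q e (Ω * x.out / μ))) =
        ((k : ℂ) - (Fintype.card (R ⧸ sp ((k : ℕ) : R)) : ℂ)) * ℓ := by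
      rw [mul_left_comm, heq, mul_inv_cancel_left₀ hκ0]
      ring
    exact (mul_left_cancel₀ hKk h3).symm
  · filter_upwards [self_mem_nhdsWithin] with δ (hδ : 0 < δ)
    have hδk : 0 < δ * Complex.normSq (((k : ℕ) : R) : ℂ)⁻¹ := mul_pos hδ hnk
    rw [sum_Em hL e μ hμ c hc (hcs _ hδk), sum_Em hL e μ hμ c hc (hcs _ hδ)]
    simp only [Function.comp_apply]
    have e4 : δ * Complex.normSq (((k : ℕ) : R) : ℂ)⁻¹ * Complex.normSq ((μ : ℂ) / Ω) =
        δ * Complex.normSq ((μ : ℂ) / Ω) * Complex.normSq (((k : ℕ) : R) : ℂ)⁻¹ := by ring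
    rw [e4, ← hκ]
    have e5 : κ⁻¹ * ((k : ℂ) * (κ * ∑ x : R ⧸ sp μ, c x.out *
        EK R Ω e (δ * Complex.normSq ((μ : ℂ) / Ω) * Complex.normSq (((k : ℕ) : R) : ℂ)⁻¹)
          (Ω * x.out / μ)) - (Fintype.card (R ⧸ sp ((k : ℕ) : R)) : ℂ) * (κ *
        ∑ x : R ⧸ sp μ, c x.out * EK R Ω e (δ * Complex.normSq ((μ : ℂ) / Ω)) (Ω * x.out / μ))) =
        (k : ℂ) * (∑ x : R ⧸ sp μ, c x.out *
        EK R Ω e (δ * Complex.normSq ((μ : ℂ) / Ω) * Complex.normSq (((k : ℕ) : R) : ℂ)⁻¹)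
          (Ω * x.out / μ)) - (Fintype.card (R ⧸ sp ((k : ℕ) : R)) : ℂ) * (
        ∑ x : R ⧸ sp μ, c x.out * EK R Ω e (δ * Complex.normSq ((μ : ℂ) / Ω)) (Ω * x.out / μ)) := by
      field_simp
    rw [e5, Finset.mul_sum, Finset.mul_sum, ← Finset.sum_sub_distrib]
    refine Finset.sum_congr rfl fun x _ => ?_
    ring

end Pool.Agent.Y690.NV
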