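import Pool.Agent.Y690.X.Comb
import Pool.Agent.Y690.X.Qr
import Pool.Agent.Y690.X.Val2

/-!
# The nonvanishing of the character sum
-/

set_option autoImplicit false
set_option linter.unusedSectionVars false

open scoped PeriodPair

namespace Pool.Agent.Y690.NV

open H667R3 Pool.Agent.TH936.CW Pool.Agent.W192.HK Finset
open Pool.Agent.TH936.CM (IsLat out_sub)

open Complex (I)

variable {R : Subring ℂ} (hR : ∀ z : ℂ, z ∈ R ↔ ∃ x y : ℤ, z = x + y * I)
  {L : PeriodPair} {Ω q : ℂ}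

lemma one_ne : (2 + 2 * I : ℂ) ≠ 0 := by
  intro h
  have := congrArg Complex.re h
  simp at this

variable (hL : IsLat L R Ω) (hCM : CM L) (g2 : L.g₂ = -1)
  (hq : ∀ l ∈ L.lattice, eta L l = 0 * l + q * (starRingEnd ℂ) l)
  (hT : TP L q 1 (Ω / (2 + 2 * I)))
  {π : R} (hπ0 : π ≠ 0) [hm : (sp π).IsMaximal] [Fintype (R ⧸ sp π)]
  {a b : ℤ} (hπ : (π : ℂ) = 1 + 4 * ((a : ℂ) + b * I)) (hab : ¬ 2 ∣ a + b)
  {t : ℕ} (ht : Fintype.card (R ⧸ sp π) = 8 * t + 1)
  (hN : ((Fintype.card (R ⧸ sp π) : ℕ) : ℂ) = (π : ℂ) * (starRingEnd ℂ) (π : ℂ))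

/-- the torsion point attached to a residue class -/
noncomputable def Qw (Ω : ℂ) (π : R) (w : R ⧸ sp π) : ℂ := Ω * w.out / π

include hL hπ0 in
lemma Qw_neg (w : R ⧸ sp π) : Qw Ω π (-w) + Qw Ω π w ∈ L.lattice := by
  have h1 : (-w).out - (-w.out) ∈ sp π := by
    have := out_sub (sp π) (-w.out)
    rwa [map_neg, Ideal.Quotient.mk_out] at this
  have h2 := (lat_dm_iff hL π hπ0 _).2 h1
  unfold Qw
  convert h2 using 1
  push_cast
  ring

include hL hπ0 in
lemma Qw_zero : Qw Ω π 0 ∈ L.lattice := by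
  refine (lat_dm_iff hL π hπ0 _).2 ?_
  rw [← Ideal.Quotient.eq_zero_iff_mem, Ideal.Quotient.mk_out]

include hL hπ0 ht in
lemma Qw_OT {w : R ⧸ sp π} (hw : w ≠ 0) : OT L (Qw Ω π w) := by
  refine ⟨fun h => hw ?_, Fintype.card (R ⧸ sp π), ⟨4 * t, by rw [ht]; ring⟩, ?_⟩
  · have h1 := (lat_dm_iff hL π hπ0 _).1 h
    rwa [← Ideal.Quotient.eq_zero_iff_mem, Ideal.Quotient.mk_out] at h1
  · have h1 : ((Fintype.card (R ⧸ sp π) : ℕ) : R) ∈ sp π := by
      rw [← Ideal.Quotient.eq_zero_iff_mem, map_natCast]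
      have h1 := card_nsmul_eq_zero' (G := R ⧸ sp π) (x := 1)
      rwa [Nat.card_eq_fintype_card, nsmul_one] at h1
    have h2 := (lat_dm_iff hL π hπ0 _).2 ((sp π).mul_mem_right w.out h1)
    unfold Qw
    convert h2 using 1
    push_cast
    ring

include hL hπ0 ht hT in
lemma TQ_add (w : R ⧸ sp π) : Ω / (2 + 2 * I) + Qw Ω π w ∉ L.lattice := by
  by_cases hw : w = 0
  · intro h
    rw [hw] at h
    have h2 := sub_mem h (Qw_zero hL hπ0)
    rw [add_sub_cancel_right] at h2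
    exact two_mul_notMem_of L hT.nm h2
  · exact hT.add (Qw_OT hL hπ0 ht hw)

include hL hπ0 ht hT in
lemma TQ_sub (w : R ⧸ sp π) : Ω / (2 + 2 * I) - Qw Ω π w ∉ L.lattice := by
  by_cases hw : w = 0
  · intro h
    rw [hw] at h
    have h2 := add_mem h (Qw_zero hL hπ0)
    rw [sub_add_cancel] at h2
    exact two_mul_notMem_of L hT.nm h2
  · exact hT.sub (Qw_OT hL hπ0 ht hw)

include hR ht in
lemma qs_neg (w : R ⧸ sp π) : qs π (-w).out = qs π w.out := by
  have h1 : (-w).out - (-w.out) ∈ sp π := by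
    have := out_sub (sp π) (-w.out)
    rwa [map_neg, Ideal.Quotient.mk_out] at this
  rw [qs_per π h1, show -w.out = (-1) * w.out by ring, qs_mul,
    qs_unit π hR ht (-1) (-1) (by ring), one_mul]

include hR hL hCM g2 hq hT hπ0 hπ hab ht hN in
theorem S_val {Γ : Type*} [LinearOrderedCommGroupWithZero Γ] {v : Valuation ℂ Γ} {ρ : ℂ}
    (hρ : ρ ^ 4 = 2) (hr : v ρ < 1) (m e : ℕ) (he : e = 4 * m ∨ e = 4 * m + 1) :
    v (2 ^ (e + 1) * ((e.factorial : ℂ) * ∑ w : R ⧸ sp π, ((qs π w.out : ℤ) : ℂ) *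
      ek L 0 q e (Ω / (2 + 2 * I) + Qw Ω π w))) = v ρ ^ (8 * m + 8) := by
  set T : ℂ := Ω / (2 + 2 * I) with hTdef
  have hodd : Odd (Fintype.card (R ⧸ sp π)) := ⟨4 * t, by rw [ht]; ring⟩
  have hp := rho_pos (v := v) hρ
  have h2 : v 2 < 1 := by rw [v_two hρ]; exact pow_lt_one' hr (by norm_num)
  have hTL : T ∉ L.lattice := two_mul_notMem_of L hT.nm
  -- the distribution relation
  have hπT : (π : ℂ) * T - T ∈ L.lattice := by
    have h1 : (π : ℂ) * T - T = Ω * ((mkz hR a b * (1 - ii hR) : R) : ℂ) := by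
      have h3 : (π : ℂ) * T - T = (4 * ((a : ℂ) + b * I) * Ω) / (2 + 2 * I) := by
        rw [hπ, hTdef]; ring
      push_cast
      rw [h3, mkz_coe, ii_coe, div_eq_iff one_ne]
      linear_combination (2 * Ω * ((a : ℂ) + b * I)) * Complex.I_sq
    rw [h1]
    exact hL.mem_mul _
  have hπT' : (π : ℂ) * T ∉ L.lattice := fun h => hTL (by
    have := sub_mem h hπT
    rwa [sub_sub_cancel] at this)
  have hD := ek_dist hCM hq hL e π hπ0 hπT' (N := 4) (by norm_num) (by
    have := hT.fo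
    push_cast
    exact this)
  rw [ek_per hq e hTL hπT] at hD
  -- abbreviations
  set A0 : ℂ := 2 ^ (e + 1) * ((e.factorial : ℂ) * ek L 0 q e T) with hA0
  set P : R ⧸ sp π → ℂ := fun w => 2 ^ e * ((e.factorial : ℂ) * (ek L 0 q e (T + Qw Ω π w) +
    ek L 0 q e (T - Qw Ω π w))) with hP
  set k : R ⧸ sp π → ℂ := fun w => 1 + ((qs π w.out : ℤ) : ℂ) with hk
  have hper : ∀ w, ek L 0 q e (T + Qw Ω π (-w)) = ek L 0 q e (T - Qw Ω π w) := by
    intro w
    refine ek_per hq e (TQ_sub hL hT hπ0 ht w) ?_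
    convert Qw_neg hL hπ0 w using 1
    ring
  have hper' : ∀ w, ek L 0 q e (T - Qw Ω π (-w)) = ek L 0 q e (T + Qw Ω π w) := by
    intro w
    refine ek_per hq e (TQ_add hL hT hπ0 ht w) ?_
    convert neg_mem (Qw_neg hL hπ0 w) using 1
    ring
  have hkneg : ∀ w, k (-w) = k w := fun w => by
    simp only [hk]
    rw [qs_neg hR ht]
  have hPneg : ∀ w, P (-w) = P w := fun w => by
    simp only [hP]
    rw [hper, hper', add_comm]
  have hc0 : P 0 - A0 = 0 := by
    simp only [hP, hA0]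
    have h1 : ek L 0 q e (T + Qw Ω π 0) = ek L 0 q e T := by
      refine ek_per hq e hTL ?_
      rw [add_sub_cancel_left]
      exact Qw_zero hL hπ0
    have h3 : ek L 0 q e (T - Qw Ω π 0) = ek L 0 q e T := by
      refine ek_per hq e hTL ?_
      rw [sub_sub_cancel_left]
      exact neg_mem (Qw_zero hL hπ0)
    rw [h1, h3]
    ring
  have hcw : ∀ w, v (P w - A0) ≤ v ρ ^ (8 * m + 1) := by
    intro w
    by_cases hw : w = 0
    · rw [hw, hc0, map_zero]
      exact zero_le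
    · exact est_pair hρ hr hCM g2 hq hT (Qw_OT hL hπ0 ht hw) m e he
  -- the sum of the signs
  have hsum : ∑ w : R ⧸ sp π, k w = (π : ℂ) * (starRingEnd ℂ) (π : ℂ) := by
    simp only [hk]
    rw [sum_add_distrib, sum_const, card_univ, nsmul_eq_mul, mul_one, hN]
    have h1 := qs_sum π hodd
    have h3 : ∑ w : R ⧸ sp π, ((qs π w.out : ℤ) : ℂ) = 0 := by exact_mod_cast h1
    rw [h3, add_zero]
  -- the identity
  have hsym : ∑ w : R ⧸ sp π, k w * ek L 0 q e (T - Qw Ω π w) =
      ∑ w : R ⧸ sp π, k w * ek L 0 q e (T + Qw Ω π w) := by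
    rw [← Equiv.sum_comp (Equiv.neg (R ⧸ sp π)) (fun w => k w * ek L 0 q e (T - Qw Ω π w))]
    refine sum_congr rfl fun w _ => ?_
    rw [Equiv.neg_apply, hkneg, hper']
  have hid : 2 ^ (e + 1) * ((e.factorial : ℂ) * ∑ w : R ⧸ sp π, ((qs π w.out : ℤ) : ℂ) *
      ek L 0 q e (T + Qw Ω π w)) = ((π : ℂ) * (starRingEnd ℂ) (π : ℂ) - gm e π) * A0 +
      ∑ w : R ⧸ sp π, k w * (P w - A0) := by
    have e1 : ∑ w : R ⧸ sp π, k w * P w = 2 ^ (e + 1) * ((e.factorial : ℂ) *
        ∑ w : R ⧸ sp π, k w * ek L 0 q e (T + Qw Ω π w)) := by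
      have e2 : ∑ w : R ⧸ sp π, k w * P w = 2 ^ e * ((e.factorial : ℂ) *
          (∑ w : R ⧸ sp π, k w * ek L 0 q e (T + Qw Ω π w) +
          ∑ w : R ⧸ sp π, k w * ek L 0 q e (T - Qw Ω π w))) := by
        rw [← sum_add_distrib, mul_sum, mul_sum]
        refine sum_congr rfl fun w _ => ?_
        simp only [hP]
        ring
      rw [e2, hsym]
      ring
    have e3 : ∑ w : R ⧸ sp π, k w * ek L 0 q e (T + Qw Ω π w) =
        gm e π * ek L 0 q e T + ∑ w : R ⧸ sp π, ((qs π w.out : ℤ) : ℂ) *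
        ek L 0 q e (T + Qw Ω π w) := by
      rw [← hD, ← sum_add_distrib]
      refine sum_congr rfl fun w _ => ?_
      simp only [hk]
      unfold Qw
      ring
    have e4 : ∑ w : R ⧸ sp π, k w * (P w - A0) = ∑ w : R ⧸ sp π, k w * P w -
        (π : ℂ) * (starRingEnd ℂ) (π : ℂ) * A0 := by
      rw [← hsum, sum_mul, ← sum_sub_distrib]
      refine sum_congr rfl fun w _ => ?_
      ring
    rw [e4, e1, e3, hA0]
    ring
  rw [hid]
  -- the valuation of the main term
  have hcj : (starRingEnd ℂ) (π : ℂ) = 1 + 4 * ((a : ℂ) + (-b : ℤ) * I) := by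
    rw [hπ]
    simp only [map_add, map_mul, map_one, map_ofNat, map_intCast, Complex.conj_I]
    push_cast
    ring
  have hvπ : v (π : ℂ) = 1 := by
    have h1 : (π : ℂ) = ((1 + 4 * a : ℤ) : ℂ) + ((4 * b : ℤ) : ℂ) * I := by
      rw [hπ]; push_cast; ring
    rw [h1]
    exact v_gauss_odd h2 (by omega)
  have hvc : v ((starRingEnd ℂ) (π : ℂ)) = 1 := by
    have h1 : (starRingEnd ℂ) (π : ℂ) = ((1 + 4 * a : ℤ) : ℂ) + ((4 * (-b) : ℤ) : ℂ) * I := by
      rw [hcj]; push_cast; ring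
    rw [h1]
    exact v_gauss_odd h2 (by omega)
  have hc1 : (starRingEnd ℂ) (π : ℂ) ≠ 0 := by
    intro h
    rw [h, map_zero] at hvc
    exact zero_ne_one hvc
  have hmain : v (((π : ℂ) * (starRingEnd ℂ) (π : ℂ) - gm e π) * A0) = v ρ ^ (8 * m + 8) := by
    have h1 : (π : ℂ) * (starRingEnd ℂ) (π : ℂ) - gm e π = (π : ℂ) *
        (((starRingEnd ℂ) (π : ℂ)) ^ (e + 1) - (π : ℂ) ^ e) / ((starRingEnd ℂ) (π : ℂ)) ^ e := by
      rw [gm_eq]
      field_simp
      ring
    have h3 := v_diff (v := v) hρ hr hab e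
    rw [← hcj, ← hπ] at h3
    have h4 := est_base (v := v) hρ hr g2 hT m e he
    rw [← hA0] at h4
    rw [map_mul, h1, map_div₀, map_mul, map_pow, hvπ, hvc, one_pow, div_one, one_mul, h3, h4,
      ← pow_add]
    congr 1
    ring
  have herr : v (∑ w : R ⧸ sp π, k w * (P w - A0)) < v ρ ^ (8 * m + 8) := by
    have h1 : v (∑ w : R ⧸ sp π, k w * (P w - A0)) ≤ v 2 * (v 2 * v ρ ^ (8 * m + 1)) := by
      refine sum_pairs _ (fun w => by rw [hkneg, hPneg]) (fun w hw => ?_) (fun w => ?_)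
      · have h3 : w = 0 := by
          by_contra hw0
          obtain ⟨r, rfl⟩ := Ideal.Quotient.mk_surjective w
          have h4 : Ideal.Quotient.mk (sp π) (2 * r) = 0 := by
            have : Ideal.Quotient.mk (sp π) (2 * r) = Ideal.Quotient.mk (sp π) r -
                -Ideal.Quotient.mk (sp π) r := by rw [← map_neg, ← map_sub]; congr 1; ring
            rw [this, hw, sub_self]
          rw [Ideal.Quotient.eq_zero_iff_mem] at h4
          rcases hm.isPrime.mem_or_mem h4 with h5 | h5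
          · have h6 : ((Fintype.card (R ⧸ sp π) : ℕ) : R) ∈ sp π := by
              rw [← Ideal.Quotient.eq_zero_iff_mem, map_natCast]
              have h1 := card_nsmul_eq_zero' (G := R ⧸ sp π) (x := 1)
              rwa [Nat.card_eq_fintype_card, nsmul_one] at h1
            rw [ht] at h6
            have h7 := (sp π).sub_mem h6 ((sp π).mul_mem_left ((4 * t : ℕ) : R) h5)
            have h8 : ((8 * t + 1 : ℕ) : R) - ((4 * t : ℕ) : R) * 2 = 1 := by push_cast; ring
            rw [h8] at h7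
            exact hm.ne_top ((Ideal.eq_top_iff_one _).mpr h7)
          · exact hw0 (Ideal.Quotient.eq_zero_iff_mem.mpr h5)
        rw [h3, hc0, mul_zero]
      · by_cases hw : w = 0
        · rw [hw, hc0, mul_zero, map_zero]
          exact zero_le
        · rw [map_mul]
          refine mul_le_mul' ?_ (hcw w)
          simp only [hk]
          have h3 : w.out ∉ sp π := by
            rw [← Ideal.Quotient.eq_zero_iff_mem, Ideal.Quotient.mk_out]
            exact hw
          rcases qs_pm π h3 with h4 | h4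
          · rw [h4]
            push_cast
            rw [show (1 : ℂ) + 1 = 2 by norm_num]
          · rw [h4]
            push_cast
            rw [add_neg_cancel, map_zero]
            exact zero_le
    refine h1.trans_lt ?_
    rw [v_two hρ, ← pow_add, ← pow_add]
    exact pow_lt_pow_right_of_lt_one₀ hp hr (by omega)
  rw [Valuation.map_add_eq_of_lt_left v (by rw [hmain]; exact herr), hmain]

end Pool.Agent.Y690.NV
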