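import Pool.Agent.Y690.X.Main
import Pool.Agent.Y690.EP
import Pool.Agent.Y690.Pair
import Pool.Agent.W29.HK.Prod

/-!
# The nonvanishing theorem for sums of Hecke characters
-/

set_option autoImplicit false
set_option linter.unusedSectionVars false
set_option linter.unusedVariables false

open Filter IsDedekindDomain
open scoped Topology PeriodPair

namespace Pool.Agent.Y690.NV

open H667R3 Pool.Agent.TH936.CW Pool.Agent.W192.HK
open Pool.Agent.TH936.CM (IsLat out_sub)

open Complex (I)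

variable {R : Subring ℂ} (hR : ∀ z : ℂ, z ∈ R ↔ ∃ x y : ℤ, z = x + y * I)

/-- the admissible twists -/
def Adm (D : R) : Prop := D = 1 ∨ (Prime D ∧ ∃ x y : ℤ, (D : ℂ) = 1 + 4 * (x + y * I) ∧ Odd (x + y))

open Classical in
/-- the symbol -/
noncomputable def sy (D α : R) : ℤ := if D = 1 then 1 else qs D α

open Classical in
/-- the twisted character of weight `n` -/
noncomputable def tw (n : ℕ) (D : R) (J : Ideal R) : ℂ :=
  if D = 1 then th0 hR n J else th0 hR n J * chI D J

/-- the conclusion for one character -/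
def NVan (e : ℕ) (θ : Ideal R → ℂ) : Prop := ∃ F : ℂ → ℂ, Differentiable ℂ F ∧
  (∀ z : ℂ, ((e + 1 : ℕ) : ℝ) + 1 / 2 < z.re →
    HasSum (fun J : Ideal R => θ J * (nm J : ℂ) ^ (-z)) (F z)) ∧ F ((e + 1 : ℕ) : ℂ) ≠ 0

include hR in
/-- data attached to an admissible prime -/
lemma prime_data (hbasic : H_BASIC) {π : R} (hp : Prime π) {a b : ℤ}
    (hπ : (π : ℂ) = 1 + 4 * ((a : ℂ) + b * I)) : π ≠ 0 ∧ (sp π).IsMaximal ∧
    Finite (R ⧸ sp π) ∧ π - 1 ∈ sp (ff hR) ∧ ∃ t : ℕ, Nat.card (R ⧸ sp π) = 8 * t + 1 ∧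
      ((Nat.card (R ⧸ sp π) : ℕ) : ℂ) = (π : ℂ) * (starRingEnd ℂ) (π : ℂ) := by
  have := pid hR
  obtain ⟨b1, b2, b3, b4, b5, b6, b7, -, -⟩ := hbasic R I (qr hR)
  have h0 := hp.ne_zero
  have hne : sp π ≠ ⊥ := by rwa [Ne, Ideal.span_singleton_eq_bot]
  have hprime : (sp π).IsPrime := (Ideal.span_singleton_prime h0).mpr hp
  have hmax : (sp π).IsMaximal := hprime.isMaximal hne
  have hcard : (Nat.card (R ⧸ sp π) : ℝ) = Complex.normSq (π : ℂ) := b5 π
  refine ⟨h0, hmax, b1 _ hne, ?_, ?_⟩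
  · rw [Ideal.mem_span_singleton']
    refine ⟨mkz hR a b * (1 - ii hR), Subtype.ext ?_⟩
    push_cast
    rw [mkz_coe, ii_coe, ff_coe, hπ]
    linear_combination (-(2 * ((a : ℂ) + b * I))) * Complex.I_sq
  · have h1 : Complex.normSq (π : ℂ) = ((1 + 8 * (a + 2 * a ^ 2 + 2 * b ^ 2) : ℤ) : ℝ) := by
      have : (π : ℂ) = ((1 + 4 * a : ℤ) : ℂ) + ((4 * b : ℤ) : ℂ) * I := by
        rw [hπ]; push_cast; ring
      rw [this, Complex.normSq_apply]
      simp
      ring
    have h2 : 0 ≤ a + 2 * a ^ 2 + 2 * b ^ 2 := by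
      rcases le_or_gt 0 a with h | h
      · positivity
      · nlinarith [sq_nonneg b, mul_self_nonneg (a + 1)]
    refine ⟨(a + 2 * a ^ 2 + 2 * b ^ 2).toNat, ?_, ?_⟩
    · have h3 : ((Nat.card (R ⧸ sp π) : ℕ) : ℤ) = 1 + 8 * (a + 2 * a ^ 2 + 2 * b ^ 2) := by
        rw [h1] at hcard
        exact_mod_cast hcard
      have h4 := Int.toNat_of_nonneg h2
      omega
    · rw [Complex.mul_conj, ← hcard]
      push_cast
      rfl

/-- the twisted characters are Hecke characters with nonvanishing central value -/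
theorem tw_main (hbasic : H_BASIC) (hfp : H_FP) (hcnt : H_CNT) (hdec : H_DEC) (hafe : H_AFE)
    (hprod : H_PROD) {D : R} (hD : Adm D) (m e : ℕ) (he : e = 4 * m ∨ e = 4 * m + 1) :
    HC (2 * e + 1) (sp (ff hR * D)) (tw hR (2 * e + 1) D) ∧ NVan e (tw hR (2 * e + 1) D) := by
  classical
  obtain ⟨L, Ω, q, hL, hCM, g2, hq, hT⟩ := exists_base (qr hR)
  obtain ⟨V, hV⟩ := exists_V
  obtain ⟨ρ, hρ, hr⟩ := exists_rho hV
  have hodd : Odd (2 * e + 1) := ⟨e, rfl⟩
  have h0 := hc_th0 hR hodd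
  have hpos := rho_pos (v := V.valuation) hρ
  rcases hD with rfl | ⟨hp, a, b, hπ, hab⟩
  · have e1 : tw hR (2 * e + 1) (1 : R) = th0 hR (2 * e + 1) := by
      funext J
      unfold tw
      rw [if_pos rfl]
    have hHC : HC (2 * e + 1) (sp (ff hR * 1)) (tw hR (2 * e + 1) (1 : R)) := by
      rw [e1, mul_one]
      exact h0
    refine ⟨hHC, ?_⟩
    have hfin : Finite (R ⧸ sp (1 : R)) := by
      obtain ⟨b1, -⟩ := hbasic R I (qr hR)
      refine b1 _ ?_
      rw [Ne, Ideal.span_singleton_eq_bot]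
      exact one_ne_zero
    have := Fintype.ofFinite (R ⧸ sp (1 : R))
    refine nonvan hR hbasic hfp hcnt hdec hafe hL hCM hq one_ne_zero (π := 1) (by
      rw [sub_self]; exact (sp _).zero_mem) hHC (χ := fun _ => 1) (fun r hr => ?_)
      (fun r => map_one _) ?_
    · rw [e1, th0_gen hR _ hr, mul_one]
    · have hTL : Ω / (2 + 2 * I) ∉ L.lattice := two_mul_notMem_of L hT.nm
      have h1 : ∀ w : R ⧸ sp (1 : R), (1 : ℂ) * ek L 0 q e (Ω / (2 + 2 * I) + Qw Ω 1 w) =
          ek L 0 q e (Ω / (2 + 2 * I)) := by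
        intro w
        rw [one_mul]
        refine ek_per hq e hTL ?_
        rw [add_sub_cancel_left]
        unfold Qw
        have : Ω * (w.out : R) / ((1 : R) : ℂ) = Ω * (w.out : R) := by
          have h3 : ((1 : R) : ℂ) = 1 := rfl
          rw [h3, div_one]
        rw [this]
        exact hL.mem_mul _
      rw [Finset.sum_congr rfl (fun w _ => h1 w), Finset.sum_const, Finset.card_univ, nsmul_eq_mul]
      refine mul_ne_zero ?_ ?_
      · exact_mod_cast Fintype.card_ne_zero
      · intro h2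
        have h3 := est_base (v := V.valuation) hρ hr g2 hT m e he
        rw [h2, mul_zero, mul_zero, map_zero] at h3
        exact (pow_pos hpos _).ne h3
  · obtain ⟨hπ0, hmax, hfin, hπf, t, ht, hN⟩ := prime_data hR hbasic hp hπ
    have := Fintype.ofFinite (R ⧸ sp D)
    rw [Nat.card_eq_fintype_card] at ht hN
    have hab' : ¬ (2 : ℤ) ∣ a + b := by
      rw [← even_iff_two_dvd, Int.not_even_iff_odd]
      exact hab
    have hD1 : D ≠ 1 := fun h => hp.not_isUnit (h ▸ isUnit_one)
    have e1 : tw hR (2 * e + 1) D = fun J => th0 hR (2 * e + 1) J * chI D J := by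
      funext J
      unfold tw
      rw [if_neg hD1]
    have hcop : IsCoprime (sp (ff hR)) (sp D) := by
      rw [Ideal.isCoprime_iff_exists]
      exact ⟨1 - D, by
        have := (sp (ff hR)).neg_mem hπf
        rwa [neg_sub] at this, D, Ideal.mem_span_singleton_self _, by ring⟩
    have hχ := hc_chI D hR hπ0 ht
    have hHC : HC (2 * e + 1) (sp (ff hR * D)) (tw hR (2 * e + 1) D) := by
      rw [e1]
      have h1 := hprod R I (qr hR) (2 * e + 1) _ _ _ _ h0 hχ hcop
      have h2 : sp (ff hR * D) = sp (ff hR) * sp D :=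
        (Ideal.span_singleton_mul_span_singleton _ _).symm
      rw [h2]
      exact h1
    refine ⟨hHC, ?_⟩
    refine nonvan hR hbasic hfp hcnt hdec hafe hL hCM hq hπ0 hπf hHC
      (χ := fun r => ((qs D r : ℤ) : ℂ)) (fun r hr => ?_) (fun r => map_intCast _ _) ?_
    · rw [e1]
      simp only
      rw [th0_gen hR _ hr, chI_gen D hR ht]
    · have h1 : ∑ w : R ⧸ sp D, ((qs D (D + ff hR * w.out) : ℤ) : ℂ) *
          ek L 0 q e (Ω / (2 + 2 * I) + Qw Ω D w) = ((qs D (ff hR) : ℤ) : ℂ) *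
          ∑ w : R ⧸ sp D, ((qs D w.out : ℤ) : ℂ) * ek L 0 q e (Ω / (2 + 2 * I) + Qw Ω D w) := by
        rw [Finset.mul_sum]
        refine Finset.sum_congr rfl fun w _ => ?_
        have h3 : qs D (D + ff hR * w.out) = qs D (ff hR) * qs D w.out := by
          rw [← qs_mul]
          refine qs_per D ?_
          rw [add_sub_cancel_right]
          exact Ideal.mem_span_singleton_self _
        rw [h3]
        push_cast
        ring
      rw [h1]
      refine mul_ne_zero ?_ ?_
      · have h3 : qs D (ff hR) ≠ 0 := by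
          rw [Ne, qs_zero_iff, ← cop_iff D hπ0]
          exact hcop
        exact_mod_cast h3
      · intro h2
        have h3 := S_val hR hL hCM g2 hq hT hπ0 hπ hab' ht hN (v := V.valuation) hρ hr m e he
        rw [h2, mul_zero, mul_zero, map_zero] at h3
        exact (pow_pos hpos _).ne h3

end Pool.Agent.Y690.NV
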