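import Pool.Agent.Y690.X.Heat2

/-!
# The universal polynomials on the points `±T + Q` with `T` of order four
-/

set_option autoImplicit false
set_option linter.unusedSimpArgs false

namespace Pool.Agent.Y690.NV

open MvPolynomial

/-- polynomials in `b`, `ξ`, `η`, `ε`, `τ` -/
abbrev A := MvPolynomial (Fin 5) ℂ

noncomputable def aB : A := X 0
noncomputable def aX : A := X 1
noncomputable def aH : A := X 2
noncomputable def aE : A := X 3
noncomputable def aT : A := X 4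

noncomputable def fX : A := 2 * aE * aH + 2 * aB * aX ^ 2 + (1 - 2 * aB) * aX

/-- the derivation with respect to the modulus, in the gauge of the form of weight one -/
noncomputable def da : Derivation ℂ A A :=
  mkDerivation ℂ ![aB - 4 * aB ^ 2, fX,
    aH * (3 * aB * aX + 1 - 3 * aB) + aE * (3 * aB * aX ^ 2 + (2 - 4 * aB) * aX + aB),
    -(aB * (aE * (aX + 1) + aH)), -(aT ^ 2 * fX)]

lemma da_B : da aB = aB - 4 * aB ^ 2 := mkDerivation_X _ _ _
lemma da_X : da aX = fX := mkDerivation_X _ _ _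
lemma da_H : da aH = aH * (3 * aB * aX + 1 - 3 * aB) +
    aE * (3 * aB * aX ^ 2 + (2 - 4 * aB) * aX + aB) := mkDerivation_X _ _ _
lemma da_E : da aE = -(aB * (aE * (aX + 1) + aH)) := mkDerivation_X _ _ _
lemma da_T : da aT = -(aT ^ 2 * fX) := mkDerivation_X _ _ _

lemma A_ofNat (D : Derivation ℂ A A) (n : ℕ) [n.AtLeastTwo] : D (OfNat.ofNat n : A) = 0 := by
  have h2 : (OfNat.ofNat n : A) = ((OfNat.ofNat n : ℕ) : A) := (Nat.cast_ofNat).symm
  rw [h2, Derivation.map_natCast]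

lemma A_mul (D : Derivation ℂ A A) (a b : A) : D (a * b) = a * D b + b * D a := by
  rw [Derivation.leibniz, smul_eq_mul, smul_eq_mul]

lemma A_pow (D : Derivation ℂ A A) (a : A) (n : ℕ) : D (a ^ n) = n * a ^ (n - 1) * D a := by
  rw [Derivation.leibniz_pow, smul_eq_mul, nsmul_eq_mul]
  ring

lemma A_C (D : Derivation ℂ A A) (a : ℂ) : D (C a : A) = 0 := by
  have h := D.map_algebraMap a
  rwa [algebraMap_eq] at h

/-- the relations -/
noncomputable def r1 : A := aT * (aX - 1) - 1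
noncomputable def r2 : A := aH ^ 2 - aX ^ 2 - aB * aX * (aX - 1) ^ 2

/-- the ideal of relations -/
noncomputable def II : Ideal A := Ideal.span {r1, r2}

lemma mem_II {z : A} : z ∈ II ↔ ∃ a b : A, a * r1 + b * r2 = z := Ideal.mem_span_pair

/-- the gauge -/
noncomputable def aφ : A := C (1 / 3) * (1 - 5 * aB)
noncomputable def aG : A := C (1 / 9) * (1 - 4 * aB + aB ^ 2)

/-- the substitution of the point `s T + Q` -/
noncomputable def pE (s : ℂ) : A := aE + aH * aT + C s * (C (1 / 2) + aT)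
noncomputable def pX (s : ℂ) : A := C (1 / 3) * (1 + aB) + 2 * aT ^ 2 * (aX + C s * aH)
noncomputable def pY (s : ℂ) : A :=
  -((1 + 2 * aT) * (2 * aH * aT ^ 2 + C s * (aB + 2 * aT + 2 * aT ^ 2)))
noncomputable def ps (s : ℂ) : U →ₐ[ℂ] A := aeval ![pE s, pX s, pY s, aG]

lemma ps_E (s : ℂ) : ps s vE = pE s := by unfold ps vE; rw [aeval_X]; rfl
lemma ps_X (s : ℂ) : ps s vX = pX s := by unfold ps vX; rw [aeval_X]; rfl
lemma ps_Y (s : ℂ) : ps s vY = pY s := by unfold ps vY; rw [aeval_X]; rfl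
lemma ps_G (s : ℂ) : ps s vG = aG := by unfold ps vG; rw [aeval_X]; rfl

lemma da_r1 : ∃ a b : A, a * r1 + b * r2 = da r1 := by
  refine ⟨C (-2) * (aH * aE * aT) + C (-1) * (aX * aT) + C (2) * (aB * aX * aT) + C (-2) * (aB *
    aX ^ 2 * aT),
    0, ?_⟩
  have h : da r1 = aT * fX + (aX - 1) * -(aT ^ 2 * fX) := by
    unfold r1
    rw [map_sub, A_mul, map_sub, Derivation.map_one_eq_zero, da_X, da_T]
    ring
  rw [h]
  refine MvPolynomial.funext fun v => ?_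
  simp only [r1, r2, fX, aB, aX, aH, aE, aT, map_add, map_sub, map_mul, map_neg,
      map_pow, map_one, map_ofNat, eval_X, eval_C, map_zero]
  ring

lemma da_r2 : ∃ a b : A, a * r1 + b * r2 = da r2 := by
  refine ⟨0,
    C (2) + C (-6) * (aB) + C (6) * (aB * aX), ?_⟩
  have h : da r2 = 2 * aH * da aH - 2 * aX * da aX - (da aB * aX * (aX - 1) ^ 2 +
      aB * da aX * (aX - 1) ^ 2 + aB * aX * (2 * (aX - 1) * da aX)) := by
    unfold r2
    rw [map_sub, map_sub, A_mul, A_mul, A_pow, A_pow, A_pow, map_sub,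
      Derivation.map_one_eq_zero]
    push_cast
    ring
  rw [h, da_X, da_H, da_B]
  refine MvPolynomial.funext fun v => ?_
  simp only [r1, r2, fX, aB, aX, aH, aE, aT, map_add, map_sub, map_mul, map_neg,
      map_pow, map_one, map_ofNat, eval_X, eval_C, map_zero]
  ring

lemma der_E (s : ℂ) : da (pE s) = da aE + (aH * da aT + aT * da aH) + C s * da aT := by
    unfold pE
    rw [map_add, map_add, A_mul, A_mul, map_add, A_C, A_C]
    ring

lemma comp_E {s : ℂ} (hs : s = 1 ∨ s = -1) :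
    da (ps s vE) - ps s (dt vE) - 1 * aφ * ps s vE ∈ II := by
  rw [mem_II, ps_E, dt_E, der_E, da_E, da_H, da_T]
  rcases hs with rfl | rfl
  · refine ⟨C (2) * (aT) + C (4) * (aT ^ 2) + C (-1) * (aH * aT) + C (2) * (aH * aT ^ 2) + C (2) *
      (aX * aT ^ 2) + C (-2) * (aX * aE * aT) + C (-1) * (aB * aE) + aB * aH + C (-2) * (aB
      * aX * aT ^ 2) + aB * aX * aE + C (2) * (aB * aX * aE * aT) + C (-2) * (aB * aX * aH *
      aT) + C (2) * (aB * aX ^ 2 * aT ^ 2) + C (-2) * (aB * aX ^ 2 * aE * aT),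
      C (2) * (aT ^ 3) + C (-2) * (aE * aT ^ 2), ?_⟩
    refine MvPolynomial.funext fun v => ?_
    simp only [ps_E, ps_X, ps_Y, ps_G, r1, r2, fX, aφ, aG, pE, pX, pY, vK, aB, aX, aH, aE, aT,
      map_add, map_sub, map_mul, map_neg, map_pow, map_one, map_ofNat, eval_X, eval_C, map_zero]
    ring
  · refine ⟨C (-2) * (aT) + C (-4) * (aT ^ 2) + C (-1) * (aH * aT) + C (2) * (aH * aT ^ 2) + C
      (-2) * (aX * aT ^ 2) + C (-2) * (aX * aE * aT) + C (-1) * (aB * aE) + aB * aH + C (2)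
      * (aB * aX * aT ^ 2) + aB * aX * aE + C (2) * (aB * aX * aE * aT) + C (-2) * (aB * aX
      * aH * aT) + C (-2) * (aB * aX ^ 2 * aT ^ 2) + C (-2) * (aB * aX ^ 2 * aE * aT),
      C (-2) * (aT ^ 3) + C (-2) * (aE * aT ^ 2), ?_⟩
    refine MvPolynomial.funext fun v => ?_
    simp only [ps_E, ps_X, ps_Y, ps_G, r1, r2, fX, aφ, aG, pE, pX, pY, vK, aB, aX, aH, aE, aT,
      map_add, map_sub, map_mul, map_neg, map_pow, map_one, map_ofNat, eval_X, eval_C, map_zero]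
    ring

lemma der_X (s : ℂ) : da (pX s) = C (1 / 3) * da aB + 2 * aT ^ 2 * (da aX + C s * da aH) +
      4 * aT * da aT * (aX + C s * aH) := by
    unfold pX
    rw [map_add, A_mul, A_mul, A_mul, map_add, map_add, A_mul, A_pow, A_C, A_C,
      Derivation.map_one_eq_zero, A_ofNat]
    push_cast
    ring

lemma comp_X {s : ℂ} (hs : s = 1 ∨ s = -1) :
    da (ps s vX) - ps s (dt vX) - 2 * aφ * ps s vX ∈ II := by
  rw [mem_II, ps_X, dt_X, der_X, da_B, da_X, da_H, da_T]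
  rcases hs with rfl | rfl
  · refine ⟨C (-2) * (aT) + C (-8) * (aT ^ 2) + C (-8) * (aT ^ 3) + C (-4) * (aE * aT) + C (-8) *
      (aE * aT ^ 2) + C (-4) * (aH * aT ^ 2) + C (-16) * (aH * aT ^ 3) + C (-8) * (aH * aE *
      aT ^ 2) + C (-8) * (aX * aT ^ 3) + C (-8) * (aX * aE * aT ^ 2) + C (-4) * (aB * aT) +
      C (-2) * (aB * aE) + C (-2) * (aB * aE * aT) + C (-2) * (aB * aH * aT) + C (-4) * (aB
      * aX * aT ^ 2) + C (-2) * (aB * aX * aE * aT) + C (8) * (aB * aX * aE * aT ^ 2) + C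
      (-8) * (aB * aX * aH * aT ^ 2) + C (-4) * (aB * aX ^ 2 * aT ^ 2) + C (-8) * (aB * aX ^
      2 * aE * aT ^ 2),
      C (4) * (aT ^ 3) + C (-8) * (aE * aT ^ 3), ?_⟩
    refine MvPolynomial.funext fun v => ?_
    simp only [ps_E, ps_X, ps_Y, ps_G, r1, r2, fX, aφ, aG, pE, pX, pY, vK, aB, aX, aH, aE, aT,
      map_add, map_sub, map_mul, map_neg, map_pow, map_one, map_ofNat, eval_X, eval_C, map_zero]
    ring
  · refine ⟨C (-2) * (aT) + C (-8) * (aT ^ 2) + C (-8) * (aT ^ 3) + C (4) * (aE * aT) + C (8) *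
      (aE * aT ^ 2) + C (4) * (aH * aT ^ 2) + C (16) * (aH * aT ^ 3) + C (-8) * (aH * aE *
      aT ^ 2) + C (-8) * (aX * aT ^ 3) + C (8) * (aX * aE * aT ^ 2) + C (-4) * (aB * aT) + C
      (2) * (aB * aE) + C (2) * (aB * aE * aT) + C (2) * (aB * aH * aT) + C (-4) * (aB * aX
      * aT ^ 2) + C (2) * (aB * aX * aE * aT) + C (-8) * (aB * aX * aE * aT ^ 2) + C (8) *
      (aB * aX * aH * aT ^ 2) + C (-4) * (aB * aX ^ 2 * aT ^ 2) + C (8) * (aB * aX ^ 2 * aE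
      * aT ^ 2),
      C (4) * (aT ^ 3) + C (8) * (aE * aT ^ 3), ?_⟩
    refine MvPolynomial.funext fun v => ?_
    simp only [ps_E, ps_X, ps_Y, ps_G, r1, r2, fX, aφ, aG, pE, pX, pY, vK, aB, aX, aH, aE, aT,
      map_add, map_sub, map_mul, map_neg, map_pow, map_one, map_ofNat, eval_X, eval_C, map_zero]
    ring

lemma der_Y (s : ℂ) : da (pY s) = -((2 * da aT) * (2 * aH * aT ^ 2 + C s * (aB + 2 * aT + 2 * aT ^ 2)) +
      (1 + 2 * aT) * (2 * da aH * aT ^ 2 + 4 * aH * aT * da aT + C s * (da aB + 2 * da aT +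
      4 * aT * da aT))) := by
    have d2 : da 2 = 0 := A_ofNat da 2
    unfold pY
    simp only [map_neg, map_add, A_mul, A_pow, A_C, d2, Derivation.map_one_eq_zero]
    push_cast
    ring

lemma comp_Y {s : ℂ} (hs : s = 1 ∨ s = -1) :
    da (ps s vY) - ps s (dt vY) - 3 * aφ * ps s vY ∈ II := by
  rw [mem_II, ps_Y, dt_Y, der_Y, da_B, da_H, da_T]
  rcases hs with rfl | rfl
  · refine ⟨C (-4) * (aT) + C (-8) * (aT ^ 2) + C (-12) * (aH * aT ^ 3) + C (-24) * (aH * aT ^ 4)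
      + C (-24) * (aH * aE * aT ^ 3) + C (-4) * (aX * aT ^ 2) + C (-24) * (aX * aT ^ 3) + C
      (-24) * (aX * aT ^ 4) + C (8) * (aX * aE * aT ^ 2) + C (-24) * (aX * aH * aT ^ 4) + C
      (-24) * (aX ^ 2 * aT ^ 4) + C (8) * (aB * aT) + C (16) * (aB * aT ^ 2) + C (2) * (aB *
      aE) + C (-2) * (aB * aE * aT) + C (4) * (aB * aE * aT ^ 2) + C (2) * (aB * aH * aT) +
      C (-4) * (aB * aH * aT ^ 2) + C (6) * (aB * aX * aT ^ 2) + C (30) * (aB * aX * aT ^ 3)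
      + C (-12) * (aB * aX * aT ^ 4) + C (2) * (aB * aX * aE * aT) + C (-8) * (aB * aX * aE
      * aT ^ 2) + C (-12) * (aB * aX * aE * aT ^ 3) + C (8) * (aB * aX * aH * aT ^ 2) + C
      (12) * (aB * aX * aH * aT ^ 3) + C (12) * (aB * aX * aH * aT ^ 4) + C (-4) * (aB * aX
      ^ 2 * aT ^ 2) + C (-18) * (aB * aX ^ 2 * aT ^ 3) + C (36) * (aB * aX ^ 2 * aT ^ 4) + C
      (8) * (aB * aX ^ 2 * aE * aT ^ 2) + C (12) * (aB * aX ^ 2 * aE * aT ^ 3) + C (-12) *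
      (aB * aX ^ 2 * aH * aT ^ 4) + C (-24) * (aB * aX ^ 3 * aT ^ 4) + C (4) * (aB ^ 2 * aX
      * aT ^ 2) + C (-4) * (aB ^ 2 * aX ^ 2 * aT ^ 2),
      C (-4) * (aT ^ 3) + C (6) * (aT ^ 4) + C (12) * (aT ^ 5) + C (8) * (aE * aT ^ 3) + C
      (12) * (aE * aT ^ 4) + C (-12) * (aH * aT ^ 5) + C (-24) * (aX * aT ^ 5) + C (-4) *
      (aB * aT ^ 3), ?_⟩
    refine MvPolynomial.funext fun v => ?_
    simp only [ps_E, ps_X, ps_Y, ps_G, r1, r2, fX, aφ, aG, pE, pX, pY, vK, aB, aX, aH, aE, aT,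
      map_add, map_sub, map_mul, map_neg, map_pow, map_one, map_ofNat, eval_X, eval_C, map_zero]
    ring
  · refine ⟨C (4) * (aT) + C (8) * (aT ^ 2) + C (-12) * (aH * aT ^ 3) + C (-24) * (aH * aT ^ 4) +
      C (24) * (aH * aE * aT ^ 3) + C (4) * (aX * aT ^ 2) + C (24) * (aX * aT ^ 3) + C (24)
      * (aX * aT ^ 4) + C (8) * (aX * aE * aT ^ 2) + C (-24) * (aX * aH * aT ^ 4) + C (24) *
      (aX ^ 2 * aT ^ 4) + C (-8) * (aB * aT) + C (-16) * (aB * aT ^ 2) + C (2) * (aB * aE) +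
      C (-2) * (aB * aE * aT) + C (4) * (aB * aE * aT ^ 2) + C (2) * (aB * aH * aT) + C (-4)
      * (aB * aH * aT ^ 2) + C (-6) * (aB * aX * aT ^ 2) + C (-30) * (aB * aX * aT ^ 3) + C
      (12) * (aB * aX * aT ^ 4) + C (2) * (aB * aX * aE * aT) + C (-8) * (aB * aX * aE * aT
      ^ 2) + C (-12) * (aB * aX * aE * aT ^ 3) + C (8) * (aB * aX * aH * aT ^ 2) + C (12) *
      (aB * aX * aH * aT ^ 3) + C (12) * (aB * aX * aH * aT ^ 4) + C (4) * (aB * aX ^ 2 * aT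
      ^ 2) + C (18) * (aB * aX ^ 2 * aT ^ 3) + C (-36) * (aB * aX ^ 2 * aT ^ 4) + C (8) *
      (aB * aX ^ 2 * aE * aT ^ 2) + C (12) * (aB * aX ^ 2 * aE * aT ^ 3) + C (-12) * (aB *
      aX ^ 2 * aH * aT ^ 4) + C (24) * (aB * aX ^ 3 * aT ^ 4) + C (-4) * (aB ^ 2 * aX * aT ^
      2) + C (4) * (aB ^ 2 * aX ^ 2 * aT ^ 2),
      C (4) * (aT ^ 3) + C (-6) * (aT ^ 4) + C (-12) * (aT ^ 5) + C (8) * (aE * aT ^ 3) + C
      (12) * (aE * aT ^ 4) + C (-12) * (aH * aT ^ 5) + C (24) * (aX * aT ^ 5) + C (4) * (aB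
      * aT ^ 3), ?_⟩
    refine MvPolynomial.funext fun v => ?_
    simp only [ps_E, ps_X, ps_Y, ps_G, r1, r2, fX, aφ, aG, pE, pX, pY, vK, aB, aX, aH, aE, aT,
      map_add, map_sub, map_mul, map_neg, map_pow, map_one, map_ofNat, eval_X, eval_C, map_zero]
    ring

lemma der_G : da aG = C (1 / 9) * (2 * aB * da aB - 4 * da aB) := by
    have d4 : da 4 = 0 := A_ofNat da 4
    unfold aG
    simp only [map_add, map_sub, A_mul, A_pow, A_C, d4, Derivation.map_one_eq_zero]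
    push_cast
    ring

lemma comp_G {s : ℂ} (hs : s = 1 ∨ s = -1) :
    da (ps s vG) - ps s (dt vG) - 4 * aφ * ps s vG ∈ II := by
  rw [mem_II, ps_G, dt_G, der_G, da_B]
  rcases hs with rfl | rfl
  · refine ⟨C (-8) * (aT ^ 2) + C (-40) * (aT ^ 3) + C (-64) * (aT ^ 4) + C (-32) * (aT ^ 5) + C
      (-16) * (aH * aT ^ 3) + C (-64) * (aH * aT ^ 4) + C (-64) * (aH * aT ^ 5) + C (-8) *
      (aX * aT ^ 3) + C (-32) * (aX * aT ^ 4) + C (-32) * (aX * aT ^ 5) + C (-64) * (aX * aH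
      * aT ^ 5) + C (-64) * (aX ^ 2 * aT ^ 5) + C (-8) * (aB * aT) + C (-32) * (aB * aT ^ 2)
      + C (-32) * (aB * aT ^ 3) + C (-32) * (aB * aH * aT ^ 3) + C (-32) * (aB * aX * aT ^
      3) + C (-32) * (aB * aX * aT ^ 5) + C (-16) * (aB * aX * aH * aT ^ 4) + C (16) * (aB *
      aX * aH * aT ^ 5) + C (-16) * (aB * aX ^ 2 * aT ^ 4) + C (80) * (aB * aX ^ 2 * aT ^ 5)
      + C (-16) * (aB * aX ^ 2 * aH * aT ^ 5) + C (-48) * (aB * aX ^ 3 * aT ^ 5) + C (-8) *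
      (aB ^ 2 * aT) + C (-8) * (aB ^ 2 * aX * aT ^ 2) + C (8) * (aB ^ 2 * aX * aT ^ 3) + C
      (-8) * (aB ^ 2 * aX ^ 2 * aT ^ 3),
      C (32) * (aT ^ 5) + C (32) * (aT ^ 6) + C (-16) * (aH * aT ^ 6) + C (-48) * (aX * aT ^
      6) + C (-8) * (aB * aT ^ 4), ?_⟩
    refine MvPolynomial.funext fun v => ?_
    simp only [ps_E, ps_X, ps_Y, ps_G, r1, r2, fX, aφ, aG, pE, pX, pY, vK, aB, aX, aH, aE, aT,
      map_add, map_sub, map_mul, map_neg, map_pow, map_one, map_ofNat, eval_X, eval_C, map_zero]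
    ring
  · refine ⟨C (-8) * (aT ^ 2) + C (-40) * (aT ^ 3) + C (-64) * (aT ^ 4) + C (-32) * (aT ^ 5) + C
      (16) * (aH * aT ^ 3) + C (64) * (aH * aT ^ 4) + C (64) * (aH * aT ^ 5) + C (-8) * (aX
      * aT ^ 3) + C (-32) * (aX * aT ^ 4) + C (-32) * (aX * aT ^ 5) + C (64) * (aX * aH * aT
      ^ 5) + C (-64) * (aX ^ 2 * aT ^ 5) + C (-8) * (aB * aT) + C (-32) * (aB * aT ^ 2) + C
      (-32) * (aB * aT ^ 3) + C (32) * (aB * aH * aT ^ 3) + C (-32) * (aB * aX * aT ^ 3) + C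
      (-32) * (aB * aX * aT ^ 5) + C (16) * (aB * aX * aH * aT ^ 4) + C (-16) * (aB * aX *
      aH * aT ^ 5) + C (-16) * (aB * aX ^ 2 * aT ^ 4) + C (80) * (aB * aX ^ 2 * aT ^ 5) + C
      (16) * (aB * aX ^ 2 * aH * aT ^ 5) + C (-48) * (aB * aX ^ 3 * aT ^ 5) + C (-8) * (aB ^
      2 * aT) + C (-8) * (aB ^ 2 * aX * aT ^ 2) + C (8) * (aB ^ 2 * aX * aT ^ 3) + C (-8) *
      (aB ^ 2 * aX ^ 2 * aT ^ 3),
      C (32) * (aT ^ 5) + C (32) * (aT ^ 6) + C (16) * (aH * aT ^ 6) + C (-48) * (aX * aT ^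
      6) + C (-8) * (aB * aT ^ 4), ?_⟩
    refine MvPolynomial.funext fun v => ?_
    simp only [ps_E, ps_X, ps_Y, ps_G, r1, r2, fX, aφ, aG, pE, pX, pY, vK, aB, aX, aH, aE, aT,
      map_add, map_sub, map_mul, map_neg, map_pow, map_one, map_ofNat, eval_X, eval_C, map_zero]
    ring


end Pool.Agent.Y690.NV
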