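import Pool.Agent.Y690.X.Alg

/-!
# The recursion in the gauge of weight one
-/

set_option autoImplicit false
set_option linter.unusedSectionVars false
set_option linter.unusedSimpArgs false

namespace Pool.Agent.Y690.NV

open MvPolynomial Finset

/-- the weight -/
noncomputable def wt : Derivation ℂ U U := mkDerivation ℂ ![vE, 2 * vX, 3 * vY, 4 * vG]

lemma wt_E : wt vE = vE := mkDerivation_X _ _ _
lemma wt_X : wt vX = 2 * vX := mkDerivation_X _ _ _
lemma wt_Y : wt vY = 3 * vY := mkDerivation_X _ _ _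
lemma wt_G : wt vG = 4 * vG := mkDerivation_X _ _ _

lemma wt_dt (u : U) : wt (dt u) = dt (wt u) + 2 * dt u := by
  have h : ∀ u : U, ⁅wt, dt⁆ u = ((2 : U) • dt) u := by
    refine ext4 ?_ ?_ ?_ ?_
    · rw [Derivation.commutator_apply, Derivation.smul_apply, wt_E, dt_E, map_neg, map_add,
        D_mul, wt_E, wt_X, wt_Y, smul_eq_mul]
      ring
    · rw [Derivation.commutator_apply, Derivation.smul_apply, wt_X, dt_X, map_sub, map_add,
        D_mul, D_mul, D_mul, D_mul, D_mul, D_pow, dt_X, wt_E, wt_X, wt_Y, wt_G, D_ofNat, D_ofNat,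
        D_ofNat, smul_eq_mul]
      push_cast
      ring
    · rw [Derivation.commutator_apply, Derivation.smul_apply, wt_Y, dt_Y, map_add,
        D_mul, D_mul, D_mul, D_mul, map_sub, D_mul, D_mul, D_pow, dt_Y, wt_E, wt_X,
        wt_Y, wt_G, D_ofNat, D_ofNat, smul_eq_mul]
      push_cast
      ring
    · rw [Derivation.commutator_apply, Derivation.smul_apply, wt_G, dt_G, D_mul, D_mul, dt_G,
        D_ofNat, D_ofNat, smul_eq_mul]
      have h : wt vK = 6 * vK := by
        have h : wt vK = wt (vX ^ 3 - 3 * vG * vX - vY ^ 2) := rfl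
        rw [h, map_sub, map_sub, D_mul, D_mul, D_pow, D_pow, D_ofNat, wt_X, wt_Y, wt_G]
        unfold vK
        push_cast
        ring
      rw [h]
      ring
  have h1 := h u
  rw [Derivation.commutator_apply, Derivation.smul_apply, smul_eq_mul] at h1
  linear_combination h1

lemma wt_Dn (n : ℕ) : wt (Dn n) = (2 * n + 1) * Dn n ∧
    wt (Dn (n + 1)) = (2 * n + 3) * Dn (n + 1) := by
  induction n with
  | zero =>
    refine ⟨?_, ?_⟩
    · rw [Dn_zero, wt_E]; push_cast; ring
    · rw [show 0 + 1 = 1 from rfl, Dn_one, wt_dt, wt_E]; push_cast; ring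
  | succ n ih =>
    obtain ⟨h1, h2⟩ := ih
    refine ⟨by rw [h2]; push_cast; ring, ?_⟩
    have e : ((n : U) + 1) ^ 2 * (vG * Dn n) = ((((n + 1) ^ 2 : ℕ)) : U) * (vG * Dn n) := by
      push_cast; ring
    have e2 : (2 * (n : U) + 3) * Dn (n + 1) = ((2 * n + 3 : ℕ) : U) * Dn (n + 1) := by
      push_cast; ring
    rw [show n + 1 + 1 = n + 2 from rfl, Dn_rec, map_sub, wt_dt, h2, e, D_natCast_mul,
      D_mul wt, h1, wt_G, e2, D_natCast_mul]
    push_cast
    ring

section gen

variable (F : U →ₐ[ℂ] A) (I : Ideal A)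

lemma compat (hE : da (F vE) - F (dt vE) - aφ * F (wt vE) ∈ I)
    (hX : da (F vX) - F (dt vX) - aφ * F (wt vX) ∈ I)
    (hY : da (F vY) - F (dt vY) - aφ * F (wt vY) ∈ I)
    (hG : da (F vG) - F (dt vG) - aφ * F (wt vG) ∈ I) (u : U) :
    da (F u) - F (dt u) - aφ * F (wt u) ∈ I := by
  induction u using MvPolynomial.induction_on with
  | C a =>
    have h1 : ∀ D : Derivation ℂ U U, D (C a) = 0 := fun D => by
      have h := D.map_algebraMap a
      rwa [algebraMap_eq] at h
    have h2 : da (F (C a)) = 0 := by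
      have h : F (C a) = algebraMap ℂ A a := by
        rw [← algebraMap_eq, AlgHom.commutes]
      rw [h, da.map_algebraMap]
    rw [h1, h1, h2, map_zero, mul_zero, sub_zero, sub_zero]
    exact I.zero_mem
  | add p q hp hq =>
    have h := I.add_mem hp hq
    rw [map_add, map_add, map_add, map_add, map_add, map_add]
    convert h using 1
    ring
  | mul_X p i hp =>
    have hi : da (F (X i)) - F (dt (X i)) - aφ * F (wt (X i)) ∈ I := by
      fin_cases i
      · exact hE
      · exact hX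
      · exact hY
      · exact hG
    have h := I.add_mem (I.mul_mem_left (F (X i)) hp) (I.mul_mem_left (F p) hi)
    rw [D_mul, D_mul, map_mul, A_mul, map_add, map_mul, map_mul, map_add, map_mul, map_mul]
    convert h using 1
    ring

variable {F I}
variable (hc : ∀ u : U, da (F u) - F (dt u) - aφ * F (wt u) ∈ I)
include hc

lemma rec1 : F (Dn 1) - (da (F (Dn 0)) - aφ * F (Dn 0)) ∈ I := by
  have h := I.neg_mem (hc (Dn 0))
  rw [(wt_Dn 0).1] at h
  rw [Dn_one]
  rw [Dn_zero] at *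
  convert h using 1
  rw [map_mul]
  push_cast
  simp only [map_add, map_mul, map_one, mul_zero, zero_add, one_mul, map_zero]
  ring

lemma rec2 (n : ℕ) : F (Dn (n + 2)) - (da (F (Dn (n + 1))) - (2 * n + 3) * aφ * F (Dn (n + 1)) -
    (n + 1) ^ 2 * (F vG * F (Dn n))) ∈ I := by
  have h := I.neg_mem (hc (Dn (n + 1)))
  rw [(wt_Dn n).2] at h
  rw [Dn_rec]
  convert h using 1
  simp only [map_sub, map_add, map_mul, map_one, map_ofNat, map_natCast, map_pow]
  ring

end gen

/-! ### the change of gauge -/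

section gauge

variable {B : Type*} [CommRing B] [Algebra ℂ B] (D : Derivation ℂ B B)

lemma B_mul (a b : B) : D (a * b) = a * D b + b * D a := by
  rw [Derivation.leibniz, smul_eq_mul, smul_eq_mul]

/-- the coefficients -/
def ca (n j : ℕ) : ℕ := n.choose j ^ 2 * j.factorial

lemma ca_zero (n : ℕ) : ca n 0 = 1 := by simp [ca]

lemma ca_big (n : ℕ) : ca n (n + 1) = 0 := by simp [ca]

lemma ca_up (n i : ℕ) : (i + 1) * ca (n + 1) (i + 1) = (n + 1) ^ 2 * ca n i := by
  unfold ca
  have h := Nat.add_one_mul_choose_eq n i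
  rw [Nat.factorial_succ]
  calc (i + 1) * ((n + 1).choose (i + 1) ^ 2 * ((i + 1) * i.factorial))
      = ((n + 1).choose (i + 1) * (i + 1)) ^ 2 * i.factorial := by ring
    _ = (((n + 1) * n.choose i)) ^ 2 * i.factorial := by rw [h]
    _ = (n + 1) ^ 2 * (n.choose i ^ 2 * i.factorial) := by ring

lemma ca_side (n j : ℕ) (hj : j ≤ n + 1) : (ca (n + 1) j : ℤ) * ((n : ℤ) + 1 - j) ^ 2 =
    ((n : ℤ) + 1) ^ 2 * ca n j := by
  unfold ca
  have h : ((n + 1).choose j : ℤ) * ((n : ℤ) + 1 - j) = (n + 1) * n.choose j := by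
    rcases Nat.lt_or_ge n j with h | h
    · have : j = n + 1 := le_antisymm hj h
      subst this
      simp
    · have h3 := Nat.choose_mul_succ_eq n j
      have h4 : ((n + 1 - j : ℕ) : ℤ) = (n : ℤ) + 1 - j := by
        rw [Nat.cast_sub hj]; push_cast; ring
      have h5 : ((n.choose j * (n + 1) : ℕ) : ℤ) = (((n + 1).choose j * (n + 1 - j) : ℕ) : ℤ) := by
        rw [h3]
      push_cast at h5
      rw [h4] at h5
      linear_combination -h5
  push_cast
  calc ((n + 1).choose j : ℤ) ^ 2 * j.factorial * ((n : ℤ) + 1 - j) ^ 2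
      = (((n + 1).choose j : ℤ) * ((n : ℤ) + 1 - j)) ^ 2 * j.factorial := by ring
    _ = _ := by rw [h]; ring

lemma ca_step (n i : ℕ) (hi : i ≤ n) : (ca (n + 1) (i + 1) : ℤ) =
    ca n (i + 1) + (2 * n + 1 - i) * ca n i := by
  unfold ca
  have h1 : ((n + 1).choose (i + 1) : ℤ) = n.choose i + n.choose (i + 1) := by
    exact_mod_cast Nat.choose_succ_succ n i
  have h2 : (n.choose (i + 1) : ℤ) * (i + 1) = n.choose i * ((n : ℤ) - i) := by
    have h3 := Nat.choose_succ_right_eq n i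
    have h4 : ((n - i : ℕ) : ℤ) = (n : ℤ) - i := by rw [Nat.cast_sub hi]
    have h5 : ((n.choose (i + 1) * (i + 1) : ℕ) : ℤ) = ((n.choose i * (n - i) : ℕ) : ℤ) := by
      rw [h3]
    push_cast at h5
    rw [h4] at h5
    exact h5
  push_cast
  rw [h1, Nat.factorial_succ]
  push_cast
  linear_combination (2 * (n.choose i : ℤ) * i.factorial) * h2

variable (ψ : B) (M : ℕ → B)

/-- the transformed sequence -/
noncomputable def Sg (n : ℕ) : B := ∑ j ∈ range (n + 1), (ca n j : B) * (ψ ^ j * M (n - j))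

lemma Sg_zero : Sg ψ M 0 = M 0 := by
  unfold Sg
  rw [sum_range_one, ca_zero]
  simp

lemma Sg_one : Sg ψ M 1 = M 1 + ψ * M 0 := by
  unfold Sg
  rw [sum_range_succ, sum_range_one, ca_zero]
  simp [ca]

variable {ψ M}

lemma B_pow (a : B) (n : ℕ) : D (a ^ n) = n * a ^ (n - 1) * D a := by
  rw [Derivation.leibniz_pow, smul_eq_mul, nsmul_eq_mul]
  ring

lemma B_nat (n : ℕ) (a : B) : D ((n : B) * a) = n * D a := by
  rw [B_mul, Derivation.map_natCast, mul_zero, add_zero]

theorem Sg_rec {β γ : B} (hψ : D ψ = γ + β - ψ ^ 2) (h1 : M 1 = D (M 0))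
    (hM : ∀ n, M (n + 2) = D (M (n + 1)) + (n + 1) ^ 2 * (β * M n)) (n : ℕ) :
    Sg ψ M (n + 2) = D (Sg ψ M (n + 1)) + (2 * n + 3) * (ψ * Sg ψ M (n + 1)) -
      (n + 1) ^ 2 * (γ * Sg ψ M n) := by
  have hMg : ∀ k, D (M k) = M (k + 1) - (k : B) ^ 2 * (β * M (k - 1)) := by
    intro k
    rcases k with _ | k
    · rw [zero_add, h1]; push_cast; ring
    · rw [show k + 1 + 1 = k + 2 from rfl, hM]; push_cast; simp
  -- the derivative
  have hD : D (Sg ψ M (n + 1)) = ∑ j ∈ range (n + 2), (ca (n + 1) j : B) * (ψ ^ j * M (n + 2 - j)) -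
      ∑ j ∈ range (n + 2), (ca (n + 1) j : B) * (((n : B) + 1 - j) ^ 2 * (ψ ^ j * (β * M (n - j)))) +
      ∑ j ∈ range (n + 2), (ca (n + 1) j : B) * ((j : B) * ψ ^ (j - 1) * (γ + β - ψ ^ 2) *
        M (n + 1 - j)) := by
    unfold Sg
    rw [map_sum, ← sum_sub_distrib, ← sum_add_distrib]
    refine sum_congr rfl fun j hj => ?_
    have hj' : j ≤ n + 1 := by have := mem_range.mp hj; omega
    rw [B_nat, B_mul, B_pow, hψ, hMg]
    have e1 : n + 1 - j + 1 = n + 2 - j := by omega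
    have e2 : n + 1 - j - 1 = n - j := by omega
    have e3 : ((n + 1 - j : ℕ) : B) = (n : B) + 1 - j := by
      rw [Nat.cast_sub hj']; push_cast; ring
    rw [e1, e2, e3]
    ring
  -- second sum
  have hs2 : ∑ j ∈ range (n + 2), (ca (n + 1) j : B) * (((n : B) + 1 - j) ^ 2 *
      (ψ ^ j * (β * M (n - j)))) = ((n : B) + 1) ^ 2 * (β * Sg ψ M n) := by
    rw [sum_range_succ]
    have e : (n : B) + 1 - ((n + 1 : ℕ) : B) = 0 := by push_cast; ring
    rw [e]
    unfold Sg
    rw [mul_sum, mul_sum]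
    have e0 : (ca (n + 1) (n + 1) : B) * (0 ^ 2 * (ψ ^ (n + 1) * (β * M (n - (n + 1))))) = 0 := by
      ring
    rw [e0, add_zero]
    refine sum_congr rfl fun j hj => ?_
    have hj' : j ≤ n + 1 := by have := mem_range.mp hj; omega
    have h := ca_side n j hj'
    have h2 : ((ca (n + 1) j : ℕ) : B) * ((n : B) + 1 - j) ^ 2 = ((n : B) + 1) ^ 2 * (ca n j : ℕ) := by
      have h3 := congrArg (Int.cast : ℤ → B) h
      push_cast at h3
      exact h3
    linear_combination (ψ ^ j * (β * M (n - j))) * h2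
  have hs3 : ∑ j ∈ range (n + 2), (ca (n + 1) j : B) * ((j : B) * ψ ^ (j - 1) * (γ + β - ψ ^ 2) *
        M (n + 1 - j)) = ((n : B) + 1) ^ 2 * ((γ + β) * Sg ψ M n) -
      ∑ j ∈ range (n + 2), (ca (n + 1) j : B) * (j * (ψ ^ (j + 1) * M (n + 1 - j))) := by
    have h0 : ∑ j ∈ range (n + 2), (ca (n + 1) j : B) * ((j : B) * ψ ^ (j - 1) * (γ + β - ψ ^ 2) *
        M (n + 1 - j)) = ∑ j ∈ range (n + 2), (γ + β) * ((ca (n + 1) j : B) * ((j : B) *
        (ψ ^ (j - 1) * M (n + 1 - j)))) -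
        ∑ j ∈ range (n + 2), (ca (n + 1) j : B) * (j * (ψ ^ (j + 1) * M (n + 1 - j))) := by
      rw [← sum_sub_distrib]
      refine sum_congr rfl fun j hj => ?_
      rcases j with _ | j
      · push_cast; ring
      · rw [Nat.add_sub_cancel]; ring
    rw [h0, ← mul_sum, sum_range_succ']
    have h1 : ∑ k ∈ range (n + 1), (ca (n + 1) (k + 1) : B) * (((k + 1 : ℕ) : B) *
        (ψ ^ (k + 1 - 1) * M (n + 1 - (k + 1)))) = ((n : B) + 1) ^ 2 * Sg ψ M n := by
      unfold Sg
      rw [mul_sum]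
      refine sum_congr rfl fun k hk => ?_
      have h := congrArg (Nat.cast : ℕ → B) (ca_up n k)
      push_cast at h
      rw [Nat.add_sub_cancel, show n + 1 - (k + 1) = n - k by omega]
      push_cast
      linear_combination (ψ ^ k * M (n - k)) * h
    rw [h1]
    push_cast
    ring
  have hs1 : Sg ψ M (n + 2) = ∑ j ∈ range (n + 2), (ca (n + 1) j : B) * (ψ ^ j * M (n + 2 - j)) +
      ∑ j ∈ range (n + 2), (2 * n + 3 - (j : B)) * ((ca (n + 1) j : B) *
        (ψ ^ (j + 1) * M (n + 1 - j))) := by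
    unfold Sg
    rw [sum_range_succ', sum_range_succ' (fun j => (ca (n + 1) j : B) * (ψ ^ j * M (n + 2 - j)))]
    have h1 : ∑ k ∈ range (n + 1), (ca (n + 1) (k + 1) : B) * (ψ ^ (k + 1) * M (n + 2 - (k + 1))) =
        ∑ k ∈ range (n + 2), (ca (n + 1) (k + 1) : B) * (ψ ^ (k + 1) * M (n + 2 - (k + 1))) := by
      rw [sum_range_succ _ (n + 1), ca_big]
      push_cast
      ring
    rw [h1]
    have h2 : ∑ k ∈ range (n + 2), (ca (n + 2) (k + 1) : B) * (ψ ^ (k + 1) * M (n + 2 - (k + 1))) =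
        ∑ k ∈ range (n + 2), (ca (n + 1) (k + 1) : B) * (ψ ^ (k + 1) * M (n + 2 - (k + 1))) +
        ∑ j ∈ range (n + 2), (2 * n + 3 - (j : B)) * ((ca (n + 1) j : B) *
        (ψ ^ (j + 1) * M (n + 1 - j))) := by
      rw [← sum_add_distrib]
      refine sum_congr rfl fun k hk => ?_
      have hk' : k ≤ n + 1 := by have := mem_range.mp hk; omega
      have h := congrArg (Int.cast : ℤ → B) (ca_step (n + 1) k hk')
      push_cast at h
      rw [show n + 2 - (k + 1) = n + 1 - k by omega]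
      linear_combination (ψ ^ (k + 1) * M (n + 1 - k)) * h
    rw [h2, ca_zero, ca_zero]
    ring
  rw [hs1, hD, hs2, hs3]
  have h4 : ∑ j ∈ range (n + 2), (2 * n + 3 - (j : B)) * ((ca (n + 1) j : B) *
        (ψ ^ (j + 1) * M (n + 1 - j))) = (2 * n + 3) * (ψ * Sg ψ M (n + 1)) -
      ∑ j ∈ range (n + 2), (ca (n + 1) j : B) * (j * (ψ ^ (j + 1) * M (n + 1 - j))) := by
    unfold Sg
    rw [mul_sum, mul_sum, ← sum_sub_distrib]
    refine sum_congr rfl fun j hj => ?_
    ring
  rw [h4]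
  ring

end gauge

end Pool.Agent.Y690.NV
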