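import Pool.Agent.Y690.X.Alg2

/-!
# The values of the universal polynomials at `±T + Q` and at `T`
-/

set_option autoImplicit false
set_option linter.unusedSimpArgs false

namespace Pool.Agent.Y690.NV

open MvPolynomial Finset

lemma da_II {z : A} (hz : z ∈ II) : da z ∈ II := by
  obtain ⟨a, b, rfl⟩ := mem_II.mp hz
  rw [map_add, A_mul, A_mul]
  refine II.add_mem (II.add_mem ?_ ?_) (II.add_mem ?_ ?_)
  · exact II.mul_mem_left _ (mem_II.mpr da_r1)
  · exact II.mul_mem_right _ (mem_II.mpr ⟨1, 0, by ring⟩)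
  · exact II.mul_mem_left _ (mem_II.mpr da_r2)
  · exact II.mul_mem_right _ (mem_II.mpr ⟨0, 1, by ring⟩)

/-- `b (1 - 4 b)` -/
noncomputable def aβ : A := aB * (1 - 4 * aB)

lemma da_φ : da (-aφ) = aG + aβ - (-aφ) ^ 2 := by
  have h : da aφ = C (1 / 3) * (-5 * (aB - 4 * aB ^ 2)) := by
    have h5 : da 5 = 0 := A_ofNat da 5
    unfold aφ
    rw [A_mul, map_sub, A_mul, A_C, Derivation.map_one_eq_zero, h5, da_B]
    ring
  rw [map_neg, h]
  refine MvPolynomial.funext fun v => ?_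
  simp only [aφ, aG, aβ, aB, map_add, map_sub, map_mul, map_neg, map_pow, map_one, map_ofNat,
    eval_X, eval_C]
  ring

/-- the sequence generated by the second order recursion -/
noncomputable def Mq (m : A) : ℕ → A
  | 0 => m
  | 1 => da m
  | n + 2 => da (Mq m (n + 1)) + (n + 1) ^ 2 * (aβ * Mq m n)

lemma Mq_zero (m : A) : Mq m 0 = m := by rw [Mq]
lemma Mq_one (m : A) : Mq m 1 = da m := by rw [Mq]
lemma Mq_rec (m : A) (n : ℕ) : Mq m (n + 2) = da (Mq m (n + 1)) + (n + 1) ^ 2 * (aβ * Mq m n) := by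
  rw [Mq]

lemma Mq_add (m₁ m₂ : A) (n : ℕ) : Mq (m₁ + m₂) n = Mq m₁ n + Mq m₂ n ∧
    Mq (m₁ + m₂) (n + 1) = Mq m₁ (n + 1) + Mq m₂ (n + 1) := by
  induction n with
  | zero =>
    refine ⟨by rw [Mq_zero, Mq_zero, Mq_zero], ?_⟩
    rw [zero_add, Mq_one, Mq_one, Mq_one, map_add]
  | succ n ih =>
    refine ⟨ih.2, ?_⟩
    rw [show n + 1 + 1 = n + 2 from rfl, Mq_rec, Mq_rec, Mq_rec, ih.1, ih.2, map_add]
    ring

lemma Mq_Cmul (c : ℂ) (m : A) (n : ℕ) : Mq (C c * m) n = C c * Mq m n ∧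
    Mq (C c * m) (n + 1) = C c * Mq m (n + 1) := by
  induction n with
  | zero =>
    refine ⟨by rw [Mq_zero, Mq_zero], ?_⟩
    rw [zero_add, Mq_one, Mq_one, A_mul, A_C]
    ring
  | succ n ih =>
    refine ⟨ih.2, ?_⟩
    rw [show n + 1 + 1 = n + 2 from rfl, Mq_rec, Mq_rec, ih.1, ih.2, A_mul, A_C]
    ring

/-- two sequences with the same recursion modulo the ideal -/
lemma seq_eq {I : Ideal A} (hI : ∀ z ∈ I, da z ∈ I) {d S : ℕ → A} (a : A) (g : A)
    (h0 : d 0 - S 0 ∈ I)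
    (hd1 : d 1 - (da (d 0) + a * d 0) ∈ I)
    (hd : ∀ n : ℕ, d (n + 2) - (da (d (n + 1)) + (2 * n + 3) * (a * d (n + 1)) -
      (n + 1) ^ 2 * (g * d n)) ∈ I)
    (hs1 : S 1 = da (S 0) + a * S 0)
    (hs : ∀ n : ℕ, S (n + 2) = da (S (n + 1)) + (2 * n + 3) * (a * S (n + 1)) -
      (n + 1) ^ 2 * (g * S n)) (n : ℕ) : d n - S n ∈ I ∧ d (n + 1) - S (n + 1) ∈ I := by
  induction n with
  | zero =>
    refine ⟨h0, ?_⟩
    have h := I.add_mem hd1 (I.add_mem (hI _ h0) (I.mul_mem_left a h0))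
    rw [zero_add, hs1]
    convert h using 1
    rw [map_sub]
    ring
  | succ n ih =>
    refine ⟨ih.2, ?_⟩
    have h := I.add_mem (hd n) (I.sub_mem (I.add_mem (hI _ ih.2) (I.mul_mem_left
      ((2 * n + 3) * a) ih.2)) (I.mul_mem_left ((n + 1) ^ 2 * g) ih.1))
    rw [show n + 1 + 1 = n + 2 from rfl, hs]
    convert h using 1
    rw [map_sub]
    ring

lemma compat_ps {s : ℂ} (hs : s = 1 ∨ s = -1) (u : U) :
    da (ps s u) - ps s (dt u) - aφ * ps s (wt u) ∈ II := by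
  refine compat (ps s) II ?_ ?_ ?_ ?_ u
  · rw [wt_E]; convert comp_E hs using 1; ring
  · rw [wt_X]; convert comp_X hs using 1; rw [map_mul, map_ofNat]; ring
  · rw [wt_Y]; convert comp_Y hs using 1; rw [map_mul, map_ofNat]; ring
  · rw [wt_G]; convert comp_G hs using 1; rw [map_mul, map_ofNat]; ring

/-- the difference of the values at `T + Q` and `-T + Q` -/
theorem key_diff (n : ℕ) : ps 1 (Dn n) - ps (-1) (Dn n) -
    Sg (-aφ) (Mq (1 + 2 * aT)) n ∈ II := by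
  have h1 := compat_ps (Or.inl rfl : (1 : ℂ) = 1 ∨ (1 : ℂ) = -1)
  have h2 := compat_ps (Or.inr rfl : (-1 : ℂ) = 1 ∨ (-1 : ℂ) = -1)
  refine (seq_eq (I := II) (fun z hz => da_II hz) (d := fun n => ps 1 (Dn n) - ps (-1) (Dn n))
    (S := Sg (-aφ) (Mq (1 + 2 * aT))) (-aφ) aG ?_ ?_ ?_ ?_ ?_ n).1
  · have : ps 1 (Dn 0) - ps (-1) (Dn 0) - Sg (-aφ) (Mq (1 + 2 * aT)) 0 = 0 := by
      rw [Sg_zero, Mq_zero, Dn_zero, ps_E, ps_E]
      unfold pE
      refine MvPolynomial.funext fun v => ?_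
      simp only [map_add, map_sub, map_mul, map_one, map_ofNat, eval_C, map_zero]
      ring
    show ps 1 (Dn 0) - ps (-1) (Dn 0) - Sg (-aφ) (Mq (1 + 2 * aT)) 0 ∈ II
    rw [this]
    exact II.zero_mem
  · have h := II.sub_mem (rec1 h1) (rec1 h2)
    convert h using 1
    rw [map_sub]
    ring
  · intro n
    have h := II.sub_mem (rec2 h1 n) (rec2 h2 n)
    rw [ps_G, ps_G] at h
    convert h using 1
    rw [map_sub]
    ring
  · rw [Sg_one, Sg_zero, Mq_one, Mq_zero]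
  · intro n
    exact Sg_rec da da_φ (by rw [Mq_one, Mq_zero]) (Mq_rec _) n

/-- the substitution of `T` -/
noncomputable def pT : U →ₐ[ℂ] A := aeval ![C (1 / 2), C (1 / 3) * (1 + aB), -aB, aG]

lemma pT_E : pT vE = C (1 / 2) := by unfold pT vE; rw [aeval_X]; rfl
lemma pT_X : pT vX = C (1 / 3) * (1 + aB) := by unfold pT vX; rw [aeval_X]; rfl
lemma pT_Y : pT vY = -aB := by unfold pT vY; rw [aeval_X]; rfl
lemma pT_G : pT vG = aG := by unfold pT vG; rw [aeval_X]; rfl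

lemma compat_pT (u : U) : da (pT u) - pT (dt u) - aφ * pT (wt u) ∈ (⊥ : Ideal A) := by
  refine compat pT ⊥ ?_ ?_ ?_ ?_ u
  · rw [wt_E, dt_E, pT_E, Ideal.mem_bot, A_C, map_neg, map_add, map_mul, pT_E, pT_X, pT_Y]
    refine MvPolynomial.funext fun v => ?_
    simp only [aφ, aG, aβ, aB, map_add, map_sub, map_mul, map_neg, map_pow, map_one, map_ofNat,
      eval_X, eval_C, map_zero]
    ring
  · have h : da (C (1 / 3) * (1 + aB)) = C (1 / 3) * (aB - 4 * aB ^ 2) := by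
      rw [A_mul, A_C, map_add, Derivation.map_one_eq_zero, da_B]
      ring
    rw [wt_X, dt_X, pT_X, Ideal.mem_bot, h, map_sub, map_add, map_mul, map_mul, map_mul, map_mul,
      map_mul, map_pow, map_ofNat, map_ofNat, pT_E, pT_X, pT_Y, pT_G]
    refine MvPolynomial.funext fun v => ?_
    simp only [aφ, aG, aβ, aB, map_add, map_sub, map_mul, map_neg, map_pow, map_one, map_ofNat,
      eval_X, eval_C, map_zero]
    ring
  · have h : pT vG = aG := pT_G
    rw [wt_Y, dt_Y, pT_Y, Ideal.mem_bot, map_neg, da_B]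
    simp only [map_add, map_sub, map_mul, map_pow, map_ofNat, pT_E, pT_X, pT_Y, pT_G]
    refine MvPolynomial.funext fun v => ?_
    simp only [aφ, aG, aβ, aB, map_add, map_sub, map_mul, map_neg, map_pow, map_one, map_ofNat,
      eval_X, eval_C, map_zero]
    ring
  · rw [wt_G, dt_G, pT_G, Ideal.mem_bot, der_G, da_B]
    unfold vK
    simp only [map_add, map_sub, map_mul, map_pow, map_ofNat, pT_E, pT_X, pT_Y, pT_G]
    refine MvPolynomial.funext fun v => ?_
    simp only [aφ, aG, aβ, aB, map_add, map_sub, map_mul, map_neg, map_pow, map_one, map_ofNat,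
      eval_X, eval_C, map_zero]
    ring

theorem key_T (n : ℕ) : pT (Dn n) = C (1 / 2) * Sg (-aφ) (Mq 1) n := by
  have h : pT (Dn n) - Sg (-aφ) (Mq (C (1 / 2) * 1)) n ∈ (⊥ : Ideal A) := by
    refine (seq_eq (I := ⊥) (fun z hz => ?_) (d := fun n => pT (Dn n))
      (S := Sg (-aφ) (Mq (C (1 / 2) * 1))) (-aφ) aG ?_ ?_ ?_ ?_ ?_ n).1
    · rw [Ideal.mem_bot.mp hz, map_zero]
      exact (⊥ : Ideal A).zero_mem
    · show pT (Dn 0) - Sg (-aφ) (Mq (C (1 / 2) * 1)) 0 ∈ (⊥ : Ideal A)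
      rw [Sg_zero, Mq_zero, Dn_zero, pT_E, mul_one, sub_self]
      exact (⊥ : Ideal A).zero_mem
    · have h := rec1 compat_pT
      convert h using 1
      ring
    · intro n
      have h := rec2 compat_pT n
      rw [pT_G] at h
      convert h using 1
      ring
    · rw [Sg_one, Sg_zero, Mq_one, Mq_zero]
    · intro n
      exact Sg_rec da da_φ (by rw [Mq_one, Mq_zero]) (Mq_rec _) n
  rw [Ideal.mem_bot, sub_eq_zero] at h
  rw [h]
  unfold Sg
  rw [mul_sum]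
  refine sum_congr rfl fun j _ => ?_
  rw [(Mq_Cmul (1 / 2) 1 (n - j)).1]
  ring

end Pool.Agent.Y690.NV
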