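import Pool.Agent.Y690.X.Pts
import Pool.Agent.TH936.CM.Alg

/-!
# The square lattice with `g₂ = -1` and its point of order four
-/

set_option autoImplicit false

open scoped PeriodPair

namespace Pool.Agent.Y690.NV

open H667R3 Pool.Agent.TH936.CW Pool.Agent.TH936.CM Pool.Agent.W192.HK

open Complex (I)

lemma eta_conj (c : ℂ) (hc : c ≠ 0) : ∀ l ∈ (sq c hc).lattice, eta (sq c hc) l =
    0 * l + (eta (sq c hc) c / (starRingEnd ℂ) c) * (starRingEnd ℂ) l := by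
  intro l hl
  obtain ⟨m, n, rfl⟩ := mem_sq.mp hl
  have h1 : c ∈ (sq c hc).lattice := mem_sq.mpr ⟨1, 0, by push_cast; ring⟩
  have h2 : I * c ∈ (sq c hc).lattice := CM_sq _ h1
  have h3 : ((m : ℂ) + n * I) * c = m * c + n * (I * c) := by ring
  have h4 : (m : ℂ) * c ∈ (sq c hc).lattice := by
    have := zsmul_mem h1 m
    rwa [zsmul_eq_mul] at this
  have h5 : (n : ℂ) * (I * c) ∈ (sq c hc).lattice := by
    have := zsmul_mem h2 n
    rwa [zsmul_eq_mul] at this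
  have h6 : (starRingEnd ℂ) c ≠ 0 := (map_ne_zero _).mpr hc
  rw [h3, eta_add _ h4 h5, eta_zsmul _ h1, eta_zsmul _ h2, eta_I_mul CM_sq h1]
  simp only [map_add, map_mul, Complex.conj_I, map_intCast]
  field_simp
  ring

variable {R : Subring ℂ}

lemma isLat_sq (hR : QR R I) (c : ℂ) (hc : c ≠ 0) : IsLat (sq c hc) R c := by
  refine ⟨hc, fun z => ?_⟩
  rw [mem_sq]
  constructor
  · rintro ⟨m, n, rfl⟩
    exact ⟨⟨m + n * I, (hR.mem _).mpr ⟨m, n, rfl⟩⟩, by push_cast; ring⟩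
  · rintro ⟨r, rfl⟩
    obtain ⟨x, y, h⟩ := (hR.mem r).mp r.2
    exact ⟨x, y, by rw [h]; ring⟩

lemma isLat_unit {L : PeriodPair} {Ω : ℂ} (h : IsLat L R Ω) (u w : R) (hu : u * w = 1) :
    IsLat L R (Ω * u) := by
  have hc : (u : ℂ) * w = 1 := by
    have := congrArg (Subtype.val) hu
    simpa using this
  refine ⟨mul_ne_zero h.ne (left_ne_zero_of_mul_eq_one hc), fun z => ?_⟩
  rw [h.mem]
  constructor
  · rintro ⟨r, rfl⟩
    exact ⟨w * r, by push_cast; linear_combination (-(Ω * r)) * hc⟩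
  · rintro ⟨r, rfl⟩
    exact ⟨u * r, by push_cast; ring⟩

theorem exists_base (hR : QR R I) : ∃ (L : PeriodPair) (Ω q : ℂ), IsLat L R Ω ∧ CM L ∧
    L.g₂ = -1 ∧ (∀ l ∈ L.lattice, eta L l = 0 * l + q * (starRingEnd ℂ) l) ∧
    TP L q 1 (Ω / (2 + 2 * I)) := by
  obtain ⟨c, hc, g2⟩ := exists_sq_g₂ (-1) (by norm_num)
  set L := sq c hc with hLdef
  have hCM : CM L := CM_sq
  have hI : IsLat L R c := isLat_sq hR c hc
  have hIR : I ∈ R := (hR.mem _).mpr ⟨0, 1, by push_cast; ring⟩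
  set J : R := ⟨I, hIR⟩ with hJ
  have hJJ : J * (-J) = 1 := by
    apply Subtype.ext
    push_cast
    rw [hJ]
    linear_combination (-1 : ℂ) * Complex.I_mul_I
  have h1I : (2 + 2 * I : ℂ) ≠ 0 := by
    intro h
    have := congrArg Complex.re h
    simp at this
  have h1I' : (1 + I : ℂ) ≠ 0 := by
    intro h
    have := congrArg Complex.re h
    simp at this
  -- general facts
  have gen : ∀ Ω : ℂ, IsLat L R Ω → 2 * (Ω / (2 + 2 * I)) ∉ L.lattice ∧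
      4 * (Ω / (2 + 2 * I)) ∈ L.lattice ∧ ℘[L] (2 * (Ω / (2 + 2 * I))) = 0 := by
    intro Ω hΩ
    have e2 : 2 * (Ω / (2 + 2 * I)) = Ω * ((1 - I) / 2) := by
      rw [mul_div_assoc', div_eq_iff h1I]
      linear_combination Ω * Complex.I_sq
    have e4 : 4 * (Ω / (2 + 2 * I)) = Ω * ((1 - J : R) : ℂ) := by
      push_cast
      rw [hJ, mul_div_assoc', div_eq_iff h1I]
      linear_combination (2 * Ω) * Complex.I_sq
    have h2 : 2 * (Ω / (2 + 2 * I)) ∉ L.lattice := by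
      rw [e2, hΩ.mem]
      rintro ⟨r, hr⟩
      have h3 : (1 - I) / 2 = (r : ℂ) := mul_left_cancel₀ hΩ.ne hr
      obtain ⟨x, y, hxy⟩ := (hR.mem r).mp r.2
      rw [hxy] at h3
      have h5 := congrArg Complex.re h3
      simp at h5
      have h6 : (2 : ℤ) * x = 1 := by
        have : (2 : ℝ) * x = 1 := by linarith
        exact_mod_cast this
      omega
    refine ⟨h2, by rw [e4]; exact hΩ.mem_mul _, ?_⟩
    have h3 : I * (2 * (Ω / (2 + 2 * I))) - 2 * (Ω / (2 + 2 * I)) ∈ L.lattice := by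
      have : I * (2 * (Ω / (2 + 2 * I))) - 2 * (Ω / (2 + 2 * I)) = Ω * (J : ℂ) := by
        rw [e2, hJ]
        linear_combination (-Ω / 2) * Complex.I_sq
      rw [this]
      exact hΩ.mem_mul _
    have h4 := Pool.Agent.W245.EB.wp_add_lattice L (u := 2 * (Ω / (2 + 2 * I))) h3
    rw [add_sub_cancel, wp_I_mul hCM] at h4
    linear_combination (-1 / 2) * h4
  -- the choice of the first sign
  obtain ⟨Ω₁, hΩ₁, hx₁⟩ : ∃ Ω₁ : ℂ, IsLat L R Ω₁ ∧ ℘[L] (Ω₁ / (2 + 2 * I)) = 1 / 2 := by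
    obtain ⟨a1, a2, a3⟩ := gen c hI
    have h1 := dup hCM g2 a1
    have h2 : Xi L (2 * (c / (2 + 2 * I))) = 0 := by unfold Xi; rw [a3, mul_zero]
    rw [h2, zero_mul] at h1
    have h3 : Xi L (c / (2 + 2 * I)) ^ 2 - 1 = 0 := pow_eq_zero_iff two_ne_zero |>.mp h1.symm
    have h4 : (Xi L (c / (2 + 2 * I)) - 1) * (Xi L (c / (2 + 2 * I)) + 1) = 0 := by
      linear_combination h3
    unfold Xi at h4
    rcases mul_eq_zero.mp h4 with h | h
    · exact ⟨c, hI, by linear_combination (1 / 2) * h⟩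
    · refine ⟨c * J, isLat_unit hI J (-J) hJJ, ?_⟩
      have : c * (J : ℂ) / (2 + 2 * I) = I * (c / (2 + 2 * I)) := by rw [hJ]; ring
      rw [this, wp_I_mul hCM]
      linear_combination (-1 / 2) * h
  obtain ⟨Ω, hΩ, hx, hy⟩ : ∃ Ω : ℂ, IsLat L R Ω ∧ ℘[L] (Ω / (2 + 2 * I)) = 1 / 2 ∧
      ℘'[L] (Ω / (2 + 2 * I)) = -1 := by
    obtain ⟨a1, a2, a3⟩ := gen Ω₁ hΩ₁
    have h1 := curve hCM g2 (two_mul_notMem_of L a1)
    unfold Xi at h1
    rw [hx₁] at h1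
    have h4 : (℘'[L] (Ω₁ / (2 + 2 * I)) + 1) * (℘'[L] (Ω₁ / (2 + 2 * I)) - 1) = 0 := by
      linear_combination (1 / 2) * h1
    rcases mul_eq_zero.mp h4 with h | h
    · exact ⟨Ω₁, hΩ₁, hx₁, by linear_combination h⟩
    · refine ⟨Ω₁ * ((-1 : R) : ℂ), isLat_unit hΩ₁ (-1) (-1) (by ring), ?_, ?_⟩
      · have : Ω₁ * ((-1 : R) : ℂ) / (2 + 2 * I) = -(Ω₁ / (2 + 2 * I)) := by push_cast; ring
        rw [this, L.weierstrassP_neg, hx₁]
      · have : Ω₁ * ((-1 : R) : ℂ) / (2 + 2 * I) = -(Ω₁ / (2 + 2 * I)) := by push_cast; ring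
        rw [this, L.derivWeierstrassP_neg]
        linear_combination -h
  have hq := eta_conj c hc
  refine ⟨L, Ω, _, hΩ, hCM, g2, hq, ?_⟩
  obtain ⟨a1, a2, a3⟩ := gen Ω hΩ
  refine ⟨a1, a2, hx, by rw [hy], ?_⟩
  have h1 := E1_dup (q := eta (sq c hc) c / (starRingEnd ℂ) c) a1
  have h2 : E1 L 0 (eta (sq c hc) c / (starRingEnd ℂ) c) (-(2 * (Ω / (2 + 2 * I)))) =
      E1 L 0 (eta (sq c hc) c / (starRingEnd ℂ) c) (2 * (Ω / (2 + 2 * I))) := by
    refine E1_per' hq a1 ?_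
    have := neg_mem a2
    convert this using 1
    ring
  rw [E1_neg] at h2
  rw [hx, hy, g2] at h1
  linear_combination (-1 / 2) * h1 - (1 / 4) * h2

end Pool.Agent.Y690.NV
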