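import Pool.Agent.Y690.X.PS

/-!
# The formal expansion of the Weierstrass function
-/

set_option autoImplicit false

namespace Pool.Agent.Y690.NV

open PowerSeries

variable {S : Type*} [CommRing S] [Algebra ℂ S]

/-- the coefficients of `w ^ 2 * ℘(w)`, where `γ = g₂ / 12`, `κ = g₃ / 4` -/
noncomputable def cc (γ κ : S) (n : ℕ) : S :=
  if n = 0 then 1 else if n = 4 then (3 / 5 : ℂ) • γ else if n = 6 then (1 / 7 : ℂ) • κ else
  if n < 7 then 0 else (6 / (((n : ℂ) - 6) * (n + 1))) • ∑ j : Fin n,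
    if h : j.1 = 0 then 0 else cc γ κ j.1 * cc γ κ (n - j.1)
termination_by n
decreasing_by
  · exact j.2
  · have := j.2
    omega

variable (γ κ : S)

lemma cc_zero : cc γ κ 0 = 1 := by
  rw [cc]; simp

lemma cc_one : cc γ κ 1 = 0 := by
  rw [cc]; simp

lemma cc_two : cc γ κ 2 = 0 := by
  rw [cc]; simp

lemma cc_three : cc γ κ 3 = 0 := by
  rw [cc]; simp

lemma cc_four : cc γ κ 4 = (3 / 5 : ℂ) • γ := by
  rw [cc]; simp

lemma cc_five : cc γ κ 5 = 0 := by
  rw [cc]; simp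

lemma cc_six : cc γ κ 6 = (1 / 7 : ℂ) • κ := by
  rw [cc]; simp

lemma cc_big {n : ℕ} (hn : 7 ≤ n) : cc γ κ n = (6 / (((n : ℂ) - 6) * (n + 1))) •
    ∑ j ∈ Finset.range n, (if j = 0 then 0 else cc γ κ j * cc γ κ (n - j)) := by
  rw [cc, if_neg (by omega), if_neg (by omega), if_neg (by omega), if_neg (by omega),
    Finset.sum_range]
  congr 1

lemma cc_conv {n : ℕ} (hn : 7 ≤ n) :
    ∑ p ∈ Finset.HasAntidiagonal.antidiagonal n, cc γ κ p.1 * cc γ κ p.2 = 2 * cc γ κ n +
      ∑ j ∈ Finset.range n, (if j = 0 then 0 else cc γ κ j * cc γ κ (n - j)) := by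
  rw [Finset.Nat.sum_antidiagonal_eq_sum_range_succ (fun i j => cc γ κ i * cc γ κ j),
    Finset.sum_range_succ, Nat.sub_self, cc_zero, mul_one]
  obtain ⟨m, rfl⟩ : ∃ m, n = m + 1 := ⟨n - 1, by omega⟩
  rw [Finset.sum_range_succ', Finset.sum_range_succ']
  simp only [Nat.succ_ne_zero, if_false, Nat.sub_zero, cc_zero, one_mul, if_true, add_zero,
    Nat.add_eq_zero_iff, one_ne_zero, and_false]
  ring

lemma cc_rec (n : ℕ) : ((((n : ℂ) - 3) * (n - 2)) / 2) • cc γ κ n =
    3 * ∑ p ∈ Finset.HasAntidiagonal.antidiagonal n, cc γ κ p.1 * cc γ κ p.2 - (if n = 4 then 3 * γ else 0) := by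
  rcases Nat.lt_or_ge n 7 with hn | hn
  · interval_cases n
    · simp [cc_zero]
      norm_num [Algebra.smul_def]
      exact map_ofNat _ 3
    · simp [cc_zero, cc_one, Finset.Nat.antidiagonal_succ]
    · simp [cc_zero, cc_one, cc_two, Finset.Nat.antidiagonal_succ]
    · simp [cc_zero, cc_one, cc_two, cc_three, Finset.Nat.antidiagonal_succ]
    · simp [cc_zero, cc_one, cc_two, cc_three, cc_four, Finset.Nat.antidiagonal_succ]
      norm_num [Algebra.smul_def]
      have h : (algebraMap ℂ S) (3 / 5) * 5 = 3 := by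
        rw [← map_ofNat (algebraMap ℂ S) 5, ← map_mul, ← map_ofNat (algebraMap ℂ S) 3]
        norm_num
      linear_combination (-γ) * h
    · simp [cc_zero, cc_one, cc_two, cc_three, cc_four, cc_five, Finset.Nat.antidiagonal_succ]
    · simp [cc_zero, cc_one, cc_two, cc_three, cc_four, cc_five, cc_six,
        Finset.Nat.antidiagonal_succ]
      norm_num [Algebra.smul_def]
      rw [map_ofNat (algebraMap ℂ S) 6]
      ring
  · rw [cc_conv γ κ hn, if_neg (by omega), sub_zero]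
    set s := ∑ j ∈ Finset.range n, (if j = 0 then 0 else cc γ κ j * cc γ κ (n - j)) with hs
    have h1 := cc_big γ κ hn
    rw [← hs] at h1
    have hn6 : ((n : ℂ) - 6) ≠ 0 := by
      have : (n : ℂ) ≠ 6 := by
        intro h
        have h2 : n = 6 := by exact_mod_cast h
        omega
      exact sub_ne_zero.2 this
    have hn1 : ((n : ℂ) + 1) ≠ 0 := by exact_mod_cast n.succ_ne_zero
    have h2 : ((((n : ℂ) - 6) * (n + 1)) / 2) • cc γ κ n = 3 * s := by
      rw [h1, smul_smul]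
      have : ((n : ℂ) - 6) * (n + 1) / 2 * (6 / (((n : ℂ) - 6) * (n + 1))) = 3 := by
        field_simp
        norm_num
      rw [this, Algebra.smul_def, map_ofNat]
    have h3 : (((n : ℂ) - 3) * (n - 2)) / 2 = (((n : ℂ) - 6) * (n + 1)) / 2 + 6 := by ring
    rw [h3, add_smul, h2, Algebra.smul_def, map_ofNat]
    ring

lemma cc_map {S' : Type*} [CommRing S'] [Algebra ℂ S'] (f : S →ₐ[ℂ] S') (n : ℕ) :
    f (cc γ κ n) = cc (f γ) (f κ) n := by
  induction n using Nat.strong_induction_on with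
  | _ n ih =>
    rcases Nat.lt_or_ge n 7 with hn | hn
    · interval_cases n
      · rw [cc_zero, cc_zero, map_one]
      · rw [cc_one, cc_one, map_zero]
      · rw [cc_two, cc_two, map_zero]
      · rw [cc_three, cc_three, map_zero]
      · rw [cc_four, cc_four, map_smul]
      · rw [cc_five, cc_five, map_zero]
      · rw [cc_six, cc_six, map_smul]
    · rw [cc_big γ κ hn, cc_big (f γ) (f κ) hn, map_smul, map_sum]
      congr 1
      refine Finset.sum_congr rfl fun j hj => ?_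
      have hj' := Finset.mem_range.1 hj
      split_ifs with h
      · exact map_zero f
      · rw [map_mul, ih j hj', ih (n - j) (by omega)]

/-- `w ^ 2 ℘(w)` -/
noncomputable def sP : S⟦X⟧ := PowerSeries.mk fun n => cc γ κ n

/-- `w ^ 3 ℘'(w) / 2` -/
noncomputable def sQ : S⟦X⟧ := PowerSeries.mk fun n => (((n : ℂ) - 2) / 2) • cc γ κ n

/-- `w ζ(w)` -/
noncomputable def sZ : S⟦X⟧ := PowerSeries.mk fun n => (-(1 / ((n : ℂ) - 1))) • cc γ κ n

lemma coeff_sP (n : ℕ) : coeff n (sP γ κ) = cc γ κ n := coeff_mk _ _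
lemma coeff_sQ (n : ℕ) : coeff n (sQ γ κ) = (((n : ℂ) - 2) / 2) • cc γ κ n := coeff_mk _ _
lemma coeff_sZ (n : ℕ) : coeff n (sZ γ κ) = (-(1 / ((n : ℂ) - 1))) • cc γ κ n := coeff_mk _ _

lemma th_sP : th (sP γ κ) = 2 * sP γ κ + 2 * sQ γ κ := by
  ext n
  have h2 : (2 : S⟦X⟧) = C 2 := (map_ofNat C 2).symm
  rw [coeff_th, map_add, h2, coeff_C_mul, coeff_C_mul, coeff_sP, coeff_sQ, Algebra.smul_def]
  have h3 : (2 : S) * algebraMap ℂ S (((n : ℂ) - 2) / 2) = n - 2 := by
    rw [← map_ofNat (algebraMap ℂ S) 2, ← map_mul, ← map_natCast (algebraMap ℂ S) n, ← map_sub]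
    congr 1
    ring
  linear_combination (-cc γ κ n) * h3

lemma th_sQ : th (sQ γ κ) = 3 * sQ γ κ + 3 * sP γ κ ^ 2 - C (3 * γ) * X ^ 4 := by
  ext n
  have h3 : (3 : S⟦X⟧) = C 3 := (map_ofNat C 3).symm
  rw [coeff_th, map_sub, map_add, h3, coeff_C_mul, coeff_C_mul, coeff_sQ, sq, coeff_mul,
    coeff_C_mul, coeff_X_pow]
  simp only [coeff_sP]
  have h4 := cc_rec γ κ n
  rw [Algebra.smul_def] at h4 ⊢
  have h5 : algebraMap ℂ S (((n : ℂ) - 3) * (n - 2) / 2) =
      (n - 3) * algebraMap ℂ S (((n : ℂ) - 2) / 2) := by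
    rw [mul_div_assoc, map_mul, map_sub, map_natCast, map_ofNat]
  rw [h5] at h4
  have h6 : 3 * γ * (if n = 4 then 1 else 0) = if n = 4 then 3 * γ else 0 := by
    split_ifs <;> simp
  rw [h6]
  linear_combination h4

lemma th_sZ : th (sZ γ κ) = sZ γ κ - sP γ κ := by
  ext n
  rw [coeff_th, map_sub, coeff_sP, coeff_sZ]
  by_cases hn : n = 1
  · subst hn
    rw [cc_one]
    simp
  · have h1 : ((n : ℂ) - 1) ≠ 0 := by
      have : (n : ℂ) ≠ 1 := by exact_mod_cast hn
      exact sub_ne_zero.2 this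
    have h2 : ((n : S) - 1) * algebraMap ℂ S (-(1 / ((n : ℂ) - 1))) = -1 := by
      have h3 : (n : S) - 1 = algebraMap ℂ S ((n : ℂ) - 1) := by
        rw [map_sub, map_natCast, map_one]
      rw [h3, ← map_mul]
      have : ((n : ℂ) - 1) * -(1 / ((n : ℂ) - 1)) = -1 := by
        field_simp
      rw [this, map_neg, map_one]
    rw [Algebra.smul_def]
    linear_combination (cc γ κ n) * h2

lemma co_sP2 : coeff 6 (sP γ κ ^ 2) = 2 * cc γ κ 6 := by
  rw [sq, coeff_mul]
  simp only [coeff_sP]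
  simp [cc_zero, cc_one, cc_two, cc_three, cc_five, Finset.Nat.antidiagonal_succ]
  ring

lemma co_sP3 : coeff 6 (sP γ κ ^ 3) = 3 * cc γ κ 6 := by
  rw [pow_succ, coeff_mul]
  simp only [coeff_sP]
  simp [cc_zero, cc_one, cc_two, cc_three, cc_five, Finset.Nat.antidiagonal_succ, sq, coeff_mul,
    coeff_sP]
  ring

lemma co_sQ2 : coeff 6 (sQ γ κ ^ 2) = -4 * cc γ κ 6 := by
  rw [sq, coeff_mul]
  simp only [coeff_sQ]
  simp [cc_zero, cc_one, cc_two, cc_three, cc_five, Finset.Nat.antidiagonal_succ]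
  norm_num [Algebra.smul_def]
  rw [map_ofNat (algebraMap ℂ S) 2]
  ring

/-- the first integral -/
theorem sQ_sq : sQ γ κ ^ 2 = sP γ κ ^ 3 - C (3 * γ) * X ^ 4 * sP γ κ - C κ * X ^ 6 := by
  have key : sQ γ κ ^ 2 - sP γ κ ^ 3 + C (3 * γ) * X ^ 4 * sP γ κ + C κ * X ^ 6 = 0 := by
    refine uniq (0 : Derivation ℂ S S) 1 6 0 _ 1 6 (by simp) ?_ 6 ?_ ?_ ?_
    · rw [← map_ofNat (C : S →+* S⟦X⟧) 6, coeff_C, if_pos rfl, map_ofNat]
    · intro n hn h
      apply hn
      have : (n : ℂ) = 6 := by linear_combination h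
      exact_mod_cast this
    · have e1 : coeff 6 (C (3 * γ) * X ^ 4 * sP γ κ) = 0 := by
        rw [mul_assoc, coeff_C_mul, coeff_X_pow_mul']
        simp [coeff_sP, cc_two]
      have e2 : coeff 6 (C κ * X ^ 6 : S⟦X⟧) = κ := by
        rw [coeff_C_mul, coeff_X_pow]
        simp
      have e3 : 7 * cc γ κ 6 = κ := by
        rw [cc_six, Algebra.smul_def, ← mul_assoc, ← map_ofNat (algebraMap ℂ S) 7, ← map_mul]
        norm_num
      rw [map_add, map_add, map_sub, co_sP3, co_sQ2, e1, e2]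
      linear_combination -e3
    · rw [zero_mul, mul_zero, add_zero, one_mul, th_add, th_add, th_sub, th_pow, th_pow, th_mul,
        th_mul, th_mul, th_C, th_C, th_pow, th_pow, th_X, th_sP, th_sQ]
      push_cast
      ring
  linear_combination key

end Pool.Agent.Y690.NV
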