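import Pool.Agent.W192.HK.Parts

/-!
# The ring of Gaussian integers as a subring of `ℂ`
-/

set_option autoImplicit false

namespace Pool.Agent.Y690.NV

open Pool.Agent.W192.HK

open Complex (I)

variable {R : Subring ℂ} (hR : ∀ z : ℂ, z ∈ R ↔ ∃ x y : ℤ, z = x + y * I)

/-- the map from the Gaussian integers -/
noncomputable def gmap : GaussianInt →+* R :=
  GaussianInt.toComplex.codRestrict R fun z => (hR _).mpr ⟨z.re, z.im, by
    rw [GaussianInt.toComplex_def]⟩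

lemma gmap_surj : Function.Surjective (gmap hR) := by
  intro r
  obtain ⟨x, y, h⟩ := (hR r).mp r.2
  refine ⟨⟨x, y⟩, Subtype.ext ?_⟩
  show GaussianInt.toComplex ⟨x, y⟩ = r
  rw [GaussianInt.toComplex_def, h]

include hR in
lemma pid : IsPrincipalIdealRing R := IsPrincipalIdealRing.of_surjective (gmap hR) (gmap_surj hR)

include hR in
lemma qr : QR R I := by
  have := pid hR
  exact ⟨by simp, hR, inferInstance⟩

include hR in
lemma I_mem : I ∈ R := (hR _).mpr ⟨0, 1, by push_cast; ring⟩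

/-- the imaginary unit -/
def ii (hR : ∀ z : ℂ, z ∈ R ↔ ∃ x y : ℤ, z = x + y * I) : R := ⟨I, I_mem hR⟩

lemma ii_coe : ((ii hR : R) : ℂ) = I := rfl

lemma ii_sq : ii hR * ii hR = -1 := by
  apply Subtype.ext
  push_cast
  rw [ii_coe]
  exact Complex.I_mul_I

/-- the modulus `2 + 2 i` -/
def ff (hR : ∀ z : ℂ, z ∈ R ↔ ∃ x y : ℤ, z = x + y * I) : R := 2 + 2 * ii hR

lemma ff_coe : ((ff hR : R) : ℂ) = 2 + 2 * I := by
  have h : ((2 : R) : ℂ) = 2 := rfl
  unfold ff
  push_cast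
  rw [ii_coe, h]

/-- the element `x + y i` -/
def mkz (hR : ∀ z : ℂ, z ∈ R ↔ ∃ x y : ℤ, z = x + y * I) (x y : ℤ) : R := x + y * ii hR

lemma mkz_coe (x y : ℤ) : ((mkz hR x y : R) : ℂ) = x + y * I := by
  unfold mkz
  push_cast
  rw [ii_coe]

lemma mkz_inj {a b c d : ℤ} (h : (a : ℂ) + b * I = c + d * I) : a = c ∧ b = d := by
  have h1 := congrArg Complex.re h
  have h2 := congrArg Complex.im h
  simp at h1 h2
  exact ⟨by exact_mod_cast h1, by exact_mod_cast h2⟩

include hR in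
lemma exists_xy (r : R) : ∃ x y : ℤ, r = mkz hR x y := by
  obtain ⟨x, y, h⟩ := (hR r).mp r.2
  exact ⟨x, y, Subtype.ext (by rw [mkz_coe, h])⟩

/-- membership in the ideal of `2 + 2 i` -/
lemma mem_ff (x y : ℤ) : mkz hR x y ∈ sp (ff hR) ↔ 2 ∣ x ∧ 2 ∣ y ∧ 4 ∣ x + y := by
  rw [Ideal.mem_span_singleton']
  constructor
  · rintro ⟨a, ha⟩
    obtain ⟨c, d, rfl⟩ := exists_xy hR a
    have h1 := congrArg Subtype.val ha
    push_cast at h1
    rw [mkz_coe, mkz_coe, ff_coe] at h1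
    have h2 : ((2 * (c - d) : ℤ) : ℂ) + ((2 * (c + d) : ℤ) : ℂ) * I = x + y * I := by
      push_cast
      linear_combination h1 - 2 * (d : ℂ) * Complex.I_sq
    obtain ⟨h3, h4⟩ := mkz_inj h2
    omega
  · rintro ⟨⟨a, ha⟩, ⟨b, hb⟩, ⟨c, hc⟩⟩
    refine ⟨mkz hR c (b - c), Subtype.ext ?_⟩
    push_cast
    rw [mkz_coe, mkz_coe, ff_coe]
    have h1 : a = 2 * c - b := by omega
    have h2 : (a : ℂ) = 2 * c - b := by rw [h1]; push_cast; ring
    have h3 : (x : ℂ) = 2 * a := by rw [ha]; push_cast; ring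
    have h4 : (y : ℂ) = 2 * b := by rw [hb]; push_cast; ring
    rw [h3, h4, h2]
    push_cast
    linear_combination (2 * ((b : ℂ) - c)) * Complex.I_sq

lemma mkz_sub (a b c d : ℤ) : mkz hR a b - mkz hR c d = mkz hR (a - c) (b - d) := by
  unfold mkz; push_cast; ring

lemma mkz_one : (1 : R) = mkz hR 1 0 := by unfold mkz; push_cast; ring

lemma ii_mul (a b : ℤ) : ii hR * mkz hR a b = mkz hR (-b) a := by
  unfold mkz
  push_cast
  linear_combination (b : R) * ii_sq hR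

/-- an odd element is congruent to one up to a power of `i` -/
lemma odd_unit (x y : ℤ) (h : ¬ 2 ∣ x + y) : ∃ j : ℕ, j < 4 ∧
    ii hR ^ j * mkz hR x y - 1 ∈ sp (ff hR) := by
  have e1 : ii hR ^ 1 * mkz hR x y = mkz hR (-y) x := by rw [pow_one, ii_mul]
  have e2 : ii hR ^ 2 * mkz hR x y = mkz hR (-x) (-y) := by
    rw [pow_two, mul_assoc, ii_mul, ii_mul]
  have e3 : ii hR ^ 3 * mkz hR x y = mkz hR y (-x) := by
    rw [pow_succ, mul_assoc, ii_mul, pow_two, mul_assoc, ii_mul, ii_mul, neg_neg]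
  rcases Int.emod_two_eq_zero_or_one y with hy | hy
  · rcases (show (x + y) % 4 = 1 ∨ (x + y) % 4 = 3 by omega) with h1 | h1
    · refine ⟨0, by norm_num, ?_⟩
      rw [pow_zero, one_mul, mkz_one hR, mkz_sub, mem_ff]
      omega
    · refine ⟨2, by norm_num, ?_⟩
      rw [e2, mkz_one hR, mkz_sub, mem_ff]
      omega
  · rcases (show (y - x) % 4 = 1 ∨ (y - x) % 4 = 3 by omega) with h1 | h1
    · refine ⟨3, by norm_num, ?_⟩
      rw [e3, mkz_one hR, mkz_sub, mem_ff]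
      omega
    · refine ⟨1, by norm_num, ?_⟩
      rw [e1, mkz_one hR, mkz_sub, mem_ff]
      omega

/-- an even element is divisible by `1 + i` -/
lemma even_div (x y : ℤ) (h : 2 ∣ x + y) : ∃ r : R, mkz hR x y = (1 + ii hR) * r := by
  obtain ⟨c, hc⟩ := h
  refine ⟨mkz hR c (y - c), ?_⟩
  have h1 : x = 2 * c - y := by omega
  unfold mkz
  rw [h1]
  push_cast
  linear_combination (-((y : R) - c)) * ii_sq hR

/-- the units are the powers of `i` -/
lemma unit_pow (u w : R) (h : u * w = 1) : ∃ j : ℕ, j < 4 ∧ ii hR ^ j * u = 1 := by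
  obtain ⟨x, y, rfl⟩ := exists_xy hR u
  obtain ⟨c, d, rfl⟩ := exists_xy hR w
  have h1 : Complex.normSq ((mkz hR x y * mkz hR c d : R) : ℂ) = Complex.normSq ((1 : R) : ℂ) := by
    rw [h]
  push_cast at h1
  rw [Complex.normSq_mul, mkz_coe, mkz_coe, Complex.normSq_one] at h1
  have e : ∀ a b : ℤ, Complex.normSq ((a : ℂ) + b * I) = ((a ^ 2 + b ^ 2 : ℤ) : ℝ) := by
    intro a b
    rw [Complex.normSq_apply]
    simp
    ring
  rw [e, e] at h1
  have h2 : (x ^ 2 + y ^ 2) * (c ^ 2 + d ^ 2) = 1 := by exact_mod_cast h1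
  have h3 : x ^ 2 + y ^ 2 = 1 := by
    have h4 := Int.eq_one_or_neg_one_of_mul_eq_one h2
    have : 0 ≤ x ^ 2 + y ^ 2 := by positivity
    omega
  have hx : -1 ≤ x ∧ x ≤ 1 := by constructor <;> nlinarith [sq_nonneg y]
  have hy : -1 ≤ y ∧ y ≤ 1 := by constructor <;> nlinarith [sq_nonneg x]
  have e1 : ∀ x y : ℤ, ii hR ^ 1 * mkz hR x y = mkz hR (-y) x := fun x y => by rw [pow_one, ii_mul]
  have e2 : ∀ x y : ℤ, ii hR ^ 2 * mkz hR x y = mkz hR (-x) (-y) := fun x y => by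
    rw [pow_two, mul_assoc, ii_mul, ii_mul]
  have e3 : ∀ x y : ℤ, ii hR ^ 3 * mkz hR x y = mkz hR y (-x) := fun x y => by
    rw [pow_succ, mul_assoc, ii_mul, pow_two, mul_assoc, ii_mul, ii_mul, neg_neg]
  obtain ⟨hx1, hx2⟩ := hx
  obtain ⟨hy1, hy2⟩ := hy
  interval_cases x <;> interval_cases y <;> simp at h3
  · exact ⟨2, by norm_num, by rw [e2, mkz_one hR]; norm_num⟩
  · exact ⟨1, by norm_num, by rw [e1, mkz_one hR]; norm_num⟩
  · exact ⟨3, by norm_num, by rw [e3, mkz_one hR]; norm_num⟩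
  · exact ⟨0, by norm_num, by rw [pow_zero, one_mul, mkz_one hR]⟩

/-- a power of `i` congruent to one is one -/
lemma ii_pow_eq {j : ℕ} (hj : j < 4) (h : ii hR ^ j - 1 ∈ sp (ff hR)) : j = 0 := by
  interval_cases j
  · rfl
  · exfalso
    have e : ii hR ^ 1 - 1 = mkz hR (-1) 1 := by unfold mkz; push_cast; ring
    rw [e, mem_ff] at h
    omega
  · exfalso
    have e : ii hR ^ 2 - 1 = mkz hR (-2) 0 := by
      unfold mkz; push_cast; linear_combination ii_sq hR
    rw [e, mem_ff] at h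
    omega
  · exfalso
    have e : ii hR ^ 3 - 1 = mkz hR (-1) (-1) := by
      unfold mkz; push_cast; linear_combination (ii hR) * ii_sq hR
    rw [e, mem_ff] at h
    omega

end Pool.Agent.Y690.NV
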