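import Pool.Agent.Y690.X.Est
import Pool.Agent.Y690.X.Gi
import Mathlib.RingTheory.Valuation.LocalSubring

/-!
# The valuation, sums over pairs, powers of Gaussian primes
-/

set_option autoImplicit false
set_option linter.unusedSectionVars false

namespace Pool.Agent.Y690.NV

open Pool.Agent.W192.HK Finset

open Complex (I)

theorem exists_V : ∃ V : ValuationSubring ℂ, V.valuation 2 < 1 := by
  set A0 : Subring ℂ := (Int.castRingHom ℂ).range with hA0
  have h2 : (2 : ℂ) ∈ A0 := ⟨2, by simp⟩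
  set J : Ideal A0 := Ideal.span {⟨2, h2⟩} with hJ
  have hne : J ≠ ⊤ := by
    intro h
    rw [Ideal.eq_top_iff_one, hJ, Ideal.mem_span_singleton'] at h
    obtain ⟨⟨a, ⟨n, hn⟩⟩, ha⟩ := h
    have h3 := congrArg Subtype.val ha
    have h4 : a * 2 = 1 := h3
    rw [← hn] at h4
    have h5 : n * 2 = 1 := by
      have : ((n * 2 : ℤ) : ℂ) = ((1 : ℤ) : ℂ) := by
        push_cast
        simpa using h4
      exact_mod_cast this
    omega
  obtain ⟨V, -, hV⟩ := Ideal.image_subset_nonunits_valuationSubring J hne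
  refine ⟨V, ?_⟩
  rw [← ValuationSubring.mem_nonunits_iff]
  exact hV ⟨⟨2, h2⟩, Ideal.mem_span_singleton_self _, rfl⟩

theorem exists_rho {Γ : Type*} [LinearOrderedCommGroupWithZero Γ] {v : Valuation ℂ Γ}
    (h2 : v 2 < 1) : ∃ ρ : ℂ, ρ ^ 4 = 2 ∧ v ρ < 1 := by
  obtain ⟨ρ, hρ⟩ := IsAlgClosed.exists_pow_nat_eq (2 : ℂ) (n := 4) (by norm_num)
  refine ⟨ρ, hρ, ?_⟩
  by_contra h
  push Not at h
  rw [← hρ, map_pow] at h2
  exact lt_irrefl _ (h2.trans_le (one_le_pow_of_one_le' h 4))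

/-- sums over pairs -/
theorem sum_pairs {F : Type*} [AddGroup F] [Fintype F] (h : F → ℂ)
    (hneg : ∀ w, h (-w) = h w) (h0 : ∀ w, -w = w → h w = 0) {Γ : Type*}
    [LinearOrderedCommGroupWithZero Γ] {v : Valuation ℂ Γ} {g : Γ} (hg : ∀ w, v (h w) ≤ g) :
    v (∑ w, h w) ≤ v 2 * g := by
  classical
  set o := Fintype.equivFin F
  have e1 : ∑ w, h w = ∑ w ∈ univ.filter (fun w => o w < o (-w)), h w +
      ∑ w ∈ univ.filter (fun w => o (-w) < o w), h w := by
    rw [← sum_filter_add_sum_filter_not univ (fun w => o w < o (-w)) h]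
    congr 1
    rw [← sum_filter_add_sum_filter_not (univ.filter (fun w => ¬ o w < o (-w)))
      (fun w => o (-w) < o w) h, filter_filter, filter_filter]
    have e2 : ∑ w ∈ univ.filter (fun w => ¬ o w < o (-w) ∧ ¬ o (-w) < o w), h w = 0 := by
      refine sum_eq_zero fun w hw => ?_
      rw [mem_filter] at hw
      refine h0 w (o.injective ?_)
      exact le_antisymm (not_lt.mp hw.2.1) (not_lt.mp hw.2.2)
    rw [e2, add_zero]
    refine sum_congr ?_ fun _ _ => rfl
    ext w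
    simp only [mem_filter, mem_univ, true_and]
    constructor
    · exact fun h => h.2
    · exact fun h => ⟨not_lt.mpr h.le, h⟩
  have e3 : ∑ w ∈ univ.filter (fun w => o (-w) < o w), h w =
      ∑ w ∈ univ.filter (fun w => o w < o (-w)), h w := by
    refine sum_nbij' (fun w => -w) (fun w => -w) ?_ ?_ ?_ ?_ ?_
    · intro w hw
      rw [mem_filter] at hw ⊢
      rw [neg_neg]
      exact ⟨mem_univ _, hw.2⟩
    · intro w hw
      rw [mem_filter] at hw ⊢
      rw [neg_neg]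
      exact ⟨mem_univ _, hw.2⟩
    · intro w _; exact neg_neg w
    · intro w _; exact neg_neg w
    · intro w _; exact (hneg w).symm
  rw [e1, e3, ← two_mul, map_mul]
  exact mul_le_mul_right (v.map_sum_le fun w _ => hg w) _

section gauss

variable {Γ : Type*} [LinearOrderedCommGroupWithZero Γ] {v : Valuation ℂ Γ}

lemma v_I : v I = 1 := by
  have h : v I ^ 4 = 1 ^ 4 := by rw [← map_pow, Complex.I_pow_four, map_one, one_pow]
  exact (pow_left_inj₀ zero_le zero_le (by norm_num)).mp h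

lemma v_gauss (a b : ℤ) : v ((a : ℂ) + b * I) ≤ 1 := by
  refine (v.map_add _ _).trans (max_le (v_int v a) ?_)
  rw [map_mul, v_I, mul_one]
  exact v_int v b

lemma v_gauss_odd (h2 : v 2 < 1) {a b : ℤ} (h : ¬ 2 ∣ a + b) : v ((a : ℂ) + b * I) = 1 := by
  refine le_antisymm (v_gauss a b) ?_
  by_contra hcon
  push Not at hcon
  have e : ((a : ℂ) + b * I) * ((a : ℂ) + (-b : ℤ) * I) = ((a.natAbs ^ 2 + b.natAbs ^ 2 : ℕ) : ℂ) := by
    have h1 : ((a.natAbs ^ 2 + b.natAbs ^ 2 : ℕ) : ℂ) = ((a ^ 2 + b ^ 2 : ℤ) : ℂ) := by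
      have : ((a.natAbs ^ 2 + b.natAbs ^ 2 : ℕ) : ℤ) = a ^ 2 + b ^ 2 := by
        push_cast
        rw [sq_abs, sq_abs]
      rw [← this, Int.cast_natCast]
    rw [h1]
    push_cast
    linear_combination (-(b : ℂ) ^ 2) * Complex.I_sq
  have hodd : Odd (a.natAbs ^ 2 + b.natAbs ^ 2) := by
    rw [← Nat.not_even_iff_odd, Nat.even_add, Nat.even_pow' two_ne_zero, Nat.even_pow' two_ne_zero,
      Int.natAbs_even, Int.natAbs_even]
    intro hh
    apply h
    have : Even (a + b) := Int.even_add.mpr hh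
    exact this.two_dvd
  have h1 := v_odd v h2 hodd
  rw [← e, map_mul] at h1
  have h3 : v ((a : ℂ) + b * I) * v ((a : ℂ) + (-b : ℤ) * I) < 1 :=
    (mul_le_of_le_one_right' (v_gauss a (-b))).trans_lt hcon
  rw [h1] at h3
  exact lt_irrefl _ h3

variable {ρ : ℂ} (hρ : ρ ^ 4 = 2) (hr : v ρ < 1)

include hρ in
lemma v_16 : v 16 = v ρ ^ 16 := by
  rw [show (16 : ℂ) = 2 ^ 4 by norm_num, map_pow, v_two hρ, ← pow_mul]

/-- powers of a number congruent to one modulo four -/
lemma pow_cong (s : ℂ) (hs : v s ≤ 1) (n : ℕ) :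
    ∃ x : ℂ, v x ≤ 1 ∧ (1 + 4 * s) ^ n = 1 + 4 * n * s + 16 * x := by
  induction n with
  | zero => exact ⟨0, by rw [map_zero]; exact zero_le_one, by push_cast; ring⟩
  | succ n ih =>
    obtain ⟨x, hx, h⟩ := ih
    refine ⟨n * s ^ 2 + x * (1 + 4 * s), ?_, ?_⟩
    · refine (v.map_add _ _).trans (max_le ?_ ?_)
      · rw [map_mul, map_pow]
        exact mul_le_one' (v_nat v n) (pow_le_one' hs 2)
      · rw [map_mul]
        refine mul_le_one' hx ((v.map_add _ _).trans (max_le (by rw [map_one]) ?_))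
        rw [map_mul]
        have : v (4 : ℂ) ≤ 1 := by exact_mod_cast v_nat v 4
        exact mul_le_one' this hs
    · rw [pow_succ, h]
      push_cast
      ring

include hρ hr in
theorem v_diff {a b : ℤ} (hab : ¬ 2 ∣ a + b) (e : ℕ) :
    v ((1 + 4 * ((a : ℂ) + (-b : ℤ) * I)) ^ (e + 1) - (1 + 4 * ((a : ℂ) + b * I)) ^ e) =
      v ρ ^ 8 := by
  have hp := rho_pos (v := v) hρ
  have h2 : v 2 < 1 := by rw [v_two hρ]; exact pow_lt_one' hr (by norm_num)
  have hab' : ¬ 2 ∣ a + -b := by omega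
  obtain ⟨x, hx, ex⟩ := pow_cong (v := v) _ (v_gauss a (-b)) (e + 1)
  obtain ⟨y, hy, ey⟩ := pow_cong (v := v) _ (v_gauss a b) e
  rw [ex, ey]
  have e1 : 1 + 4 * ((e + 1 : ℕ) : ℂ) * ((a : ℂ) + (-b : ℤ) * I) + 16 * x -
      (1 + 4 * (e : ℂ) * ((a : ℂ) + b * I) + 16 * y) =
      4 * ((a : ℂ) + (-b : ℤ) * I) + 8 * (-(e * b * I) + 2 * (x - y)) := by
    push_cast
    ring
  rw [e1]
  have h4 : v (4 * ((a : ℂ) + (-b : ℤ) * I)) = v ρ ^ 8 := by
    rw [map_mul, v_gauss_odd h2 hab', mul_one, show (4 : ℂ) = 2 ^ 2 by norm_num, map_pow,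
      v_two hρ, ← pow_mul]
  have h8 : v (8 * (-(e * b * I) + 2 * (x - y))) < v ρ ^ 8 := by
    have h9 : v (-(e * b * I) + 2 * (x - y)) ≤ 1 := by
      refine (v.map_add _ _).trans (max_le ?_ ?_)
      · rw [Valuation.map_neg, map_mul, map_mul, v_I, mul_one]
        exact mul_le_one' (v_nat v e) (v_int v b)
      · rw [map_mul]
        exact mul_le_one' h2.le ((v.map_sub _ _).trans (max_le hx hy))
    rw [map_mul, show (8 : ℂ) = 2 ^ 3 by norm_num, map_pow, v_two hρ, ← pow_mul]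
    refine (mul_le_of_le_one_right' h9).trans_lt ?_
    exact pow_lt_pow_right_of_lt_one₀ hp hr (by norm_num)
  rw [Valuation.map_add_eq_of_lt_left v (by rw [h4]; exact h8), h4]

end gauss

end Pool.Agent.Y690.NV
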