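import Pool.Agent.Y690.X.Scale

/-!
# The estimate at two
-/

set_option autoImplicit false
set_option linter.unusedSimpArgs false
set_option linter.unusedSectionVars false

namespace Pool.Agent.Y690.NV

open MvPolynomial Finset

section est

variable {Γ : Type*} [LinearOrderedCommGroupWithZero Γ] (v : Valuation ℂ Γ)

lemma v_nat (n : ℕ) : v (n : ℂ) ≤ 1 := by
  induction n with
  | zero => simp
  | succ n ih =>
    push_cast
    exact (v.map_add _ _).trans (max_le ih (by rw [map_one]))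

lemma v_int (n : ℤ) : v (n : ℂ) ≤ 1 := by
  rcases n with n | n
  · exact_mod_cast v_nat v n
  · rw [Int.cast_negSucc, Valuation.map_neg]
    exact v_nat v _

lemma v_odd (h2 : v 2 < 1) {n : ℕ} (hn : Odd n) : v (n : ℂ) = 1 := by
  obtain ⟨k, rfl⟩ := hn
  have h : v ((2 * k : ℕ) : ℂ) < v 1 := by
    push_cast
    rw [map_mul, map_one]
    exact mul_lt_one_of_lt_of_le h2 (v_nat v k)
  push_cast at h ⊢
  rw [Valuation.map_add_eq_of_lt_right v h, map_one]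

lemma v_dvd {a b : ℕ} (h : a ∣ b) : v (b : ℂ) ≤ v (a : ℂ) := by
  obtain ⟨c, rfl⟩ := h
  push_cast
  rw [map_mul]
  exact mul_le_of_le_one_right' (v_nat v c)

variable {v}
variable {ρ : ℂ} (hρ : ρ ^ 4 = 2)

include hρ in
lemma v_two : v 2 = v ρ ^ 4 := by rw [← hρ, map_pow]

lemma two_pow_fac1 (j : ℕ) (hj : 2 ≤ j) : ∃ k, 2 ^ k ∣ j.factorial ∧ j ≤ 4 * k := by
  induction j using Nat.strong_induction_on with
  | _ j ih =>
    rcases Nat.lt_or_ge j 4 with h | h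
    · refine ⟨1, ?_, by omega⟩
      rw [pow_one]
      exact Nat.dvd_factorial (by norm_num) hj
    · obtain ⟨k, hk, hk2⟩ := ih (j - 2) (by omega) (by omega)
      refine ⟨k + 1, ?_, by omega⟩
      obtain ⟨i, rfl⟩ : ∃ i, j = i + 2 := ⟨j - 2, by omega⟩
      rw [Nat.add_sub_cancel] at hk
      rw [Nat.factorial_succ, Nat.factorial_succ, pow_succ, ← mul_assoc, mul_comm (2 ^ k)]
      refine mul_dvd_mul ?_ hk
      rw [show (i + 1 + 1) * (i + 1) = (i + 1) * (i + 1 + 1) by ring]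
      exact (Nat.even_mul_succ_self (i + 1)).two_dvd

lemma two_pow_fac2 (j : ℕ) (hj : 4 ≤ j) : ∃ k, 2 ^ k ∣ j.factorial ∧ j + 1 ≤ 2 * k := by
  induction j using Nat.strong_induction_on with
  | _ j ih =>
    rcases Nat.lt_or_ge j 6 with h | h
    · refine ⟨3, ?_, by omega⟩
      have h4 : 2 ^ 3 ∣ (4).factorial := by decide
      exact h4.trans (Nat.factorial_dvd_factorial hj)
    · obtain ⟨k, hk, hk2⟩ := ih (j - 2) (by omega) (by omega)
      refine ⟨k + 1, ?_, by omega⟩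
      obtain ⟨i, rfl⟩ : ∃ i, j = i + 2 := ⟨j - 2, by omega⟩
      rw [Nat.add_sub_cancel] at hk
      rw [Nat.factorial_succ, Nat.factorial_succ, pow_succ, ← mul_assoc, mul_comm (2 ^ k)]
      refine mul_dvd_mul ?_ hk
      rw [show (i + 1 + 1) * (i + 1) = (i + 1) * (i + 1 + 1) by ring]
      exact (Nat.even_mul_succ_self (i + 1)).two_dvd

variable (hr : v ρ < 1)

include hr in
lemma rpow_le {a b : ℕ} (h : a ≤ b) : v ρ ^ b ≤ v ρ ^ a := pow_le_pow_right_of_le_one' hr.le h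

include hρ in
lemma v_tpow {k b : ℕ} (h : 2 ^ k ∣ b) : v (b : ℂ) ≤ v ρ ^ (4 * k) := by
  refine (v_dvd v h).trans ?_
  push_cast
  rw [map_pow, v_two hρ, ← pow_mul]

include hρ hr in
lemma v_fac1 {j : ℕ} (hj : 2 ≤ j) : v (j.factorial : ℂ) ≤ v ρ ^ j := by
  obtain ⟨k, hk, hk2⟩ := two_pow_fac1 j hj
  exact (v_tpow hρ hk).trans (rpow_le hr hk2)

include hρ hr in
lemma v_fac2 {j : ℕ} (hj : 4 ≤ j) : v (j.factorial : ℂ) ≤ v ρ ^ (2 * (j + 1)) := by
  obtain ⟨k, hk, hk2⟩ := two_pow_fac2 j hj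
  exact (v_tpow hρ hk).trans (rpow_le hr (by omega))

lemma ch2 (m : ℕ) : 2 ∣ (4 * m).choose 2 := by
  have h := Nat.choose_succ_right_eq (4 * m) 1
  rw [Nat.choose_one_right] at h
  have : (4 * m).choose 2 * 2 = (2 * (m * (4 * m - 1))) * 2 := by rw [h]; ring
  have h2 := Nat.eq_of_mul_eq_mul_right (by norm_num) this
  exact ⟨_, h2⟩

lemma ch2' (m : ℕ) : 2 ∣ (4 * m + 1).choose 2 := by
  have h := Nat.choose_succ_right_eq (4 * m + 1) 1
  rw [Nat.choose_one_right, Nat.add_sub_cancel] at h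
  have : (4 * m + 1).choose 2 * 2 = (2 * (m * (4 * m + 1))) * 2 := by rw [h]; ring
  have h2 := Nat.eq_of_mul_eq_mul_right (by norm_num) this
  exact ⟨_, h2⟩

lemma ch3 (n : ℕ) (h2 : 2 ∣ n.choose 2) : 2 ∣ n.choose 3 := by
  have h := Nat.choose_succ_right_eq n 2
  have h3 : 2 ∣ n.choose 3 * 3 := by rw [h]; exact h2.mul_right _
  exact (Nat.Coprime.dvd_of_dvd_mul_right (by decide) h3)

lemma ca_dvd4 (n : ℕ) (h2 : 2 ∣ n.choose 2) : 2 ^ 2 ∣ ca n 2 ∧ 2 ^ 2 ∣ ca n 3 := by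
  unfold ca
  exact ⟨(pow_dvd_pow_of_dvd h2 2).mul_right _, (pow_dvd_pow_of_dvd (ch3 n h2) 2).mul_right _⟩

include hρ hr in
lemma v_ca_big (n j : ℕ) (hj : 4 ≤ j) : v (ca n j : ℂ) ≤ v ρ ^ (2 * (j + 1)) :=
  (v_dvd v (by unfold ca; exact Dvd.intro_left _ rfl)).trans (v_fac2 hρ hr hj)

include hρ hr in
lemma v_ca_A (m j : ℕ) (hj : 1 ≤ j) : v (ca (4 * m) j : ℂ) ≤ v ρ ^ (2 * j + 1) := by
  rcases Nat.lt_or_ge j 4 with h | h
  · have hh := ca_dvd4 (4 * m) (ch2 m)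
    interval_cases j
    · have : 2 ^ 1 ∣ ca (4 * m) 1 := by
        unfold ca
        rw [Nat.choose_one_right]
        exact ⟨8 * m ^ 2, by simp [Nat.factorial]; ring⟩
      exact (v_tpow hρ this).trans (rpow_le hr (by norm_num))
    · exact (v_tpow hρ hh.1).trans (rpow_le hr (by norm_num))
    · exact (v_tpow hρ hh.2).trans (rpow_le hr (by norm_num))
  · exact (v_ca_big hρ hr _ _ h).trans (rpow_le hr (by omega))

include hρ hr in
lemma v_ca_B (m j : ℕ) (hj : 2 ≤ j) : v (ca (4 * m + 1) j : ℂ) ≤ v ρ ^ (2 * j - 1) := by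
  rcases Nat.lt_or_ge j 4 with h | h
  · have hh := ca_dvd4 (4 * m + 1) (ch2' m)
    interval_cases j
    · exact (v_tpow hρ hh.1).trans (rpow_le hr (by norm_num))
    · exact (v_tpow hρ hh.2).trans (rpow_le hr (by norm_num))
  · exact (v_ca_big hρ hr _ _ h).trans (rpow_le hr (by omega))

/-! ### the values -/

variable {ξ η ε : ℂ}

/-- the point -/
noncomputable def pt (ξ η ε : ℂ) : Fin 5 → ℂ := ![1 / 2, ξ, η, ε, 1 / (ξ - 1)]

/-- the evaluation of the scaled variables -/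
noncomputable def eq5 (ρ ξ η ε : ℂ) : Q5 →+* ℂ := (eval (pt ξ η ε)).comp (κ ρ)

lemma eq5_R : eq5 ρ ξ η ε qR = ρ := by
  unfold eq5; rw [RingHom.comp_apply, κ_R, eval_C]
lemma eq5_B : eq5 ρ ξ η ε qB = 1 := by
  unfold eq5 pt; rw [RingHom.comp_apply, κ_B, map_mul, map_ofNat]; unfold aB; rw [eval_X]; simp
lemma eq5_x : eq5 ρ ξ η ε qx = ρ ^ 2 / 2 * (ξ - 1) := by
  unfold eq5 pt
  rw [RingHom.comp_apply, κ_x, map_mul, map_sub, map_one, eval_C]
  unfold aX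
  rw [eval_X]
  simp
lemma eq5_y : eq5 ρ ξ η ε qy = ρ ^ 2 * ε := by
  unfold eq5 pt
  rw [RingHom.comp_apply, κ_y, map_mul, eval_C]
  unfold aE
  rw [eval_X]
  simp
lemma eq5_h : eq5 ρ ξ η ε qh = η := by
  unfold eq5 pt
  rw [RingHom.comp_apply, κ_h]
  unfold aH
  rw [eval_X]
  simp

variable (hx : v (ρ ^ 2 / 2 * (ξ - 1)) ≤ 1) (hy : v (ρ ^ 2 * ε) ≤ 1) (hh : v η ≤ 1)

include hr hx hy hh in
lemma eq5_le (p : Q5) : v (eq5 ρ ξ η ε p) ≤ 1 := by
  induction p using MvPolynomial.induction_on with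
  | C a =>
    have : eq5 ρ ξ η ε (C a) = (a : ℂ) := by
      unfold eq5 κ
      rw [RingHom.comp_apply, eval₂Hom_C]
      simp
    rw [this]
    exact v_int v a
  | add p q hp hq =>
    rw [map_add]
    exact (v.map_add _ _).trans (max_le hp hq)
  | mul_X p i hp =>
    rw [map_mul, map_mul]
    refine mul_le_one' hp ?_
    fin_cases i
    · show v (eq5 ρ ξ η ε qR) ≤ 1
      rw [eq5_R]; exact hr.le
    · show v (eq5 ρ ξ η ε qB) ≤ 1
      rw [eq5_B, map_one]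
    · show v (eq5 ρ ξ η ε qx) ≤ 1
      rw [eq5_x]; exact hx
    · show v (eq5 ρ ξ η ε qy) ≤ 1
      rw [eq5_y]; exact hy
    · show v (eq5 ρ ξ η ε qh) ≤ 1
      rw [eq5_h]; exact hh

include hr hx hy hh in
lemma eq5_dvd {p : Q5} (hp : qR ^ 2 ∣ p) : v (eq5 ρ ξ η ε p) ≤ v ρ ^ 2 := by
  obtain ⟨q, rfl⟩ := hp
  rw [map_mul, map_mul, map_pow, map_pow, eq5_R]
  exact mul_le_of_le_one_right' (eq5_le hr hx hy hh q)

include hρ hr hx hy hh in
lemma eq5_even (m : ℕ) : v (eq5 ρ ξ η ε (Gq (2 * m) 0)) = 1 := by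
  obtain ⟨u, w, h⟩ := col0_even m
  have hθ : eq5 ρ ξ η ε qθ = -1 := by
    unfold qθ
    rw [map_sub, map_mul, map_pow, map_ofNat, eq5_B]
    norm_num
  rw [h, map_add (eq5 ρ ξ η ε), map_add (eq5 ρ ξ η ε), map_pow, hθ, map_mul, map_mul, map_pow,
    eq5_R, map_ofNat]
  have h1 : v ((-1 : ℂ) ^ m) = 1 := by
    rw [map_pow, Valuation.map_neg, map_one, one_pow]
  have h2 : v (ρ ^ 2 * eq5 ρ ξ η ε u) < v ((-1 : ℂ) ^ m) := by
    rw [h1, map_mul, map_pow]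
    exact mul_lt_one_of_lt_of_le (pow_lt_one' hr (by norm_num)) (eq5_le hr hx hy hh u)
  have h3 : v ((-1 : ℂ) ^ m + ρ ^ 2 * eq5 ρ ξ η ε u) = 1 := by
    rw [Valuation.map_add_eq_of_lt_left v h2, h1]
  have h4 : v (2 * eq5 ρ ξ η ε w) < v ((-1 : ℂ) ^ m + ρ ^ 2 * eq5 ρ ξ η ε u) := by
    rw [h3, map_mul, v_two hρ]
    exact mul_lt_one_of_lt_of_le (pow_lt_one' hr (by norm_num)) (eq5_le hr hx hy hh w)
  rw [Valuation.map_add_eq_of_lt_left v h4, h3]

include hρ in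
lemma hn_eq (n : ℕ) : 2 ^ n * eval (pt ξ η ε) (Mq 1 n) = (ρ ^ 2) ^ n * eq5 ρ ξ η ε (Gq n 0) := by
  have h := congrArg (eval (pt ξ η ε)) (Mq_scale hρ n).1
  rw [map_mul, map_mul, map_pow, map_pow, eval_C, map_ofNat] at h
  exact h

include hρ hr hx hy hh in
lemma hn_le (n : ℕ) : v (2 ^ n * eval (pt ξ η ε) (Mq 1 n)) ≤ v ρ ^ (2 * n) := by
  rw [hn_eq hρ, map_mul, ← pow_mul, map_pow]
  exact mul_le_of_le_one_right' (eq5_le hr hx hy hh _)

include hρ hr hx hy hh in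
lemma hn_even (m : ℕ) : v (2 ^ (2 * m) * eval (pt ξ η ε) (Mq 1 (2 * m))) = v ρ ^ (4 * m) := by
  rw [hn_eq hρ, map_mul, ← pow_mul, map_pow, eq5_even hρ hr hx hy hh, mul_one]
  congr 1
  ring

include hρ hr hx hy hh in
lemma hn_odd (n : ℕ) (hn : Odd n) : v (2 ^ n * eval (pt ξ η ε) (Mq 1 n)) ≤ v ρ ^ (2 * n + 2) := by
  rw [hn_eq hρ, map_mul, ← pow_mul, map_pow, pow_add]
  exact mul_le_mul_right (eq5_dvd hr hx hy hh ((col0 n).1 hn)) _

include hρ in
lemma rho_pos : 0 < v ρ := by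
  have : ρ ≠ 0 := by
    rintro rfl
    norm_num at hρ
  exact zero_lt_iff.mpr ((Valuation.ne_zero_iff v).mpr this)

include hρ in
lemma mn_eq (n : ℕ) : 2 ^ n * eval (pt ξ η ε) (Mq (2 * aT) n) = (ρ ^ 2) ^ n *
    ∑ j ∈ range (n + 1), ρ ^ 2 * ((j.factorial : ℂ) * ((ρ ^ 2 / (ξ - 1)) ^ (j + 1) *
      eq5 ρ ξ η ε (Gq n j))) := by
  have h := congrArg (eval (pt ξ η ε)) (Mq_scale' hρ n).1
  rw [map_mul, map_mul, map_pow, map_pow, eval_C, map_ofNat] at h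
  rw [h]
  unfold Sx
  rw [map_sum, pow_succ, mul_assoc, mul_sum]
  congr 1
  refine sum_congr rfl fun j _ => ?_
  have h2 : eval (pt ξ η ε) (aS ρ) = ρ ^ 2 / (ξ - 1) := by
    unfold aS aT pt
    rw [map_mul, eval_C, eval_X]
    simp
    ring
  rw [map_mul, map_mul, map_pow, map_natCast, h2]
  rfl

variable (h3 : v (ξ - 1) = v ρ ^ 3)

include hρ hr h3 in
lemma hx_of : v (ρ ^ 2 / 2 * (ξ - 1)) ≤ 1 := by
  have hp := rho_pos (v := v) hρ
  have h : v (ρ ^ 2 / 2 * (ξ - 1)) = v ρ := by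
    rw [map_mul, map_div₀, map_pow, v_two hρ, h3]
    field_simp
  rw [h]
  exact hr.le

include hρ h3 in
lemma vT : v ρ * v (ρ ^ 2 / (ξ - 1)) = 1 := by
  have hp := rho_pos (v := v) hρ
  rw [map_div₀, map_pow, h3]
  field_simp

include hρ hr hy hh h3 in
lemma term_le (n j : ℕ) : v (ρ ^ 2 * ((j.factorial : ℂ) * ((ρ ^ 2 / (ξ - 1)) ^ (j + 1) *
      eq5 ρ ξ η ε (Gq n j)))) ≤ 1 ∧ (Even n → v (ρ ^ 2 * ((j.factorial : ℂ) *
      ((ρ ^ 2 / (ξ - 1)) ^ (j + 1) * eq5 ρ ξ η ε (Gq n j)))) ≤ v ρ) := by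
  have hx := hx_of hρ hr h3
  have hT := vT hρ h3
  have hg := eq5_le hr hx hy hh (Gq n j)
  have key : ∀ c g : Γ, c ≤ v ρ ^ j → g ≤ 1 →
      v ρ ^ 2 * (c * (v (ρ ^ 2 / (ξ - 1)) ^ (j + 1) * g)) ≤ v ρ := by
    intro c g hc hg
    calc v ρ ^ 2 * (c * (v (ρ ^ 2 / (ξ - 1)) ^ (j + 1) * g))
        ≤ v ρ ^ 2 * (v ρ ^ j * (v (ρ ^ 2 / (ξ - 1)) ^ (j + 1) * 1)) := by gcongr
      _ = v ρ * (v ρ * v (ρ ^ 2 / (ξ - 1))) ^ (j + 1) := by
          rw [mul_pow, mul_one]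
          calc v ρ ^ 2 * (v ρ ^ j * v (ρ ^ 2 / (ξ - 1)) ^ (j + 1))
              = (v ρ * v ρ ^ (j + 1)) * v (ρ ^ 2 / (ξ - 1)) ^ (j + 1) := by
                rw [← mul_assoc, ← pow_add, ← pow_succ']
                congr 2
                ring
            _ = _ := by rw [mul_assoc]
      _ = v ρ := by rw [hT, one_pow, mul_one]
  rw [map_mul, map_mul, map_mul, map_pow, map_pow]
  rcases Nat.lt_or_ge j 2 with h | h
  · interval_cases j
    · have := key (v ((Nat.factorial 0 : ℕ) : ℂ)) _ (by simp) hg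
      exact ⟨this.trans hr.le, fun _ => this⟩
    · have e : v ρ ^ 2 * (v ((Nat.factorial 1 : ℕ) : ℂ) * (v (ρ ^ 2 / (ξ - 1)) ^ (1 + 1) *
          v (eq5 ρ ξ η ε (Gq n 1)))) = v (eq5 ρ ξ η ε (Gq n 1)) := by
        rw [Nat.factorial_one, Nat.cast_one, map_one, one_mul, ← mul_assoc,
          show (1 + 1 : ℕ) = 2 from rfl, ← mul_pow, hT, one_pow, one_mul]
      rw [e]
      refine ⟨hg, fun he => ?_⟩
      refine (eq5_dvd hr hx hy hh ((col1 n).1 he)).trans ?_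
      have := rpow_le hr (show 1 ≤ 2 by norm_num)
      rwa [pow_one] at this
  · have := key (v ((Nat.factorial j : ℕ) : ℂ)) _ (v_fac1 hρ hr h) hg
    exact ⟨this.trans hr.le, fun _ => this⟩

include hρ hr hy hh h3 in
lemma mn_le (n : ℕ) : v (2 ^ n * eval (pt ξ η ε) (Mq (2 * aT) n)) ≤ v ρ ^ (2 * n) := by
  rw [mn_eq hρ, map_mul, ← pow_mul, map_pow]
  refine mul_le_of_le_one_right' (v.map_sum_le fun j _ => (term_le hρ hr hy hh h3 n j).1)

include hρ hr hy hh h3 in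
lemma mn_even (n : ℕ) (hn : Even n) :
    v (2 ^ n * eval (pt ξ η ε) (Mq (2 * aT) n)) ≤ v ρ ^ (2 * n + 1) := by
  rw [mn_eq hρ, map_mul, ← pow_mul, map_pow, pow_succ (v ρ)]
  exact mul_le_mul_right (v.map_sum_le fun j _ => (term_le hρ hr hy hh h3 n j).2 hn) _

lemma ev_Sg (m0 : A) (e : ℕ) : 2 ^ e * eval (pt ξ η ε) (Sg (-aφ) (Mq m0) e) =
    ∑ j ∈ range (e + 1), (ca e j : ℂ) * (2 ^ (e - j) * eval (pt ξ η ε) (Mq m0 (e - j))) := by
  unfold Sg
  rw [map_sum, mul_sum]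
  refine sum_congr rfl fun j hj => ?_
  have hj' : j ≤ e := by have := mem_range.mp hj; omega
  have h1 : eval (pt ξ η ε) (-aφ) = 1 / 2 := by
    unfold aφ aB pt
    simp only [map_neg, map_mul, map_sub, map_one, map_ofNat, eval_C, eval_X]
    simp
    norm_num
  rw [map_mul, map_mul, map_pow, map_natCast, h1]
  have h2 : (2 : ℂ) ^ e = 2 ^ (e - j) * 2 ^ j := by rw [← pow_add]; congr 1; omega
  rw [h2]
  have h4 : (2 : ℂ) ^ j * (1 / 2) ^ j = 1 := by rw [← mul_pow]; norm_num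
  linear_combination (2 ^ (e - j) * (ca e j : ℂ) * eval (pt ξ η ε) (Mq m0 (e - j))) * h4

lemma v_add_big {a b : ℂ} {g : Γ} (hb : v b = g) (ha : v a < g) : v (a + b) = g := by
  rw [Valuation.map_add_eq_of_lt_right v (by rw [hb]; exact ha), hb]

include hρ hr hy hh h3 in
theorem est_one (m e : ℕ) (he : e = 4 * m ∨ e = 4 * m + 1) :
    v (2 ^ e * eval (pt ξ η ε) (Sg (-aφ) (Mq 1) e)) = v ρ ^ (8 * m) := by
  have hx := hx_of hρ hr h3
  have hlt : v ρ ^ (8 * m + 1) < v ρ ^ (8 * m) :=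
    pow_lt_pow_right_of_lt_one₀ (rho_pos hρ) hr (by omega)
  rw [ev_Sg]
  rcases he with rfl | rfl
  · rw [sum_range_succ', ca_zero, Nat.cast_one, one_mul, Nat.sub_zero]
    have h0 := hn_even hρ hr hx hy hh (2 * m)
    rw [show 2 * (2 * m) = 4 * m by ring, show 4 * (2 * m) = 8 * m by ring] at h0
    have h1 : v (∑ k ∈ range (4 * m), (ca (4 * m) (k + 1) : ℂ) * (2 ^ (4 * m - (k + 1)) *
        eval (pt ξ η ε) (Mq 1 (4 * m - (k + 1))))) ≤ v ρ ^ (8 * m + 1) := by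
      refine v.map_sum_le fun k hk => ?_
      have hk' : k < 4 * m := mem_range.mp hk
      rw [map_mul]
      refine (mul_le_mul' (v_ca_A hρ hr m (k + 1) (by omega)) (hn_le hρ hr hx hy hh _)).trans ?_
      rw [← pow_add]
      exact rpow_le hr (by omega)
    rw [Valuation.map_add_eq_of_lt_right v (by rw [h0]; exact h1.trans_lt hlt), h0]
  · rw [sum_range_succ', sum_range_succ']
    have h0 := hn_even hρ hr hx hy hh (2 * m)
    rw [show 2 * (2 * m) = 4 * m by ring, show 4 * (2 * m) = 8 * m by ring] at h0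
    have h1 : v (∑ k ∈ range (4 * m), (ca (4 * m + 1) (k + 1 + 1) : ℂ) *
        (2 ^ (4 * m + 1 - (k + 1 + 1)) *
        eval (pt ξ η ε) (Mq 1 (4 * m + 1 - (k + 1 + 1))))) ≤ v ρ ^ (8 * m + 1) := by
      refine v.map_sum_le fun k hk => ?_
      have hk' : k < 4 * m := mem_range.mp hk
      rw [map_mul]
      refine (mul_le_mul' (v_ca_B hρ hr m (k + 1 + 1) (by omega))
        (hn_le hρ hr hx hy hh _)).trans ?_
      rw [← pow_add]
      exact rpow_le hr (by omega)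
    have h2 : v ((ca (4 * m + 1) (0 + 1) : ℂ) * (2 ^ (4 * m + 1 - (0 + 1)) *
        eval (pt ξ η ε) (Mq 1 (4 * m + 1 - (0 + 1))))) = v ρ ^ (8 * m) := by
      rw [show 4 * m + 1 - (0 + 1) = 4 * m by omega, map_mul, h0]
      have : ca (4 * m + 1) (0 + 1) = (4 * m + 1) ^ 2 := by
        unfold ca
        rw [zero_add, Nat.choose_one_right, Nat.factorial_one, mul_one]
      have h2 : v 2 < 1 := by rw [v_two hρ]; exact pow_lt_one' hr (by norm_num)
      rw [this, v_odd v h2 (Odd.pow ⟨2 * m, by ring⟩), one_mul]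
    have h4 : v ((ca (4 * m + 1) 0 : ℂ) * (2 ^ (4 * m + 1 - 0) *
        eval (pt ξ η ε) (Mq 1 (4 * m + 1 - 0)))) ≤ v ρ ^ (8 * m + 1) := by
      rw [ca_zero, Nat.cast_one, one_mul, Nat.sub_zero]
      exact (hn_odd hρ hr hx hy hh _ ⟨2 * m, by ring⟩).trans (rpow_le hr (by omega))
    rw [add_comm]
    exact v_add_big (v_add_big h2 (h1.trans_lt hlt)) (h4.trans_lt hlt)

include hρ hr hy hh h3 in
theorem est_two (m e : ℕ) (he : e = 4 * m ∨ e = 4 * m + 1) :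
    v (2 ^ e * eval (pt ξ η ε) (Sg (-aφ) (Mq (2 * aT)) e)) ≤ v ρ ^ (8 * m + 1) := by
  rw [ev_Sg]
  refine v.map_sum_le fun j hj => ?_
  have hj' : j ≤ e := by have := mem_range.mp hj; omega
  rw [map_mul]
  rcases he with rfl | rfl
  · rcases Nat.eq_zero_or_pos j with rfl | hj0
    · rw [ca_zero, Nat.cast_one, map_one, one_mul, Nat.sub_zero]
      refine (mn_even hρ hr hy hh h3 _ ⟨2 * m, by ring⟩).trans (rpow_le hr (by omega))
    · refine (mul_le_mul' (v_ca_A hρ hr m j hj0) (mn_le hρ hr hy hh h3 _)).trans ?_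
      rw [← pow_add]
      exact rpow_le hr (by omega)
  · rcases Nat.lt_or_ge j 2 with h | h
    · interval_cases j
      · rw [ca_zero, Nat.cast_one, map_one, one_mul, Nat.sub_zero]
        refine (mn_le hρ hr hy hh h3 _).trans (rpow_le hr (by omega))
      · rw [show 4 * m + 1 - 1 = 4 * m by omega]
        refine (mul_le_of_le_one_left' (v_nat v _)).trans ?_
        refine (mn_even hρ hr hy hh h3 _ ⟨2 * m, by ring⟩).trans (rpow_le hr (by omega))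
    · refine (mul_le_mul' (v_ca_B hρ hr m j h) (mn_le hρ hr hy hh h3 _)).trans ?_
      rw [← pow_add]
      exact rpow_le hr (by omega)

end est

end Pool.Agent.Y690.NV
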