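import Pool.Agent.Y690.X.Gi

/-!
# The Hecke characters of the elliptic curves `D y² = x³ - x`
-/

set_option autoImplicit false
set_option linter.unusedSectionVars false

namespace Pool.Agent.Y690.NV

open Pool.Agent.W192.HK

open Complex (I)

variable {R : Subring ℂ} (hR : ∀ z : ℂ, z ∈ R ↔ ∃ x y : ℤ, z = x + y * I)

open Classical in
/-- the Hecke character of conductor `2 + 2 i` -/
noncomputable def th0 (n : ℕ) (J : Ideal R) : ℂ :=
  if h : ∃ α : R, J = sp α ∧ α - 1 ∈ sp (ff hR) then ((Classical.choose h : R) : ℂ) ^ n else 0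

lemma gen_uni {α β : R} (h : sp α = sp β) (hα : α - 1 ∈ sp (ff hR)) (hβ : β - 1 ∈ sp (ff hR)) :
    α = β := by
  rw [Ideal.span_singleton_eq_span_singleton] at h
  obtain ⟨u, hu⟩ := h
  obtain ⟨j, hj, hj2⟩ := unit_pow hR (u : R) ((u⁻¹ : Rˣ) : R) (by rw [Units.mul_inv])
  have h1 : (u : R) - 1 ∈ sp (ff hR) := by
    have h2 := (sp (ff hR)).sub_mem hβ ((sp (ff hR)).mul_mem_right (u : R) hα)
    convert h2 using 1
    rw [← hu]
    ring
  have h2 : ii hR ^ j - 1 ∈ sp (ff hR) := by
    have h3 := (sp (ff hR)).mul_mem_left (-(ii hR ^ j)) h1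
    convert h3 using 1
    linear_combination hj2
  have h3 := ii_pow_eq hR hj h2
  rw [h3, pow_zero, one_mul] at hj2
  rw [← hu, hj2, mul_one]

lemma th0_gen (n : ℕ) {α : R} (hα : α - 1 ∈ sp (ff hR)) : th0 hR n (sp α) = (α : ℂ) ^ n := by
  have h : ∃ β : R, sp α = sp β ∧ β - 1 ∈ sp (ff hR) := ⟨α, rfl, hα⟩
  unfold th0
  rw [dif_pos h]
  obtain ⟨h1, h2⟩ := Classical.choose_spec h
  rw [← gen_uni hR h1 hα h2]

lemma one_notMem : (1 : R) ∉ sp (ff hR) := by
  rw [mkz_one hR, mem_ff]
  omega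

lemma i_notdvd (r : R) : (1 : R) ≠ (1 + ii hR) * r := by
  obtain ⟨c, d, rfl⟩ := exists_xy hR r
  intro h
  have h1 : mkz hR 1 0 = mkz hR (c - d) (c + d) := by
    rw [← mkz_one hR, h]
    unfold mkz
    push_cast
    linear_combination (d : R) * ii_sq hR
  have h2 := congrArg Subtype.val h1
  rw [mkz_coe, mkz_coe] at h2
  obtain ⟨h3, h4⟩ := mkz_inj h2
  omega

lemma ff_eq : ff hR = (1 + ii hR) * 2 := by unfold ff; ring

/-- an element prime to `1 + i` has a power of `i` times it congruent to one -/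
lemma cop_unit {α : R} (h : IsCoprime (sp α) (sp (ff hR))) : ∃ j : ℕ, j < 4 ∧
    ii hR ^ j * α - 1 ∈ sp (ff hR) := by
  obtain ⟨x, y, rfl⟩ := exists_xy hR α
  refine odd_unit hR x y fun h2 => ?_
  obtain ⟨r, hr⟩ := even_div hR x y h2
  rw [Ideal.isCoprime_span_singleton_iff] at h
  obtain ⟨a, b, hab⟩ := h
  rw [hr, ff_eq] at hab
  exact i_notdvd hR (a * r + b * 2) (by linear_combination -hab)

lemma sp_ii (j : ℕ) (α : R) : sp (ii hR ^ j * α) = sp α := by
  have h : IsUnit (ii hR ^ j) := by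
    refine IsUnit.pow j (IsUnit.of_mul_eq_one (-ii hR) ?_)
    linear_combination (-1 : R) * ii_sq hR
  exact Ideal.span_singleton_mul_left_unit h α

lemma gen_iff (J : Ideal R) : (∃ α : R, J = sp α ∧ α - 1 ∈ sp (ff hR)) ↔
    (J ≠ ⊥ ∧ IsCoprime J (sp (ff hR))) := by
  have := pid hR
  constructor
  · rintro ⟨α, rfl, hα⟩
    refine ⟨?_, ?_⟩
    · intro h
      rw [Ideal.span_singleton_eq_bot] at h
      rw [h, zero_sub] at hα
      have := (sp (ff hR)).neg_mem hα
      rw [neg_neg] at this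
      exact one_notMem hR this
    · rw [Ideal.isCoprime_iff_exists]
      exact ⟨α, Ideal.mem_span_singleton_self α, 1 - α, by
        have := (sp (ff hR)).neg_mem hα
        rwa [neg_sub] at this, by ring⟩
  · rintro ⟨h1, h2⟩
    obtain ⟨α, rfl⟩ := (IsPrincipalIdealRing.principal J).principal
    have h2' : IsCoprime (sp α) (sp (ff hR)) := h2
    obtain ⟨j, hj, hj2⟩ := cop_unit hR h2'
    exact ⟨ii hR ^ j * α, (sp_ii hR j α).symm, hj2⟩

lemma th0_zero (n : ℕ) {J : Ideal R} (h : ¬ (J ≠ ⊥ ∧ IsCoprime J (sp (ff hR)))) :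
    th0 hR n J = 0 := by
  rw [← gen_iff hR] at h
  unfold th0
  rw [dif_neg h]

lemma two_mem {q' : Ideal R} (hq : sp (ff hR) < q') : (2 : R) ∈ q' := by
  obtain ⟨hle, x, hx, hxf⟩ := SetLike.lt_iff_le_and_exists.mp hq
  obtain ⟨a, b, rfl⟩ := exists_xy hR x
  by_cases h1 : 2 ∣ a + b
  · obtain ⟨r, hr⟩ := even_div hR a b h1
    obtain ⟨c, d, rfl⟩ := exists_xy hR r
    by_cases h2 : 2 ∣ c + d
    · obtain ⟨s, hs⟩ := even_div hR c d h2
      obtain ⟨c', d', rfl⟩ := exists_xy hR s
      by_cases h3 : 2 ∣ c' + d'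
      · exfalso
        obtain ⟨t, ht⟩ := even_div hR c' d' h3
        apply hxf
        rw [hr, hs, ht, Ideal.mem_span_singleton']
        refine ⟨ii hR * t, ?_⟩
        rw [ff_eq]
        linear_combination (-(1 + ii hR) * t) * ii_sq hR
      · obtain ⟨j, -, hj⟩ := odd_unit hR c' d' h3
        have h4 := q'.mul_mem_left ((1 + ii hR) * (1 + ii hR)) (hle hj)
        have h5 := q'.sub_mem (q'.mul_mem_left (ii hR ^ j) hx) h4
        have h6 := q'.mul_mem_left (-ii hR) h5
        convert h6 using 1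
        rw [hr, hs]
        linear_combination ((2 : R) + ii hR) * ii_sq hR
    · obtain ⟨j, -, hj⟩ := odd_unit hR c d h2
      have h4 := q'.mul_mem_left (1 + ii hR) (hle hj)
      have h5 := q'.sub_mem (q'.mul_mem_left (ii hR ^ j) hx) h4
      have h6 := q'.mul_mem_left (1 - ii hR) h5
      convert h6 using 1
      rw [hr]
      linear_combination ii_sq hR
  · obtain ⟨j, -, hj⟩ := odd_unit hR a b h1
    have h5 := q'.sub_mem (q'.mul_mem_left (ii hR ^ j) hx) (hle hj)
    have h6 := q'.mul_mem_left 2 h5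
    convert h6 using 1
    ring

theorem hc_th0 {n : ℕ} (hn : Odd n) : HC n (sp (ff hR)) (th0 hR n) := by
  have := pid hR
  refine ⟨?_, ?_, ?_, ?_, ?_⟩
  · intro h
    rw [Ideal.span_singleton_eq_bot] at h
    apply_fun (Subtype.val) at h
    rw [ff_coe] at h
    have := congrArg Complex.re h
    simp at this
  · intro A B
    by_cases hA : A ≠ ⊥ ∧ IsCoprime A (sp (ff hR))
    · by_cases hB : B ≠ ⊥ ∧ IsCoprime B (sp (ff hR))
      · obtain ⟨α, rfl, hα⟩ := (gen_iff hR A).mpr hA
        obtain ⟨β, rfl, hβ⟩ := (gen_iff hR B).mpr hB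
        rw [Ideal.span_singleton_mul_span_singleton, th0_gen hR n hα, th0_gen hR n hβ, th0_gen]
        · push_cast
          rw [mul_pow]
        · have h := (sp (ff hR)).add_mem ((sp (ff hR)).mul_mem_left α hβ) hα
          convert h using 1
          ring
      · rw [th0_zero hR n hB, mul_zero]
        refine th0_zero hR n fun h => hB ⟨?_, h.2.of_mul_left_right⟩
        rintro rfl
        exact h.1 (by rw [Ideal.mul_bot])
    · rw [th0_zero hR n hA, zero_mul]
      refine th0_zero hR n fun h => hA ⟨?_, h.2.of_mul_left_left⟩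
      rintro rfl
      exact h.1 (by rw [Ideal.bot_mul])
  · intro A
    by_cases hA : A ≠ ⊥ ∧ IsCoprime A (sp (ff hR))
    · obtain ⟨α, rfl, hα⟩ := (gen_iff hR A).mpr hA
      rw [th0_gen hR n hα]
      constructor
      · intro h
        have h1 : (α : ℂ) = 0 := pow_eq_zero_iff hn.pos.ne' |>.mp h
        left
        rw [Ideal.span_singleton_eq_bot]
        exact Subtype.ext h1
      · rintro (h | h)
        · exact absurd h hA.1
        · exact absurd hA.2 h
    · rw [th0_zero hR n hA]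
      simp only [true_iff]
      tauto
  · intro α _ hα
    exact th0_gen hR n hα
  · intro q' hq'
    have h2 := two_mem hR hq'
    refine ⟨-1, by simp, ?_, ?_, ?_⟩
    · have := q'.neg_mem h2
      convert this using 1
      ring
    · have h4 : sp (-1 : R) = ⊤ := Ideal.span_singleton_eq_top.mpr isUnit_one.neg
      rw [h4, ← Ideal.one_eq_top]
      exact isCoprime_one_left
    · have h4 : sp (-1 : R) = ⊤ := Ideal.span_singleton_eq_top.mpr isUnit_one.neg
      have h5 : sp (1 : R) = ⊤ := Ideal.span_singleton_one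
      have h6 := th0_gen hR n (α := 1) (by rw [sub_self]; exact (sp (ff hR)).zero_mem)
      rw [h4, ← h5, h6]
      have h7 : ((-1 : R) : ℂ) = -1 := rfl
      have h8 : ((1 : R) : ℂ) = 1 := rfl
      rw [h7, h8, one_pow, hn.neg_one_pow]
      norm_num

end Pool.Agent.Y690.NV
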