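import Pool.Agent.Y690.X.CC

/-!
# The heat equation for the Kronecker function, formal version
-/

set_option autoImplicit false

namespace Pool.Agent.Y690.NV

open PowerSeries

/-- the universal ring: `E = E₁(z)`, `X = ℘(z)`, `Y = ℘'(z) / 2`, `γ = g₂ / 12` -/
abbrev U := MvPolynomial (Fin 4) ℂ

noncomputable def vE : U := MvPolynomial.X 0
noncomputable def vX : U := MvPolynomial.X 1
noncomputable def vY : U := MvPolynomial.X 2
noncomputable def vG : U := MvPolynomial.X 3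

/-- `g₃ / 4` -/
noncomputable def vK : U := vX ^ 3 - 3 * vG * vX - vY ^ 2

/-- the derivation with respect to the variable `z` -/
noncomputable def dz : Derivation ℂ U U :=
  MvPolynomial.mkDerivation ℂ ![-vX, 2 * vY, 3 * vX ^ 2 - 3 * vG, 0]

/-- the derivation with respect to the modulus -/
noncomputable def dt : Derivation ℂ U U :=
  MvPolynomial.mkDerivation ℂ ![-(vE * vX + vY), 2 * vE * vY + 2 * vX ^ 2 - 4 * vG,
    3 * vX * vY + vE * (3 * vX ^ 2 - 3 * vG), 2 * vK]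

noncomputable def de : Derivation ℂ U U := MvPolynomial.mkDerivation ℂ ![1, 0, 0, 0]

lemma dz_E : dz vE = -vX := MvPolynomial.mkDerivation_X _ _ _
lemma dz_X : dz vX = 2 * vY := MvPolynomial.mkDerivation_X _ _ _
lemma dz_Y : dz vY = 3 * vX ^ 2 - 3 * vG := MvPolynomial.mkDerivation_X _ _ _
lemma dz_G : dz vG = 0 := MvPolynomial.mkDerivation_X _ _ _
lemma dt_E : dt vE = -(vE * vX + vY) := MvPolynomial.mkDerivation_X _ _ _
lemma dt_X : dt vX = 2 * vE * vY + 2 * vX ^ 2 - 4 * vG := MvPolynomial.mkDerivation_X _ _ _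
lemma dt_Y : dt vY = 3 * vX * vY + vE * (3 * vX ^ 2 - 3 * vG) := MvPolynomial.mkDerivation_X _ _ _
lemma dt_G : dt vG = 2 * vK := MvPolynomial.mkDerivation_X _ _ _
lemma de_E : de vE = 1 := MvPolynomial.mkDerivation_X _ _ _
lemma de_X : de vX = 0 := MvPolynomial.mkDerivation_X _ _ _
lemma de_Y : de vY = 0 := MvPolynomial.mkDerivation_X _ _ _
lemma de_G : de vG = 0 := MvPolynomial.mkDerivation_X _ _ _

lemma D_ofNat (D : Derivation ℂ U U) (n : ℕ) [n.AtLeastTwo] : D (OfNat.ofNat n : U) = 0 := by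
  have h2 : (OfNat.ofNat n : U) = ((OfNat.ofNat n : ℕ) : U) := (Nat.cast_ofNat).symm
  rw [h2, Derivation.map_natCast]

lemma D_mul (D : Derivation ℂ U U) (a b : U) : D (a * b) = a * D b + b * D a := by
  rw [Derivation.leibniz, smul_eq_mul, smul_eq_mul]

lemma D_smul (D : Derivation ℂ U U) (c : ℂ) (a : U) : D (c • a) = c • D a :=
  D.toLinearMap.map_smul c a

lemma D_pow (D : Derivation ℂ U U) (a : U) (n : ℕ) : D (a ^ n) = n * a ^ (n - 1) * D a := by
  rw [Derivation.leibniz_pow, smul_eq_mul, nsmul_eq_mul]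
  ring

lemma dz_K : dz vK = 0 := by
  unfold vK
  rw [map_sub, map_sub, D_mul, D_mul, D_pow, D_pow, D_ofNat, dz_X, dz_Y, dz_G]
  push_cast
  ring

lemma de_K : de vK = 0 := by
  unfold vK
  rw [map_sub, map_sub, D_mul, D_mul, D_pow, D_pow, D_ofNat, de_X, de_Y, de_G]
  push_cast
  ring

lemma dt_K : dt vK = 12 * vG ^ 2 := by
  have h : dt vK = dt (vX ^ 3 - 3 * vG * vX - vY ^ 2) := rfl
  rw [h, map_sub, map_sub, D_mul, D_mul, D_pow, D_pow, D_ofNat, dt_X, dt_Y, dt_G]
  unfold vK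
  push_cast
  ring

/-- commutators of derivations are determined by the variables -/
lemma ext4 {D₁ D₂ : Derivation ℂ U U} (h0 : D₁ vE = D₂ vE) (h1 : D₁ vX = D₂ vX)
    (h2 : D₁ vY = D₂ vY) (h3 : D₁ vG = D₂ vG) (u : U) : D₁ u = D₂ u := by
  have : D₁ = D₂ := by
    refine MvPolynomial.derivation_ext fun i => ?_
    fin_cases i
    · exact h0
    · exact h1
    · exact h2
    · exact h3
  rw [this]

lemma dt_dz (u : U) : dt (dz u) = dz (dt u) + vG * de u := by
  have h : ∀ u : U, ⁅dt, dz⁆ u = (vG • de) u := by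
    refine ext4 ?_ ?_ ?_ ?_
    · rw [Derivation.commutator_apply, Derivation.smul_apply, dz_E, dt_E, map_neg, map_neg, map_add,
        D_mul, dt_X, dz_E, dz_X, dz_Y, de_E, smul_eq_mul]
      ring
    · rw [Derivation.commutator_apply, Derivation.smul_apply, dz_X, dt_X, map_sub, map_add,
        D_mul, D_mul, D_mul, D_mul, D_mul, D_pow, dt_Y, dz_E, dz_X, dz_Y, dz_G, de_X, D_ofNat, D_ofNat,
        D_ofNat, smul_eq_mul]
      push_cast
      ring
    · rw [Derivation.commutator_apply, Derivation.smul_apply, dz_Y, dt_Y, map_sub, map_add,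
        D_mul, D_mul, D_mul, D_mul, D_mul, D_pow, map_sub, D_mul, D_mul, D_pow, dt_X, dt_G, dz_E, dz_X,
        dz_Y, dz_G, de_Y, D_ofNat dt, D_ofNat dz, smul_eq_mul]
      unfold vK
      push_cast
      ring
    · rw [Derivation.commutator_apply, Derivation.smul_apply, dz_G, dt_G, D_mul, dz_K, de_G,
        D_ofNat, smul_eq_mul, map_zero]
      ring
  have h1 := h u
  rw [Derivation.commutator_apply, Derivation.smul_apply, smul_eq_mul] at h1
  linear_combination h1

lemma de_dz (u : U) : de (dz u) = dz (de u) := by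
  have h : ∀ u : U, ⁅de, dz⁆ u = (0 : Derivation ℂ U U) u := by
    refine ext4 ?_ ?_ ?_ ?_
    · rw [Derivation.commutator_apply, dz_E, de_E, map_neg, de_X, Derivation.map_one_eq_zero]
      simp
    · rw [Derivation.commutator_apply, dz_X, de_X, D_mul, de_Y, D_ofNat]
      simp
    · rw [Derivation.commutator_apply, dz_Y, de_Y, map_sub, D_mul, D_mul, D_pow, de_X, de_G,
        D_ofNat]
      simp
    · rw [Derivation.commutator_apply, dz_G, de_G]
      simp
  have h1 := h u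
  rw [Derivation.commutator_apply] at h1
  have h2 : (0 : Derivation ℂ U U) u = 0 := rfl
  rw [h2] at h1
  linear_combination h1

/-! ### the series -/

/-- `w ^ 2 ℘(w)`, `w ^ 3 ℘'(w) / 2`, `w ζ(w)` over the universal ring -/
noncomputable abbrev P₀ : U⟦X⟧ := sP vG vK
noncomputable abbrev Q₀ : U⟦X⟧ := sQ vG vK
noncomputable abbrev Z₀ : U⟦X⟧ := sZ vG vK

lemma D_cc {D : Derivation ℂ U U} (hG : D vG = 0) (hK : D vK = 0) (n : ℕ) :
    D (cc vG vK n) = 0 := by
  induction n using Nat.strong_induction_on with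
  | _ n ih =>
    rcases Nat.lt_or_ge n 7 with hn | hn
    · interval_cases n
      · rw [cc_zero, Derivation.map_one_eq_zero]
      · rw [cc_one, map_zero]
      · rw [cc_two, map_zero]
      · rw [cc_three, map_zero]
      · rw [cc_four, D_smul, hG, smul_zero]
      · rw [cc_five, map_zero]
      · rw [cc_six, D_smul, hK, smul_zero]
    · rw [cc_big _ _ hn, D_smul, map_sum, Finset.sum_eq_zero, smul_zero]
      intro j hj
      have hj' := Finset.mem_range.1 hj
      split_ifs with h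
      · exact map_zero D
      · rw [D_mul, ih j hj', ih (n - j) (by omega), mul_zero, mul_zero, add_zero]

lemma hat_P {D : Derivation ℂ U U} (hG : D vG = 0) (hK : D vK = 0) : hat D P₀ = 0 := by
  ext n
  rw [coeff_hat, coeff_sP, D_cc hG hK, map_zero]

lemma hat_Q {D : Derivation ℂ U U} (hG : D vG = 0) (hK : D vK = 0) : hat D Q₀ = 0 := by
  ext n
  rw [coeff_hat, coeff_sQ, D_smul, D_cc hG hK, smul_zero, map_zero]

lemma hat_Z {D : Derivation ℂ U U} (hG : D vG = 0) (hK : D vK = 0) : hat D Z₀ = 0 := by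
  ext n
  rw [coeff_hat, coeff_sZ, D_smul, D_cc hG hK, smul_zero, map_zero]

lemma c0P : coeff 0 P₀ = 1 := by rw [coeff_sP, cc_zero]
lemma c1P : coeff 1 P₀ = 0 := by rw [coeff_sP, cc_one]
lemma c3P : coeff 3 P₀ = 0 := by rw [coeff_sP, cc_three]
lemma c0Q : coeff 0 Q₀ = -1 := by rw [coeff_sQ, cc_zero, Algebra.smul_def]; norm_num
lemma c1Q : coeff 1 Q₀ = 0 := by rw [coeff_sQ, cc_one, smul_zero]
lemma c3Q : coeff 3 Q₀ = 0 := by rw [coeff_sQ, cc_three, smul_zero]
lemma c0Z : coeff 0 Z₀ = 1 := by rw [coeff_sZ, cc_zero, Algebra.smul_def]; norm_num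
lemma c1Z : coeff 1 Z₀ = 0 := by rw [coeff_sZ, cc_one, smul_zero]
lemma c2Z : coeff 2 Z₀ = 0 := by rw [coeff_sZ, cc_two, smul_zero]
lemma c3Z : coeff 3 Z₀ = 0 := by rw [coeff_sZ, cc_three, smul_zero]

lemma Xne : (X : U⟦X⟧) ≠ 0 := X_ne_zero

/-- the heat equation for `℘` -/
theorem heatP : X ^ 2 * hat dt P₀ = 2 * Z₀ * Q₀ + 2 * P₀ ^ 2 - C (4 * vG) * X ^ 4 := by
  have hQP : 2 * hat dt Q₀ = th (hat dt P₀) - 2 * hat dt P₀ := by
    have h := congrArg (hat dt) (th_sP vG vK)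
    rw [hat_th, hat_add, hat_mul, hat_mul, hat_ofNat] at h
    linear_combination -h
  have hint : 2 * Q₀ * hat dt Q₀ = 3 * P₀ ^ 2 * hat dt P₀ - C (6 * vK) * X ^ 4 * P₀ -
      C (3 * vG) * X ^ 4 * hat dt P₀ - C (12 * vG ^ 2) * X ^ 6 := by
    have h := congrArg (hat dt) (sQ_sq vG vK)
    rw [hat_sub, hat_sub, hat_mul, hat_mul, hat_mul, hat_pow, hat_pow, hat_pow, hat_pow, hat_X,
      hat_C, hat_C, dt_K, D_mul, D_ofNat, dt_G] at h
    have e1 : (3 * (2 * vK) + vG * 0 : U) = 6 * vK := by ring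
    rw [e1] at h
    push_cast at h
    linear_combination h
  have hthP := th_sP vG vK
  have hthQ := th_sQ vG vK
  have hthZ := th_sZ vG vK
  have hsq := sQ_sq vG vK
  have hth4 : th (C (4 * vG) * X ^ 4 : U⟦X⟧) = 4 * (C (4 * vG) * X ^ 4) := by
    rw [th_mul, th_C, th_pow, th_X]
    push_cast
    ring
  set W : U⟦X⟧ := X ^ 2 * hat dt P₀ - 2 * Z₀ * Q₀ - 2 * P₀ ^ 2 + C (4 * vG) * X ^ 4 with hW
  have e3 : (C (3 * vG) : U⟦X⟧) = 3 * C vG := by rw [map_mul, map_ofNat]
  have e4 : (C (4 * vG) : U⟦X⟧) = 4 * C vG := by rw [map_mul, map_ofNat]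
  have e6 : (C (6 * vK) : U⟦X⟧) = 6 * C vK := by rw [map_mul, map_ofNat]
  have e12 : (C (12 * vG ^ 2) : U⟦X⟧) = 12 * C vG ^ 2 := by rw [map_mul, map_ofNat, map_pow]
  have hthW : th W = 2 * X ^ 2 * hat dt P₀ + X ^ 2 * th (hat dt P₀) -
      2 * ((Z₀ - P₀) * Q₀ + Z₀ * (3 * Q₀ + 3 * P₀ ^ 2 - C (3 * vG) * X ^ 4)) -
      4 * P₀ * (2 * P₀ + 2 * Q₀) + 4 * (C (4 * vG) * X ^ 4) := by
    rw [hW, th_add, th_sub, th_sub, hth4, th_mul, th_mul, th_mul, th_mul, th_pow, th_pow, th_X,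
      hthP, hthQ, hthZ, th_ofNat]
    push_cast
    ring
  have key : W = 0 := by
    refine uniq dt Q₀ (4 * Q₀ + 3 * (P₀ ^ 2 - C vG * X ^ 4)) 0 W (-1) (-1) ?_ ?_ 1 ?_ ?_ ?_
    · rw [c0Q]; simp
    · simp only [coeff_zero_eq_constantCoeff, map_add, map_mul, map_sub, map_pow]
      have h1 : constantCoeff Q₀ = -1 := by rw [← coeff_zero_eq_constantCoeff, c0Q]
      have h2 : constantCoeff P₀ = 1 := by rw [← coeff_zero_eq_constantCoeff, c0P]
      rw [h1, h2, map_ofNat, map_ofNat]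
      simp
      norm_num
    · intro n hn h
      apply hn
      have : (n : ℂ) = 1 := by linear_combination -h
      exact_mod_cast this
    · rw [hW, map_add, map_sub, map_sub]
      have h1 : coeff 1 (X ^ 2 * hat dt P₀) = 0 := by rw [coeff_X_pow_mul']; simp
      have h2 : coeff 1 (2 * Z₀ * Q₀) = 0 := by
        have e : (2 : U⟦X⟧) = C 2 := (map_ofNat C 2).symm
        rw [mul_assoc, e, coeff_C_mul, coeff_mul]
        simp [Finset.Nat.antidiagonal_succ, coeff_sZ, coeff_sQ, cc_one]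
      have h3 : coeff 1 (2 * P₀ ^ 2) = 0 := by
        have e : (2 : U⟦X⟧) = C 2 := (map_ofNat C 2).symm
        rw [e, coeff_C_mul, sq, coeff_mul]
        simp [Finset.Nat.antidiagonal_succ, coeff_sP, cc_one]
      have h4 : coeff 1 (C (4 * vG) * X ^ 4 : U⟦X⟧) = 0 := by
        rw [coeff_C_mul, coeff_X_pow]
        simp
      rw [h1, h2, h3, h4]
      ring
    · rw [hthW, hW, zero_mul, mul_zero, add_zero, e3, e4]
      rw [e3, e6, e12] at hint
      rw [e3] at hsq
      linear_combination X ^ 2 * hint - X ^ 2 * Q₀ * hQP - 6 * P₀ * hsq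
  rw [hW] at key
  linear_combination key

end Pool.Agent.Y690.NV
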