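import Pool.Agent.Y690.X.Heat

/-!
# The heat equation for the Kronecker function, formal version, second part
-/

set_option autoImplicit false

namespace Pool.Agent.Y690.NV

open PowerSeries

lemma Cofn (n : ℕ) [n.AtLeastTwo] (u : U) : (C (OfNat.ofNat n * u) : U⟦X⟧) = OfNat.ofNat n * C u := by
  rw [map_mul, map_ofNat]

/-- the heat equation for `ζ` -/
theorem heatZ : X ^ 2 * hat dt Z₀ = -(Z₀ * P₀) - Q₀ + C vG * X ^ 4 := by
  have hthP := th_sP vG vK
  have hthQ := th_sQ vG vK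
  have hthZ := th_sZ vG vK
  have hZ2 : th (hat dt Z₀) = hat dt Z₀ - hat dt P₀ := by
    have h := congrArg (hat dt) hthZ
    rwa [hat_th, hat_sub] at h
  have hP := heatP
  rw [Cofn 4] at hP
  rw [Cofn 3] at hthQ
  set W : U⟦X⟧ := X ^ 2 * hat dt Z₀ + Z₀ * P₀ + Q₀ - C vG * X ^ 4 with hW
  have hthW : th W = 2 * X ^ 2 * hat dt Z₀ + X ^ 2 * th (hat dt Z₀) +
      ((Z₀ - P₀) * P₀ + Z₀ * (2 * P₀ + 2 * Q₀)) + (3 * Q₀ + 3 * P₀ ^ 2 - 3 * C vG * X ^ 4) -
      4 * (C vG * X ^ 4) := by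
    rw [hW, th_sub, th_add, th_add, th_mul, th_mul, th_mul, th_pow, th_pow, th_X, th_C,
      hthP, hthQ, hthZ]
    push_cast
    ring
  have key : W = 0 := by
    refine uniq dt 1 3 0 W 1 3 (by simp) ?_ 3 ?_ ?_ ?_
    · rw [← map_ofNat (C : U →+* U⟦X⟧) 3, coeff_C, if_pos rfl, map_ofNat]
    · intro n hn h
      apply hn
      have : (n : ℂ) = 3 := by linear_combination h
      exact_mod_cast this
    · rw [hW, map_sub, map_add, map_add]
      have h1 : coeff 3 (X ^ 2 * hat dt Z₀) = 0 := by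
        rw [coeff_X_pow_mul']
        simp [coeff_hat, coeff_sZ, cc_one]
      have h2 : coeff 3 (Z₀ * P₀) = 0 := by
        rw [coeff_mul]
        simp [Finset.Nat.antidiagonal_succ, coeff_sZ, coeff_sP, cc_one, cc_two, cc_three]
      have h4 : coeff 3 (C vG * X ^ 4 : U⟦X⟧) = 0 := by
        rw [coeff_C_mul, coeff_X_pow]
        simp
      rw [h1, h2, h4, c3Q]
      ring
    · rw [hthW, hW, hZ2]
      linear_combination -hP
  rw [hW] at key
  linear_combination key

/-! ### the Kronecker function -/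

/-- the coefficients of `w F(w)` -/
noncomputable def ph (n : ℕ) : U :=
  if n = 0 then 1 else (1 / (n : ℂ)) • (dz (ph (n - 1)) + vE * ph (n - 1) -
    ∑ j : Fin n, coeff (j.1 + 1) Z₀ * ph (n - (j.1 + 1)))
termination_by n
decreasing_by
  all_goals omega

lemma ph_zero : ph 0 = 1 := by rw [ph]; simp

lemma ph_succ (n : ℕ) : ((n + 1 : ℕ) : ℂ) • ph (n + 1) = dz (ph n) + vE * ph n -
    ∑ j ∈ Finset.range (n + 1), coeff (j + 1) Z₀ * ph (n - j) := by
  have hn : ((n + 1 : ℕ) : ℂ) ≠ 0 := by exact_mod_cast n.succ_ne_zero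
  rw [ph, if_neg (Nat.succ_ne_zero n), smul_smul, mul_one_div_cancel hn, one_smul,
    Nat.add_sub_cancel, Finset.sum_range]
  congr 1
  refine Finset.sum_congr rfl fun j _ => ?_
  rw [Nat.add_sub_add_right]

/-- `w F(w)` -/
noncomputable def Φ : U⟦X⟧ := PowerSeries.mk ph

lemma coeff_Φ (n : ℕ) : coeff n Φ = ph n := coeff_mk _ _

theorem th_Φ : th Φ = Φ - Z₀ * Φ + X * (hat dz Φ + C vE * Φ) := by
  refine PowerSeries.ext fun n => ?_
  rw [coeff_th, map_add, map_sub, coeff_Φ, coeff_mul]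
  cases n with
  | zero => simp [coeff_sZ, cc_zero, coeff_Φ]
  | succ n =>
    have h := ph_succ n
    rw [Algebra.smul_def, map_natCast] at h
    rw [coeff_succ_X_mul, map_add, coeff_hat, coeff_C_mul, coeff_Φ, h,
      Finset.Nat.sum_antidiagonal_eq_sum_range_succ (fun i j => coeff i Z₀ * coeff j Φ),
      Finset.sum_range_succ' _ (n + 1)]
    have e0 : coeff 0 Z₀ * coeff (n + 1 - 0) Φ = ph (n + 1) := by
      rw [c0Z, one_mul, Nat.sub_zero, coeff_Φ]
    rw [e0]
    have e1 : ∑ k ∈ Finset.range (n + 1), coeff (k + 1) Z₀ * coeff (n + 1 - (k + 1)) Φ =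
        ∑ j ∈ Finset.range (n + 1), coeff (j + 1) Z₀ * ph (n - j) := by
      refine Finset.sum_congr rfl fun j _ => ?_
      rw [coeff_Φ, Nat.add_sub_add_right]
    rw [e1]
    ring

theorem de_Φ : hat de Φ = X * Φ := by
  have h1 := th_Φ
  have h2 := congrArg (hat de) h1
  rw [hat_th, hat_add, hat_sub, hat_mul, hat_mul, hat_add, hat_mul, hat_X, hat_C, de_E,
    hat_Z de_G de_K] at h2
  have h3 : hat de (hat dz Φ) = hat dz (hat de Φ) := by
    ext n
    rw [hat_hat, hat_hat, de_dz]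
  rw [h3, map_one] at h2
  have key : hat de Φ - X * Φ = 0 := by
    refine uniq dz 1 (1 - Z₀ + X * C vE) 1 _ 1 0 (by simp) ?_ 0 ?_ ?_ ?_
    · rw [map_add, map_sub, c0Z]
      simp
    · intro n hn h
      apply hn
      have : (n : ℂ) = 0 := by linear_combination h
      exact_mod_cast this
    · rw [map_sub, coeff_hat, coeff_Φ, ph_zero, Derivation.map_one_eq_zero]
      simp
    · rw [th_sub, th_mul, th_X, hat_sub, hat_mul, hat_X]
      linear_combination h2 - X * h1
  linear_combination key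

/-- the addition theorem -/
theorem add_Φ : X * (X ^ 2 * C vX - P₀) * hat dz Φ =
    (Z₀ * (X ^ 2 * C vX - P₀) + (X ^ 3 * C vY - Q₀)) * Φ := by
  have h1 := th_Φ
  have h2 := congrArg (hat dz) h1
  rw [hat_th, hat_add, hat_sub, hat_mul, hat_mul, hat_add, hat_mul, hat_X, hat_C, dz_E,
    hat_Z dz_G dz_K, map_neg] at h2
  have hthP := th_sP vG vK
  have hthQ := th_sQ vG vK
  have hthZ := th_sZ vG vK
  have hsq := sQ_sq vG vK
  rw [Cofn 3] at hthQ hsq
  have hY : (C vY : U⟦X⟧) ^ 2 = C vX ^ 3 - 3 * C vG * C vX - C vK := by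
    rw [← map_pow, ← map_pow, ← Cofn 3, ← map_mul, ← map_sub, ← map_sub]
    congr 1
    unfold vK
    ring
  have hzX : hat dz (C vX : U⟦X⟧) = 2 * C vY := by rw [hat_C, dz_X, Cofn 2]
  have hzY : hat dz (C vY : U⟦X⟧) = 3 * C vX ^ 2 - 3 * C vG := by
    rw [hat_C, dz_Y, map_sub, Cofn 3, Cofn 3, map_pow]
  set K : U⟦X⟧ := X * (X ^ 2 * C vX - P₀) * hat dz Φ -
    (Z₀ * (X ^ 2 * C vX - P₀) + (X ^ 3 * C vY - Q₀)) * Φ with hK
  have hthK : th K = X * (X ^ 2 * C vX - P₀) * hat dz Φ +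
      X * (2 * X ^ 2 * C vX - (2 * P₀ + 2 * Q₀)) * hat dz Φ +
      X * (X ^ 2 * C vX - P₀) * th (hat dz Φ) -
      ((Z₀ - P₀) * (X ^ 2 * C vX - P₀) + Z₀ * (2 * X ^ 2 * C vX - (2 * P₀ + 2 * Q₀)) +
        (3 * X ^ 3 * C vY - (3 * Q₀ + 3 * P₀ ^ 2 - 3 * C vG * X ^ 4))) * Φ -
      (Z₀ * (X ^ 2 * C vX - P₀) + (X ^ 3 * C vY - Q₀)) * th Φ := by
    rw [hK, th_sub, th_mul, th_mul, th_mul, th_add, th_mul, th_sub, th_sub, th_mul, th_mul, th_C,
      th_C, th_pow, th_pow, th_X, hthP, hthQ, hthZ]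
    push_cast
    ring
  have hzK : hat dz K = X * (X ^ 2 * (2 * C vY)) * hat dz Φ +
      X * (X ^ 2 * C vX - P₀) * hat dz (hat dz Φ) -
      (Z₀ * (X ^ 2 * (2 * C vY)) + X ^ 3 * (3 * C vX ^ 2 - 3 * C vG)) * Φ -
      (Z₀ * (X ^ 2 * C vX - P₀) + (X ^ 3 * C vY - Q₀)) * hat dz Φ := by
    rw [hK, hat_sub, hat_mul, hat_mul, hat_mul, hat_add, hat_mul, hat_sub, hat_sub, hat_mul,
      hat_mul, hzX, hzY, hat_pow, hat_pow, hat_X, hat_P dz_G dz_K, hat_Q dz_G dz_K,
      hat_Z dz_G dz_K]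
    push_cast
    ring
  have key : K = 0 := by
    refine uniq dz (X ^ 2 * C vX - P₀) ((X ^ 2 * C vX - P₀) * (1 - Z₀ + X * C vE) +
      (3 * (X ^ 2 * C vX - P₀) - 2 * Q₀ - 2 * X ^ 3 * C vY)) (X ^ 2 * C vX - P₀) K (-1) (-1)
      ?_ ?_ 1 ?_ ?_ ?_
    · rw [map_sub, c0P]
      simp
    · simp only [coeff_zero_eq_constantCoeff, map_add, map_mul, map_sub, map_pow]
      have h1 : constantCoeff Q₀ = -1 := by rw [← coeff_zero_eq_constantCoeff, c0Q]
      have h2 : constantCoeff P₀ = 1 := by rw [← coeff_zero_eq_constantCoeff, c0P]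
      have h3 : constantCoeff Z₀ = 1 := by rw [← coeff_zero_eq_constantCoeff, c0Z]
      rw [h1, h2, h3, map_ofNat, map_ofNat]
      simp
      norm_num
    · intro n hn h
      apply hn
      have : (n : ℂ) = 1 := by linear_combination -h
      exact_mod_cast this
    · have e1 : coeff 1 (X * (X ^ 2 * C vX - P₀) * hat dz Φ) = 0 := by
        rw [mul_assoc, coeff_succ_X_mul, coeff_mul]
        simp [coeff_hat, coeff_Φ, ph_zero]
      have e2 : coeff 0 (Z₀ * (X ^ 2 * C vX - P₀) + (X ^ 3 * C vY - Q₀)) = 0 := by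
        rw [map_add, map_sub, c0Q, coeff_mul]
        simp [coeff_sZ, coeff_sP, cc_zero]
      have e3 : coeff 1 (Z₀ * (X ^ 2 * C vX - P₀) + (X ^ 3 * C vY - Q₀)) = 0 := by
        rw [map_add, map_sub, c1Q, coeff_mul]
        simp [Finset.Nat.antidiagonal_succ, coeff_sZ, coeff_sP, cc_zero, cc_one]
      rw [hK, map_sub, e1, coeff_mul]
      simp only [Finset.Nat.antidiagonal_succ, Finset.Nat.antidiagonal_zero, Finset.map_singleton,
        Finset.sum_cons, Finset.sum_singleton, Function.Embedding.prodMap, 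
        Function.Embedding.coeFn_mk, Prod.map]
      simp [e2, e3]
    · rw [hthK, hzK]
      rw [hK]
      linear_combination (X ^ 2 * C vX - P₀) ^ 2 * X * h2 - (X ^ 2 * C vX - P₀) *
        (Z₀ * (X ^ 2 * C vX - P₀) + (X ^ 3 * C vY - Q₀)) * h1 + 2 * Φ * hsq -
        2 * X ^ 6 * Φ * hY
  rw [hK] at key
  linear_combination key

/-- the heat equation for the Kronecker function -/
theorem heatΦ : X * hat dt Φ = th (hat dz Φ) - hat dz Φ := by
  have h1 := th_Φ
  have h2 := congrArg (hat dz) h1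
  have hψ := congrArg (hat dt) h1
  rw [hat_th, hat_add, hat_sub, hat_mul, hat_mul, hat_add, hat_mul, hat_X, hat_C, dz_E,
    hat_Z dz_G dz_K, map_neg] at h2
  have h3 := congrArg (hat dz) h2
  have hzX : hat dz (C vX : U⟦X⟧) = 2 * C vY := by rw [hat_C, dz_X, Cofn 2]
  have hzE : hat dz (C vE : U⟦X⟧) = -C vX := by rw [hat_C, dz_E, map_neg]
  have hzZ : hat dz Z₀ = 0 := hat_Z dz_G dz_K
  rw [hat_th] at h3
  simp only [hat_add, hat_sub, hat_mul, hat_neg, hat_X, hzX, hzE, hzZ] at h3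
  have h0 : hat dz (0 : U⟦X⟧) = 0 := by
    refine PowerSeries.ext fun n => ?_
    rw [coeff_hat, map_zero, map_zero]
  rw [h0] at h3
  have hc : hat dt (hat dz Φ) = hat dz (hat dt Φ) + C vG * (X * Φ) := by
    rw [← de_Φ]
    refine PowerSeries.ext fun n => ?_
    rw [map_add, coeff_C_mul, hat_hat, hat_hat, coeff_hat, dt_dz]
  rw [hat_th, hat_add, hat_sub, hat_mul, hat_mul, hat_add, hat_mul, hat_X, hat_C, dt_E, hc,
    map_neg, map_add, map_mul] at hψ
  have hthZ := th_sZ vG vK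
  set Hh : U⟦X⟧ := X * hat dt Φ + Z₀ * hat dz Φ - X * (hat dz (hat dz Φ) - C vX * Φ +
    C vE * hat dz Φ) with hH
  have hthH : th Hh = X * hat dt Φ + X * th (hat dt Φ) + (Z₀ - P₀) * hat dz Φ +
      Z₀ * th (hat dz Φ) - X * (hat dz (hat dz Φ) - C vX * Φ + C vE * hat dz Φ) -
      X * (th (hat dz (hat dz Φ)) - C vX * th Φ + C vE * th (hat dz Φ)) := by
    rw [hH, th_sub, th_add, th_mul, th_mul, th_mul, th_add, th_sub, th_mul, th_mul, th_C, th_C,
      th_X, hthZ]
    ring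
  have hzH : hat dz Hh = X * hat dz (hat dt Φ) + Z₀ * hat dz (hat dz Φ) -
      X * (hat dz (hat dz (hat dz Φ)) - (2 * C vY * Φ + C vX * hat dz Φ) +
        (-C vX * hat dz Φ + C vE * hat dz (hat dz Φ))) := by
    rw [hH, hat_sub, hat_add, hat_mul, hat_mul, hat_mul, hat_add, hat_sub, hat_mul, hat_mul, hzX,
      hzE, hzZ, hat_X]
    ring
  have hadd := add_Φ
  have hheat := heatZ
  have key : Hh = 0 := by
    refine uniq dz 1 (2 - Z₀ + X * C vE) 1 Hh 1 1 (by simp) ?_ 1 ?_ ?_ ?_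
    · simp only [coeff_zero_eq_constantCoeff, map_add, map_mul, map_sub]
      have h3 : constantCoeff Z₀ = 1 := by rw [← coeff_zero_eq_constantCoeff, c0Z]
      rw [h3, map_ofNat]
      simp
      norm_num
    · intro n hn h
      apply hn
      have : (n : ℂ) = 1 := by linear_combination h
      exact_mod_cast this
    · have e1 : Hh = X * hat dt Φ - th (hat dz Φ) + hat dz Φ := by
        rw [hH]
        linear_combination h2
      rw [e1, map_add, map_sub, coeff_succ_X_mul, coeff_th, coeff_hat, coeff_hat, coeff_Φ,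
        ph_zero, Derivation.map_one_eq_zero]
      push_cast
      ring
    · refine mul_left_cancel₀ Xne ?_
      rw [hthH, hzH]
      rw [hH]
      linear_combination X ^ 2 * hψ + X * (Z₀ - X * C vE) * h2 - X ^ 2 * h3 +
        X ^ 2 * C vX * h1 + hadd - Φ * hheat
  rw [hH] at key
  linear_combination key - h2

lemma ph_one : ph 1 = vE := by
  have h := ph_succ 0
  have e : coeff 1 Z₀ = 0 := c1Z
  simp [ph_zero, e] at h
  exact h

lemma dt_ph (n : ℕ) : dt (ph n) = n * dz (ph (n + 1)) := by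
  have h := congrArg (coeff (n + 1)) heatΦ
  rw [map_sub, coeff_succ_X_mul, coeff_th, coeff_hat, coeff_hat, coeff_Φ, coeff_Φ] at h
  rw [h]
  push_cast
  ring

lemma de_ph (n : ℕ) : de (ph (n + 1)) = ph n := by
  have h := congrArg (coeff (n + 1)) de_Φ
  rwa [coeff_succ_X_mul, coeff_hat, coeff_Φ, coeff_Φ] at h

lemma de_iter (n : ℕ) (u : U) : de (dz^[n] u) = dz^[n] (de u) := by
  induction n generalizing u with
  | zero => rfl
  | succ n ih => rw [Function.iterate_succ_apply, Function.iterate_succ_apply, ih, de_dz]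

lemma D_natCast_mul (D : Derivation ℂ U U) (n : ℕ) (u : U) : D ((n : U) * u) = n * D u := by
  rw [D_mul, Derivation.map_natCast, mul_zero, add_zero]

lemma iter_dt (n : ℕ) (u : U) :
    dz^[n] (dt u) = dt (dz^[n] u) - n * (vG * dz^[n - 1] (de u)) := by
  induction n with
  | zero => simp
  | succ n ih =>
    rw [Function.iterate_succ_apply', ih, map_sub, D_natCast_mul, D_mul, dz_G,
      Function.iterate_succ_apply', dt_dz, de_iter, Nat.add_sub_cancel]
    cases n with
    | zero =>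
      simp
    | succ n =>
      rw [Nat.add_sub_cancel, ← Function.iterate_succ_apply' dz n]
      push_cast
      ring

lemma iter_nat (n m : ℕ) (u : U) : dz^[n] ((m : U) * u) = m * dz^[n] u := by
  induction n with
  | zero => rfl
  | succ n ih => rw [Function.iterate_succ_apply', ih, D_natCast_mul,
      Function.iterate_succ_apply']

/-- `n!` times the `n`-th Eisenstein-Kronecker polynomial -/
noncomputable def Dn (n : ℕ) : U := (n.factorial : U) * dz^[n] (ph (n + 1))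

lemma Dn_zero : Dn 0 = vE := by
  unfold Dn
  rw [Function.iterate_zero, id, ph_one]
  simp

lemma Dn_one : Dn 1 = dt vE := by
  have h := dt_ph 1
  rw [ph_one] at h
  unfold Dn
  rw [h, Function.iterate_one]
  simp

/-- **the recursion** -/
theorem Dn_rec (n : ℕ) : Dn (n + 2) = dt (Dn (n + 1)) - (n + 1) ^ 2 * (vG * Dn n) := by
  have h1 := dt_ph (n + 2)
  have h2 : Dn (n + 2) = ((n + 1).factorial : U) * dz^[n + 1] (dt (ph (n + 2))) := by
    unfold Dn
    rw [h1, iter_nat, ← Function.iterate_succ_apply dz (n + 1), Nat.factorial_succ (n + 1)]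
    push_cast
    ring
  rw [h2, iter_dt, de_ph, Nat.add_sub_cancel]
  unfold Dn
  rw [D_natCast_mul, Nat.factorial_succ n]
  push_cast
  ring

end Pool.Agent.Y690.NV
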