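import Pool.Agent.Y690.X.Heat2
import Pool.Agent.TH936.CW.Eone

/-!
# The Eisenstein-Kronecker polynomials of a lattice and the universal ones
-/

set_option autoImplicit false

open Filter
open scoped Topology PeriodPair

namespace Pool.Agent.Y690.NV

open PowerSeries H667R3 Pool.Agent.TH936.CW

/-- the Taylor series at `0` -/
noncomputable def Ty (f : ℂ → ℂ) : ℂ⟦X⟧ :=
  PowerSeries.mk fun n => iteratedDeriv n f 0 / (n.factorial : ℂ)

lemma coeff_Ty (n : ℕ) (f : ℂ → ℂ) : coeff n (Ty f) = iteratedDeriv n f 0 / (n.factorial : ℂ) :=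
  coeff_mk _ _

lemma fne (n : ℕ) : (n.factorial : ℂ) ≠ 0 := by exact_mod_cast n.factorial_ne_zero

lemma Ty_congr {f g : ℂ → ℂ} (h : f =ᶠ[𝓝 0] g) : Ty f = Ty g := by
  ext n
  rw [coeff_Ty, coeff_Ty, h.iteratedDeriv_eq n]

lemma Ty_add {f g : ℂ → ℂ} (hf : AnalyticAt ℂ f 0) (hg : AnalyticAt ℂ g 0) :
    Ty (fun z => f z + g z) = Ty f + Ty g := by
  ext n
  have : iteratedDeriv n (fun z => f z + g z) 0 = iteratedDeriv n f 0 + iteratedDeriv n g 0 :=
    iteratedDeriv_add (cd hf n) (cd hg n)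
  rw [coeff_Ty, map_add, coeff_Ty, coeff_Ty, this]
  ring

lemma Ty_mul {f g : ℂ → ℂ} (hf : AnalyticAt ℂ f 0) (hg : AnalyticAt ℂ g 0) :
    Ty (fun z => f z * g z) = Ty f * Ty g := by
  ext n
  have h1 : iteratedDeriv n (fun z => f z * g z) 0 = ∑ i ∈ Finset.range (n + 1),
      n.choose i * iteratedDeriv i f 0 * iteratedDeriv (n - i) g 0 :=
    iteratedDeriv_mul (cd hf n) (cd hg n)
  rw [coeff_Ty, coeff_mul, h1, Finset.Nat.sum_antidiagonal_eq_sum_range_succ
    (fun i j => coeff i (Ty f) * coeff j (Ty g)), Finset.sum_div]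
  refine Finset.sum_congr rfl fun i hi => ?_
  have hi' : i ≤ n := by
    have := Finset.mem_range.1 hi
    omega
  rw [coeff_Ty, coeff_Ty, Nat.cast_choose ℂ hi']
  have := fne n
  have := fne i
  have := fne (n - i)
  field_simp

lemma Ty_const (a : ℂ) : Ty (fun _ => a) = C a := by
  ext n
  rw [coeff_Ty, iteratedDeriv_const, coeff_C]
  split_ifs with h
  · rw [h]; simp
  · simp

lemma Ty_id : Ty (fun z => z) = X := by
  ext n
  rw [coeff_Ty, iteratedDeriv_fun_id_zero, coeff_X]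
  split_ifs with h
  · rw [h]; simp
  · simp

lemma Ty_cmul (a : ℂ) {f : ℂ → ℂ} (hf : AnalyticAt ℂ f 0) :
    Ty (fun z => a * f z) = C a * Ty f := by
  rw [Ty_mul analyticAt_const hf, Ty_const]

lemma Ty_zmul {f : ℂ → ℂ} (hf : AnalyticAt ℂ f 0) : Ty (fun z => z * f z) = X * Ty f := by
  rw [Ty_mul (f := fun z => z) analyticAt_id hf, Ty_id]

lemma Ty_zderiv {f : ℂ → ℂ} (hf : AnalyticAt ℂ f 0) : Ty (fun z => z * deriv f z) = th (Ty f) := by
  ext n
  rw [coeff_Ty, coeff_th, coeff_Ty, iter_zmul hf.deriv]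
  cases n with
  | zero => simp
  | succ n =>
    rw [Nat.add_sub_cancel, ← iteratedDeriv_succ', mul_div_assoc]

variable (L : PeriodPair)

lemma Ty_ode : 12 * Ty (Rw L) + 4 * th (Ty (Rw L)) =
    X ^ 2 * (th (Ty (Rw L)) ^ 2 - 4 * X ^ 2 * Ty (Rw L) ^ 3 - 12 * Ty (Rw L) ^ 2 +
      C L.g₂ * X ^ 2 * Ty (Rw L) + C L.g₂ + C L.g₃ * X ^ 2) := by
  have hR := Rw_an L
  have hR' := hR.deriv
  have h1 : Ty (fun z => 12 * Rw L z + 4 * (z * deriv (Rw L) z)) =
      12 * Ty (Rw L) + 4 * th (Ty (Rw L)) := by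
    rw [Ty_add (by fun_prop) (by fun_prop), Ty_cmul _ hR, Ty_cmul _ (by fun_prop), Ty_zderiv hR, map_ofNat,
      map_ofNat]
  rw [← h1, Ty_congr (Rw_ode L)]
  have hX : Ty (fun z => z * deriv (Rw L) z) = th (Ty (Rw L)) := Ty_zderiv hR
  rw [Ty_zmul (by fun_prop), Ty_zmul (by fun_prop), Ty_add (by fun_prop) (by fun_prop),
    Ty_add (by fun_prop) (by fun_prop), Ty_add (by fun_prop) (by fun_prop),
    Ty_add (by fun_prop) (by fun_prop), Ty_add (by fun_prop) (by fun_prop),
    Ty_mul (by fun_prop) (by fun_prop), hX, Ty_cmul _ (by fun_prop), Ty_cmul _ (by fun_prop),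
    Ty_cmul _ (by fun_prop), Ty_cmul _ (by fun_prop), Ty_zmul (by fun_prop),
    Ty_zmul (by fun_prop), Ty_zmul (by fun_prop), Ty_zmul (by fun_prop), Ty_zmul (by fun_prop),
    Ty_mul hR (by fun_prop), Ty_mul hR hR, Ty_const, Ty_id]
  have e4 : (C (-4 : ℂ) : ℂ⟦X⟧) = -4 := by rw [map_neg, map_ofNat]
  have e12 : (C (-12 : ℂ) : ℂ⟦X⟧) = -12 := by rw [map_neg, map_ofNat]
  rw [e4, e12]
  ring

/-- the expansion of `℘` -/
theorem Ty_P : 1 + X ^ 2 * Ty (Rw L) = sP (L.g₂ / 12) (L.g₃ / 4) := by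
  have hode := Ty_ode L
  have hth := th_sP (L.g₂ / 12) (L.g₃ / 4)
  have hsq := sQ_sq (L.g₂ / 12) (L.g₃ / 4)
  set s := sP (L.g₂ / 12) (L.g₃ / 4) with hs
  set t := sQ (L.g₂ / 12) (L.g₃ / 4) with ht
  set r := Ty (Rw L) with hr
  have e1 : (C (3 * (L.g₂ / 12)) : ℂ⟦X⟧) * 4 = C L.g₂ := by
    rw [← map_ofNat (C : ℂ →+* ℂ⟦X⟧) 4, ← map_mul]
    congr 1
    ring
  have e2 : (C (L.g₃ / 4) : ℂ⟦X⟧) * 4 = C L.g₃ := by
    rw [← map_ofNat (C : ℂ →+* ℂ⟦X⟧) 4, ← map_mul]
    congr 1
    ring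
  have hthr : th (1 + X ^ 2 * r) = 2 * X ^ 2 * r + X ^ 2 * th r := by
    rw [th_add, th_one, th_mul, th_pow, th_X]
    push_cast
    ring
  have key : 1 + X ^ 2 * r - s = 0 := by
    refine uniq (0 : Derivation ℂ ℂ ℂ) (X ^ 2 * th r - 2 + 2 * t)
      (2 * (X ^ 2 * th r - 2 + 2 * t) + 4 * ((1 + X ^ 2 * r) ^ 2 + (1 + X ^ 2 * r) * s + s ^ 2) -
        C L.g₂ * X ^ 4) 0 _ (-4) 4 ?_ ?_ 0 ?_ ?_ ?_
    · simp only [coeff_zero_eq_constantCoeff, map_add, map_mul, map_sub, map_pow]
      have h1 : constantCoeff t = -1 := by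
        rw [← coeff_zero_eq_constantCoeff, ht, coeff_sQ, cc_zero]; norm_num
      rw [h1, map_ofNat]
      simp
      norm_num
    · simp only [coeff_zero_eq_constantCoeff, map_add, map_mul, map_sub, map_pow]
      have h1 : constantCoeff t = -1 := by
        rw [← coeff_zero_eq_constantCoeff, ht, coeff_sQ, cc_zero]; norm_num
      have h2 : constantCoeff s = 1 := by
        rw [← coeff_zero_eq_constantCoeff, hs, coeff_sP, cc_zero]
      rw [h1, h2, map_ofNat, map_ofNat]
      simp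
      norm_num
    · intro n hn h
      have h2 : (n : ℂ) + 1 = 0 := by linear_combination (-1 / 4 : ℂ) * h
      have h3 : ((n + 1 : ℕ) : ℂ) = 0 := by push_cast; exact h2
      exact Nat.succ_ne_zero n (by exact_mod_cast h3)
    · rw [map_sub, map_add, hs, coeff_sP, cc_zero]
      simp
    · rw [th_sub, hthr, hth, zero_mul, mul_zero, add_zero]
      linear_combination (-X ^ 2) * hode + (-4) * hsq + (X ^ 4 * s) * e1 + X ^ 6 * e2
  linear_combination key

/-- the expansion of `ζ` -/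
theorem Ty_Z : 1 + X * Ty (zreg L) = sZ (L.g₂ / 12) (L.g₃ / 4) := by
  have hP := Ty_P L
  have hth := th_sZ (L.g₂ / 12) (L.g₃ / 4)
  have hz := zreg_an L
  have h1 : th (Ty (zreg L)) = -(X * Ty (Rw L)) := by
    rw [← Ty_zderiv hz]
    have h2 : (fun z => z * deriv (zreg L) z) =ᶠ[𝓝 0] fun z => (-1) * (z * Rw L z) := by
      filter_upwards [zreg_deriv L] with z hz
      rw [hz]
      ring
    have hR := Rw_an L
    rw [Ty_congr h2, Ty_cmul _ (by fun_prop), Ty_zmul (Rw_an L), map_neg, map_one]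
    ring
  have key : 1 + X * Ty (zreg L) - sZ (L.g₂ / 12) (L.g₃ / 4) = 0 := by
    refine uniq (0 : Derivation ℂ ℂ ℂ) 1 1 0 _ 1 1 (by simp) (by simp) 1 ?_ ?_ ?_
    · intro n hn h
      apply hn
      have : (n : ℂ) = 1 := by linear_combination h
      exact_mod_cast this
    · rw [map_sub, map_add, coeff_sZ, cc_one, coeff_succ_X_mul, coeff_Ty, iteratedDeriv_zero,
        zreg_zero]
      simp
    · rw [th_sub, th_add, th_one, th_mul, th_X, h1, hth]
      linear_combination -hP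
  linear_combination key

lemma Ty_M : th (Ty (Mm L 0)) = (1 - sZ (L.g₂ / 12) (L.g₃ / 4)) * Ty (Mm L 0) := by
  have hM := Mm_an L 0
  have hz := zreg_an L
  rw [← Ty_Z, ← Ty_zderiv hM]
  have h2 : (fun z => z * deriv (Mm L 0) z) =ᶠ[𝓝 0] fun z => (-1) * (z * (zreg L z * Mm L 0 z)) := by
    filter_upwards [Mm_deriv L 0] with z hz
    rw [hz]
    ring
  rw [Ty_congr h2, Ty_cmul _ (by fun_prop), Ty_zmul (by fun_prop), Ty_mul hz hM, map_neg, map_one]
  ring

/-! ### the polynomials -/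

/-- the generating series of the polynomials `Uu i / i!` -/
noncomputable def sU : PP⟦X⟧ :=
  PowerSeries.mk fun i => MvPolynomial.C (1 / (i.factorial : ℂ)) * Uu 0 L.g₂ i

lemma th_sU : th (sU L) = X * (hat (Dv 0 L.g₂) (sU L) + C (MvPolynomial.X 0) * sU L) := by
  refine PowerSeries.ext fun n => ?_
  rw [coeff_th]
  cases n with
  | zero => simp
  | succ n =>
    rw [coeff_succ_X_mul, map_add, coeff_hat, coeff_C_mul]
    unfold sU
    rw [coeff_mk, coeff_mk, Derivation.leibniz, Dv_C, smul_zero, add_zero, smul_eq_mul, Uu]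
    have h : ((n + 1 : ℕ) : PP) * MvPolynomial.C (1 / ((n + 1).factorial : ℂ)) =
        MvPolynomial.C (1 / (n.factorial : ℂ)) := by
      rw [← MvPolynomial.C_eq_coe_nat, ← map_mul, Nat.factorial_succ]
      congr 1
      have := fne n
      have h2 : ((n + 1 : ℕ) : ℂ) ≠ 0 := by exact_mod_cast n.succ_ne_zero
      push_cast at h2 ⊢
      field_simp
    linear_combination (Dv 0 L.g₂ (Uu 0 L.g₂ n) + MvPolynomial.X 0 * Uu 0 L.g₂ n) * h

/-- the ring homomorphism on power series -/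
noncomputable abbrev mC : ℂ⟦X⟧ →+* PP⟦X⟧ := PowerSeries.map (MvPolynomial.C)

lemma th_map (F : ℂ⟦X⟧) : th (mC F) = mC (th F) := by
  refine PowerSeries.ext fun n => ?_
  rw [coeff_th, coeff_map, coeff_map, coeff_th, map_mul, map_natCast]

lemma hat_map (F : ℂ⟦X⟧) : hat (Dv 0 L.g₂) (mC F) = 0 := by
  refine PowerSeries.ext fun n => ?_
  rw [coeff_hat, coeff_map, Dv_C, map_zero]

/-- the generating series -/
noncomputable def sA : PP⟦X⟧ := mC (Ty (Mm L 0)) * sU L

lemma coeff_sA (m : ℕ) : coeff m (sA L) = MvPolynomial.C (1 / (m.factorial : ℂ)) * Aa L 0 m := by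
  unfold sA Aa
  rw [mul_comm, coeff_mul, Finset.Nat.sum_antidiagonal_eq_sum_range_succ
    (fun i j => coeff i (sU L) * coeff j (mC (Ty (Mm L 0)))), Finset.mul_sum]
  refine Finset.sum_congr rfl fun i hi => ?_
  have hi' : i ≤ m := by
    have := Finset.mem_range.1 hi
    omega
  have h1 : coeff i (sU L) = MvPolynomial.C (1 / (i.factorial : ℂ)) * Uu 0 L.g₂ i := coeff_mk _ _
  have h2 : coeff (m - i) (mC (Ty (Mm L 0))) =
      MvPolynomial.C (rh L 0 (m - i) / ((m - i).factorial : ℂ)) := by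
    rw [coeff_map, coeff_Ty]
    rfl
  rw [h1, h2]
  have h3 : (1 / (i.factorial : ℂ)) * (rh L 0 (m - i) / ((m - i).factorial : ℂ)) =
      1 / (m.factorial : ℂ) * (m.choose i * rh L 0 (m - i)) := by
    rw [Nat.cast_choose ℂ hi']
    have := fne m
    have := fne i
    have := fne (m - i)
    field_simp
  have h4 : (MvPolynomial.C (1 / (i.factorial : ℂ)) : PP) * MvPolynomial.C (rh L 0 (m - i) /
      ((m - i).factorial : ℂ)) = MvPolynomial.C (1 / (m.factorial : ℂ)) *
      MvPolynomial.C (m.choose i * rh L 0 (m - i)) := by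
    rw [← map_mul, h3, map_mul]
  linear_combination (Uu 0 L.g₂ i) * h4

lemma th_sA : th (sA L) = sA L - mC (sZ (L.g₂ / 12) (L.g₃ / 4)) * sA L +
    X * (hat (Dv 0 L.g₂) (sA L) + C (MvPolynomial.X 0) * sA L) := by
  unfold sA
  rw [th_mul, th_map, Ty_M, th_sU, hat_mul, hat_map, map_mul, map_sub, map_one]
  ring

lemma sA_zero : coeff 0 (sA L) = 1 := by
  have h : Mm L 0 0 = 1 := by
    unfold Mm
    rw [Tt_zero, inv_one]
  rw [coeff_sA]
  unfold Aa rh
  simp [Uu, h]

/-! ### evaluation -/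

variable (q : ℂ)

/-- the value of a universal polynomial -/
noncomputable def evU (v z : ℂ) : U →ₐ[ℂ] ℂ :=
  MvPolynomial.aeval ![Xx L 0 q v z, ℘[L] z, ℘'[L] z / 2, L.g₂ / 12]

lemma evU_E (v z : ℂ) : evU L q v z vE = Xx L 0 q v z := by
  unfold evU vE
  rw [MvPolynomial.aeval_X]
  rfl

lemma evU_X (v z : ℂ) : evU L q v z vX = ℘[L] z := by
  unfold evU vX
  rw [MvPolynomial.aeval_X]
  rfl

lemma evU_Y (v z : ℂ) : evU L q v z vY = ℘'[L] z / 2 := by
  unfold evU vY
  rw [MvPolynomial.aeval_X]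
  rfl

lemma evU_G (v z : ℂ) : evU L q v z vG = L.g₂ / 12 := by
  unfold evU vG
  rw [MvPolynomial.aeval_X]
  rfl

lemma evU_K (v : ℂ) {z : ℂ} (hz : z ∉ L.lattice) : evU L q v z vK = L.g₃ / 4 := by
  unfold vK
  rw [map_sub, map_sub, map_pow, map_pow, map_mul, map_mul, evU_X, evU_Y, evU_G, map_ofNat]
  have := L.derivWeierstrassP_sq z hz
  linear_combination (-1 / 4 : ℂ) * this

lemma evU_deriv (v : ℂ) {z : ℂ} (hz : z ∉ L.lattice) (u : U) :
    HasDerivAt (fun z => evU L q v z u) (evU L q v z (dz u)) z := by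
  induction u using MvPolynomial.induction_on with
  | C a =>
    have h1 : (MvPolynomial.C a : U) = algebraMap ℂ U a := rfl
    rw [h1, Derivation.map_algebraMap, map_zero]
    simp only [AlgHom.commutes]
    exact hasDerivAt_const _ _
  | add P Q hP hQ =>
    simp only [map_add]
    exact hP.add hQ
  | mul_X P i hP =>
    have hX : HasDerivAt (fun z => evU L q v z (MvPolynomial.X i))
        (evU L q v z (dz (MvPolynomial.X i))) z := by
      fin_cases i
      · show HasDerivAt (fun z => evU L q v z vE) (evU L q v z (dz vE)) z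
        simp only [evU_E, dz_E, map_neg, evU_X]
        unfold Xx
        have h1 := ((hasDerivAt_zeta L hz).sub ((hasDerivAt_id z).const_mul 0)).sub_const (q * v)
        refine h1.congr_deriv ?_
        ring
      · show HasDerivAt (fun z => evU L q v z vX) (evU L q v z (dz vX)) z
        simp only [evU_X, dz_X, map_mul, map_ofNat, evU_Y]
        refine (hasDerivAt_weierstrassP L hz).congr_deriv ?_
        ring
      · show HasDerivAt (fun z => evU L q v z vY) (evU L q v z (dz vY)) z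
        simp only [evU_Y, dz_Y, map_sub, map_mul, map_pow, map_ofNat, evU_X, evU_G]
        refine ((hasDerivAt_wp'_all L hz).div_const 2).congr_deriv ?_
        ring
      · show HasDerivAt (fun z => evU L q v z vG) (evU L q v z (dz vG)) z
        simp only [evU_G, dz_G, map_zero]
        exact hasDerivAt_const _ _
    simp only [map_mul, Derivation.leibniz, smul_eq_mul, map_add]
    refine (hP.mul hX).congr_deriv ?_
    ring

/-- uniqueness of derivatives -/
lemma der_eq (v : ℂ) (P : PP) (u : U) (h : ∀ z, z ∉ L.lattice → evz L 0 q v z P = evU L q v z u) :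
    ∀ z, z ∉ L.lattice → evz L 0 q v z (Dv 0 L.g₂ P) = evU L q v z (dz u) := by
  intro z hz
  have h1 := evz_deriv L 0 q hz v P
  have h2 := evU_deriv L q v hz u
  refine h1.unique (h2.congr_of_eventuallyEq ?_)
  filter_upwards [(isOpen_compl L).mem_nhds hz] with w hw
  exact h w hw

theorem ev_sA (v : ℂ) (m : ℕ) : ∀ z, z ∉ L.lattice →
    evz L 0 q v z (coeff m (sA L)) = evU L q v z (ph m) := by
  induction m using Nat.strong_induction_on with
  | _ m ih =>
    cases m with
    | zero =>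
      intro z _
      rw [sA_zero, ph_zero, map_one]
      unfold evz ev
      rw [map_one]
    | succ m =>
      intro z hz
      have h1 := congrArg (coeff (m + 1)) (th_sA L)
      have h2 := ph_succ m
      rw [coeff_th, map_add, map_sub, coeff_succ_X_mul, map_add, coeff_hat, coeff_C_mul, coeff_mul,
        Finset.Nat.sum_antidiagonal_eq_sum_range_succ
        (fun i j => coeff i (mC (sZ (L.g₂ / 12) (L.g₃ / 4))) * coeff j (sA L)),
        Finset.sum_range_succ' _ (m + 1)] at h1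
      have e0 : coeff 0 (mC (sZ (L.g₂ / 12) (L.g₃ / 4))) = 1 := by
        rw [coeff_map, coeff_sZ, cc_zero]
        simp
      rw [e0, one_mul, Nat.sub_zero] at h1
      have e1 : ∀ k, coeff (m + 1 - (k + 1)) (sA L) = coeff (m - k) (sA L) := by
        intro k
        rw [Nat.add_sub_add_right]
      simp only [e1] at h1
      have h3 : ((m + 1 : ℕ) : PP) * coeff (m + 1) (sA L) =
          Dv 0 L.g₂ (coeff m (sA L)) + MvPolynomial.X 0 * coeff m (sA L) -
          ∑ k ∈ Finset.range (m + 1), coeff (k + 1) (mC (sZ (L.g₂ / 12) (L.g₃ / 4))) *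
            coeff (m - k) (sA L) := by
        linear_combination h1
      have h4 := congrArg (fun P => evz L 0 q v z P) h3
      have hm : ((m + 1 : ℕ) : ℂ) ≠ 0 := by exact_mod_cast m.succ_ne_zero
      have h5 := congrArg (evU L q v z) h2
      rw [map_smul, map_sub, map_add, map_mul, map_sum, smul_eq_mul] at h5
      refine mul_left_cancel₀ hm ?_
      rw [h5]
      have g1 := der_eq L q v _ _ (ih m (Nat.lt_succ_self m)) z hz
      have g2 := ih m (Nat.lt_succ_self m) z hz
      have g3 : ∀ k, evz L 0 q v z (coeff (m - k) (sA L)) = evU L q v z (ph (m - k)) := fun k =>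
        ih (m - k) (by omega) z hz
      have g4 : ∀ k, evz L 0 q v z (coeff (k + 1) (mC (sZ (L.g₂ / 12) (L.g₃ / 4)))) =
          evU L q v z (coeff (k + 1) Z₀) := by
        intro k
        have a1 : evz L 0 q v z (coeff (k + 1) (mC (sZ (L.g₂ / 12) (L.g₃ / 4)))) =
            coeff (k + 1) (sZ (L.g₂ / 12) (L.g₃ / 4)) := by
          rw [coeff_map]
          exact ev_C _ _ _ _
        have a2 : coeff (k + 1) Z₀ = (-(1 / (((k + 1 : ℕ) : ℂ) - 1))) • cc vG vK (k + 1) :=
          coeff_sZ _ _ _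
        rw [a1, coeff_sZ, a2, map_smul, cc_map, evU_G, evU_K L q v hz]
      unfold evz at h4 g1 g2 g3 g4 ⊢
      unfold ev at h4 g1 g2 g3 g4 ⊢
      rw [map_mul, map_natCast, map_sub, map_add, map_mul, map_sum, g1, g2,
        MvPolynomial.eval_X] at h4
      rw [h4, evU_E]
      congr 1
      refine Finset.sum_congr rfl fun k _ => ?_
      rw [map_mul, map_mul, g3, g4]

lemma iter_eq (v : ℂ) (n : ℕ) (P : PP) (u : U)
    (h : ∀ z, z ∉ L.lattice → evz L 0 q v z P = evU L q v z u) :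
    ∀ z, z ∉ L.lattice → evz L 0 q v z ((Dv 0 L.g₂)^[n] P) = evU L q v z (dz^[n] u) := by
  induction n with
  | zero => exact h
  | succ n ih =>
    rw [Function.iterate_succ_apply', Function.iterate_succ_apply']
    exact der_eq L q v _ _ ih

/-- **the Eisenstein-Kronecker polynomials are specializations of the universal ones** -/
theorem evz_Pp (v : ℂ) (n : ℕ) {z : ℂ} (hz : z ∉ L.lattice) :
    (n.factorial : ℂ) * evz L 0 q v z (Pp L 0 n) = evU L q v z (Dn n) := by
  have h1 : Pp L 0 n = (Dv 0 L.g₂)^[n] (coeff (n + 1) (sA L)) := by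
    rw [coeff_sA]
    unfold Pp
    have h2 : ∀ (k : ℕ) (a : ℂ) (P : PP), (Dv 0 L.g₂)^[k] (MvPolynomial.C a * P) =
        MvPolynomial.C a * (Dv 0 L.g₂)^[k] P := by
      intro k a P
      induction k with
      | zero => rfl
      | succ k ih =>
        rw [Function.iterate_succ_apply', ih, Function.iterate_succ_apply', Derivation.leibniz,
          Dv_C, smul_zero, add_zero, smul_eq_mul]
    rw [h2]
  rw [h1, iter_eq L q v n _ _ (ev_sA L q v (n + 1)) z hz]
  unfold Dn
  rw [map_mul, map_natCast]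

end Pool.Agent.Y690.NV
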