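import Pool.Agent.Y690.X.Sne
import Pool.Agent.TH936.CW.Lim

/-!
# The nonvanishing of the central values
-/

set_option autoImplicit false
set_option linter.unusedSectionVars false

open Filter
open scoped Topology PeriodPair

namespace Pool.Agent.Y690.NV

open H667R3 Pool.Agent.TH936.CW Pool.Agent.W192.HK
open Pool.Agent.TH936.CM (IsLat out_sub)
open Pool.Agent.W192.CM (nu)

open Complex (I)

variable {R : Subring ℂ} (hR : ∀ z : ℂ, z ∈ R ↔ ∃ x y : ℤ, z = x + y * I)

lemma ii4 : ii hR ^ 4 = 1 := by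
  have : ii hR ^ 4 = (ii hR * ii hR) * (ii hR * ii hR) := by ring
  rw [this, ii_sq]
  ring

lemma ii_pow_mod (j : ℕ) : ii hR ^ j = ii hR ^ (j % 4) := by
  conv_lhs => rw [← Nat.div_add_mod j 4]
  rw [pow_add, pow_mul, ii4, one_pow, one_mul]

lemma ff_ne : ff hR ≠ 0 := by
  intro h
  have h1 := congrArg Subtype.val h
  rw [ff_coe] at h1
  exact one_ne h1

/-- the sum over the residue classes -/
lemma sum_four {π : R} (hπ0 : π ≠ 0) (hπf : π - 1 ∈ sp (ff hR)) [Fintype (R ⧸ sp π)]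
    [Fintype (R ⧸ sp (ff hR * π))] (g : R → ℂ)
    (hper : ∀ a b : R, a - b ∈ sp (ff hR * π) → g a = g b) (hii : ∀ r, g (ii hR * r) = g r)
    (h0 : ∀ r, ¬ IsCoprime (sp r) (sp (ff hR)) → g r = 0) :
    ∑ x : R ⧸ sp (ff hR * π), g x.out = 4 * ∑ w : R ⧸ sp π, g (π + ff hR * w.out) := by
  have hpow : ∀ (j : ℕ) (r : R), g (ii hR ^ j * r) = g r := by
    intro j r
    induction j with
    | zero => rw [pow_zero, one_mul]
    | succ j ih => rw [pow_succ', mul_assoc, hii, ih]
  set e4 : Fin 4 × (R ⧸ sp π) → R ⧸ sp (ff hR * π) := fun p =>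
    Ideal.Quotient.mk _ (ii hR ^ (p.1 : ℕ) * (π + ff hR * p.2.out)) with he4
  have hff : ∀ r : R, ff hR * r ∈ sp (ff hR) := fun r =>
    (sp (ff hR)).mul_mem_right r (Ideal.mem_span_singleton_self _)
  have hsub : sp (ff hR * π) ≤ sp (ff hR) := by
    rw [Ideal.span_singleton_le_iff_mem]
    exact hff π
  have key : ∑ p : Fin 4 × (R ⧸ sp π), g (ii hR ^ (p.1 : ℕ) * (π + ff hR * p.2.out)) =
      ∑ x : R ⧸ sp (ff hR * π), g x.out := by
    refine Finset.sum_of_injOn e4 ?_ (fun _ _ => Finset.mem_coe.mpr (Finset.mem_univ _)) ?_ ?_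
    · rintro ⟨j, w⟩ _ ⟨j', w'⟩ _ h
      have h1 : ii hR ^ (j : ℕ) * (π + ff hR * w.out) - ii hR ^ (j' : ℕ) * (π + ff hR * w'.out) ∈
          sp (ff hR * π) := (Ideal.Quotient.mk_eq_mk_iff_sub_mem _ _).mp h
      have hj : j = j' := by
        have h2 : ii hR ^ (j : ℕ) - ii hR ^ (j' : ℕ) ∈ sp (ff hR) := by
          have h3 := (sp (ff hR)).sub_mem (hsub h1) ((sp (ff hR)).sub_mem
            ((sp (ff hR)).add_mem ((sp (ff hR)).mul_mem_left (ii hR ^ (j : ℕ)) hπf)
              ((sp (ff hR)).mul_mem_left (ii hR ^ (j : ℕ)) (hff w.out)))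
            ((sp (ff hR)).add_mem ((sp (ff hR)).mul_mem_left (ii hR ^ (j' : ℕ)) hπf)
              ((sp (ff hR)).mul_mem_left (ii hR ^ (j' : ℕ)) (hff w'.out))))
          convert h3 using 1
          ring
        have h4 : ii hR ^ (((j : ℕ) + (4 - (j' : ℕ))) % 4) - 1 ∈ sp (ff hR) := by
          have h5 := (sp (ff hR)).mul_mem_left (ii hR ^ (4 - (j' : ℕ))) h2
          rw [← ii_pow_mod]
          convert h5 using 1
          rw [mul_sub, ← pow_add, ← pow_add, add_comm, show 4 - (j' : ℕ) + (j' : ℕ) = 4 by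
            have := j'.2; omega, ii4]
        have h5 := ii_pow_eq hR (Nat.mod_lt _ (by norm_num)) h4
        apply Fin.ext
        have := j.2
        have := j'.2
        omega
      subst hj
      have hw : w = w' := by
        have h2 := (sp (ff hR * π)).mul_mem_left (ii hR ^ (4 - (j : ℕ))) h1
        have h3 : ii hR ^ (4 - (j : ℕ)) * (ii hR ^ (j : ℕ) * (π + ff hR * w.out) -
            ii hR ^ (j : ℕ) * (π + ff hR * w'.out)) = ff hR * (w.out - w'.out) := by
          have h4 : ii hR ^ (4 - (j : ℕ)) * ii hR ^ (j : ℕ) = 1 := by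
            rw [← pow_add, show 4 - (j : ℕ) + (j : ℕ) = 4 by have := j.2; omega, ii4]
          linear_combination (ff hR * (w.out - w'.out)) * h4
        rw [h3, Ideal.mem_span_singleton'] at h2
        obtain ⟨r, hr⟩ := h2
        have h5 : w.out - w'.out ∈ sp π := by
          rw [Ideal.mem_span_singleton']
          refine ⟨r, mul_left_cancel₀ (ff_ne hR) ?_⟩
          linear_combination hr
        rw [← Ideal.Quotient.mk_eq_mk_iff_sub_mem, Ideal.Quotient.mk_out,
          Ideal.Quotient.mk_out] at h5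
        exact h5
      rw [hw]
    · intro x _ hx
      by_contra hg
      have hc : IsCoprime (sp (x.out : R)) (sp (ff hR)) := by
        by_contra h
        exact hg (h0 _ h)
      apply hx
      obtain ⟨j, hj, hj2⟩ := cop_unit hR hc
      rw [Ideal.mem_span_singleton'] at hj2
      obtain ⟨c, hc2⟩ := hj2
      rw [Ideal.mem_span_singleton'] at hπf
      obtain ⟨d, hd⟩ := hπf
      -- `i ^ j x = π + f (c - d)`
      refine ⟨(⟨(4 - j) % 4, Nat.mod_lt _ (by norm_num)⟩, Ideal.Quotient.mk _ (c - d)), by simp, ?_⟩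
      simp only [he4]
      have h1 : Ideal.Quotient.mk (sp (ff hR * π)) x.out = x := Ideal.Quotient.mk_out x
      rw [← h1, Ideal.Quotient.mk_eq_mk_iff_sub_mem, ← ii_pow_mod]
      have h2 := out_sub (sp π) (c - d)
      rw [Ideal.mem_span_singleton'] at h2
      obtain ⟨r, hr⟩ := h2
      rw [Ideal.mem_span_singleton']
      refine ⟨ii hR ^ (4 - j) * r, ?_⟩
      have h4 : ii hR ^ (4 - j) * ii hR ^ j = 1 := by
        rw [← pow_add, show 4 - j + j = 4 by omega, ii4]
      linear_combination (ii hR ^ (4 - j) * ff hR) * hr + ii hR ^ (4 - j) * hd -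
        ii hR ^ (4 - j) * hc2 - x.out * h4
    · rintro ⟨j, w⟩ _
      refine hper _ _ ?_
      have h1 := out_sub (sp (ff hR * π)) (ii hR ^ (j : ℕ) * (π + ff hR * w.out))
      have h2 := (sp (ff hR * π)).neg_mem h1
      rwa [neg_sub] at h2
  rw [← key, Fintype.sum_prod_type]
  simp only [hpow]
  rw [Finset.sum_const, Finset.card_univ, Fintype.card_fin, nsmul_eq_mul]
  push_cast
  ring

/-! ### the system of class number one -/

include hR in
lemma sys_one {μ : R} (hμ : μ ≠ 0) [Fintype (R ⧸ sp μ)] :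
    ∃ T : Finset R, Sys (sp μ) {⊤} ⊤ μ T := by
  classical
  have := pid hR
  refine ⟨Finset.univ.image (fun x : R ⧸ sp μ => x.out), ?_⟩
  refine ⟨⟨?_, ?_⟩, ?_, ?_, ?_, ?_, ?_, ⟨?_, ?_⟩⟩
  · intro b hb
    rw [Finset.mem_singleton] at hb
    rw [hb]
    exact top_ne_bot
  · intro J hJ
    refine ⟨⊤, ⟨Finset.mem_singleton_self _, ?_⟩, ?_⟩
    · obtain ⟨α, hα⟩ := (IsPrincipalIdealRing.principal J).principal
      exact ⟨α, by rw [Ideal.mul_top]; exact hα⟩
    · rintro b ⟨hb, -⟩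
      exact Finset.mem_singleton.mp hb
  · intro b hb
    rw [Finset.mem_singleton] at hb
    rw [hb, ← Ideal.one_eq_top]
    exact isCoprime_one_left
  · intro b hb
    rw [Finset.mem_singleton] at hb
    rw [hb]
  · exact top_ne_bot
  · rw [← Ideal.one_eq_top]
    exact isCoprime_one_left
  · rw [Ideal.mul_top]
  · intro x _
    exact Submodule.mem_top
  · intro α
    refine ⟨(Ideal.Quotient.mk (sp μ) α).out, ⟨Finset.mem_image_of_mem _ (Finset.mem_univ _), ?_⟩, ?_⟩
    · have h1 := (sp μ).neg_mem (out_sub (sp μ) α)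
      rwa [neg_sub] at h1
    · rintro y ⟨hy, hy2⟩
      obtain ⟨x, -, rfl⟩ := Finset.mem_image.mp hy
      have h1 : Ideal.Quotient.mk (sp μ) α = x := by
        rw [← Ideal.Quotient.mk_eq_mk_iff_sub_mem, Ideal.Quotient.mk_out] at hy2
        exact hy2
      rw [h1]

/-- the nonvanishing of the central value follows from that of the finite sum -/
theorem nonvan (hbasic : H_BASIC) (hfp : H_FP) (hcnt : H_CNT) (hdec : H_DEC) (hafe : H_AFE)
    {L : PeriodPair} {Ω q : ℂ} (hL : IsLat L R Ω) (hCM : CM L)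
    (hq : ∀ l ∈ L.lattice, eta L l = 0 * l + q * (starRingEnd ℂ) l)
    {π : R} (hπ0 : π ≠ 0) (hπf : π - 1 ∈ sp (ff hR)) [Fintype (R ⧸ sp π)] {e : ℕ}
    {θ : Ideal R → ℂ} (hθ : HC (2 * e + 1) (sp (ff hR * π)) θ) {χ : R → ℂ}
    (hχ : ∀ r : R, r - 1 ∈ sp (ff hR) → θ (sp r) = (r : ℂ) ^ (2 * e + 1) * χ r)
    (hcj : ∀ r, (starRingEnd ℂ) (χ r) = χ r)
    (hne : ∑ w : R ⧸ sp π, χ (π + ff hR * w.out) *
      ek L 0 q e (Ω / (2 + 2 * I) + Qw Ω π w) ≠ 0) :
    ∃ F : ℂ → ℂ, Differentiable ℂ F ∧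
      (∀ z : ℂ, ((e + 1 : ℕ) : ℝ) + 1 / 2 < z.re →
        HasSum (fun J : Ideal R => θ J * (nm J : ℂ) ^ (-z)) (F z)) ∧
      F ((e + 1 : ℕ) : ℂ) ≠ 0 := by
  classical
  set μ : R := ff hR * π with hμdef
  have hμ : μ ≠ 0 := mul_ne_zero (ff_ne hR) hπ0
  have hμC := coe_ne hμ
  have hQR := qr hR
  obtain ⟨b1, b2, b3, b4, b5, b6, b7, -, -⟩ := hbasic R I hQR
  have hspne : sp μ ≠ ⊥ := by rwa [Ne, Ideal.span_singleton_eq_bot]
  have := b1 (sp μ) hspne
  have := Fintype.ofFinite (R ⧸ sp μ)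
  obtain ⟨T, hS⟩ := sys_one hR hμ
  obtain ⟨F, hF1, hF2, hF3⟩ := lim_LK hbasic hfp hcnt hdec hafe hQR hθ hS
  refine ⟨F, hF1, hF2, fun hF0 => ?_⟩
  have hqt : sp μ ≠ ⊤ := by
    intro h
    have h1 : ff hR * π ∣ 1 := by
      rw [← Ideal.mem_span_singleton]
      show (1 : R) ∈ sp μ
      rw [h]
      exact Submodule.mem_top
    have h2 : (1 : R) ∈ sp (ff hR) := by
      rw [Ideal.mem_span_singleton]
      exact (dvd_mul_right _ _).trans h1
    exact one_notMem hR h2
  obtain ⟨f1, f2, f3, f4, f5⟩ := hfp R I hQR (2 * e + 1) (sp μ) θ hθ hqt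
  have hθ1 : θ ⊤ = 1 := by
    have h1 := hθ.princ 1 one_ne_zero (by rw [sub_self]; exact (sp _).zero_mem)
    have h2 : sp (1 : R) = ⊤ := Ideal.span_singleton_one
    rw [h2] at h1
    rw [h1]
    have h3 : ((1 : R) : ℂ) = 1 := rfl
    rw [h3, one_pow]
  have hnm : nm (⊤ : Ideal R) = 1 := (b7 ⊤).mpr rfl
  rw [hF0, map_zero, mul_zero] at hF3
  have hlim : Tendsto (fun δ : ℝ => SK e (ck e θ ⊤) δ) (𝓝[>] 0) (𝓝 0) := by
    refine hF3.congr fun δ => ?_
    rw [Finset.sum_singleton, hθ1, hnm]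
    simp
  set c : R → ℂ := ck e θ ⊤ with hc
  have hcv : ∀ r : R, c r = (starRingEnd ℂ) (fp (2 * e + 1) θ r) := by
    intro r
    rw [hc]
    unfold ck
    rw [if_pos Submodule.mem_top]
  have hcper : ∀ a b : R, a - b ∈ sp μ → c a = c b := by
    intro a b h
    rw [hcv, hcv, f5 a b h]
  have hc0' : ∀ r : R, ¬ IsCoprime (sp r) (sp μ) → c r = 0 := by
    intro r h
    rw [hcv, (f3 r).mpr h, map_zero]
  have hc0 : ∀ a ∈ sp μ, c a = 0 := by
    intro a ha
    refine hc0' a fun h => hqt ?_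
    have h1 : sp a ≤ sp μ := (Ideal.span_singleton_le_iff_mem _).mpr ha
    have h2 := Ideal.isCoprime_iff_sup_eq.mp h
    rwa [sup_eq_right.mpr h1] at h2
  have hc1 : ∀ a : R, ‖c a‖ ≤ 1 := by
    intro a
    by_cases h : IsCoprime (sp a) (sp μ)
    · rw [hcv, RCLike.norm_conj, f4 a h]
    · rw [hc0' a h, norm_zero]
      exact zero_le_one
  have hval := value hCM hq hbasic hQR hL e μ hμ c hcper hc0 hc1 hlim
  have hΩ := hL.ne
  have hκ : gg e ((starRingEnd ℂ) ((μ : ℂ) / Ω)) ((μ : ℂ) / Ω) ≠ 0 := by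
    have h : (μ : ℂ) / Ω ≠ 0 := div_ne_zero hμC hΩ
    unfold gg
    exact mul_ne_zero (pow_ne_zero _ ((map_ne_zero _).2 h)) (pow_ne_zero _ (inv_ne_zero h))
  have hqe : (q ^ e)⁻¹ ≠ 0 := inv_ne_zero (pow_ne_zero _ (q_ne hq))
  have hs : ∑ x : R ⧸ sp μ, c x.out * ek L 0 q e (Ω * x.out / μ) = 0 := by
    have h1 := (mul_eq_zero.1 hval.symm).resolve_left hκ
    exact (mul_eq_zero.1 h1).resolve_left hqe
  -- the invariance
  have hinv : ∀ r, c (ii hR * r) * ek L 0 q e (Ω * ((ii hR * r : R) : ℂ) / μ) =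
      c r * ek L 0 q e (Ω * r / μ) := by
    intro r
    by_cases hr : r ∈ sp μ
    · rw [hc0 r hr, hc0 _ ((sp μ).mul_mem_left _ hr), zero_mul, zero_mul]
    · have hz : Ω * r / μ ∉ L.lattice := fun h => hr ((lat_dm_iff hL μ hμ _).1 h)
      have e1 : Ω * ((ii hR * r : R) : ℂ) / μ = I * (Ω * r / μ) := by
        push_cast
        rw [ii_coe]
        ring
      have e2 : θ (sp (ii hR)) = 1 := by
        have h1 : sp (ii hR) = ⊤ := by
          have := sp_ii hR 1 (1 : R)
          rw [pow_one, mul_one] at this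
          rw [this]
          exact Ideal.span_singleton_one
        rw [h1, hθ1]
      rw [e1, ek_I hCM e hz, hcv, hcv, f2, map_mul]
      have e3 : (starRingEnd ℂ) (fp (2 * e + 1) θ (ii hR)) * (-I) ^ (2 * e + 1) = 1 := by
        unfold fp
        rw [e2, ii_coe, map_div₀, map_one, map_pow, Complex.conj_I, one_div]
        exact inv_mul_cancel₀ (pow_ne_zero _ (neg_ne_zero.mpr Complex.I_ne_zero))
      linear_combination ((starRingEnd ℂ) (fp (2 * e + 1) θ r) * ek L 0 q e (Ω * r / μ)) * e3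
  have h4 := sum_four hR hπ0 hπf (fun r => c r * ek L 0 q e (Ω * r / μ)) ?_ hinv ?_
  · rw [hs] at h4
    apply hne
    have h5 : ∑ w : R ⧸ sp π, (fun r : R => c r * ek L 0 q e (Ω * r / μ)) (π + ff hR * w.out) =
        ∑ w : R ⧸ sp π, χ (π + ff hR * w.out) *
      ek L 0 q e (Ω / (2 + 2 * I) + Qw Ω π w) := by
      refine Finset.sum_congr rfl fun w _ => ?_
      have h6 : π + ff hR * w.out - 1 ∈ sp (ff hR) := by
        have := (sp (ff hR)).add_mem hπf ((sp (ff hR)).mul_mem_right w.out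
          (Ideal.mem_span_singleton_self _))
        convert this using 1
        ring
      have h7 : π + ff hR * w.out ≠ 0 := by
        intro h
        rw [h, zero_sub] at h6
        have := (sp (ff hR)).neg_mem h6
        rw [neg_neg] at this
        exact one_notMem hR this
      have h8 : c (π + ff hR * w.out) = χ (π + ff hR * w.out) := by
        rw [hcv]
        unfold fp
        rw [hχ _ h6, mul_div_cancel_left₀ _ (pow_ne_zero _ (coe_ne h7)), hcj]
      have h9 : Ω * ((π + ff hR * w.out : R) : ℂ) / μ = Ω / (2 + 2 * I) + Qw Ω π w := by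
        have e5 : ∀ f p w : ℂ, f ≠ 0 → p ≠ 0 → Ω * (p + f * w) / (f * p) =
            Ω / f + Ω * w / p := by
          intro f p w hf hp
          field_simp
        unfold Qw
        rw [hμdef]
        push_cast
        rw [ff_coe, e5 _ _ _ one_ne (coe_ne hπ0)]
      simp only
      rw [h8, h9]
    rw [← h5]
    have h10 : (4 : ℂ) ≠ 0 := by norm_num
    exact (mul_eq_zero.1 h4.symm).resolve_left h10
  · intro a b hab
    by_cases hb : b ∈ sp μ
    · have ha : a ∈ sp μ := by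
        have := (sp μ).add_mem hab hb
        rwa [sub_add_cancel] at this
      rw [hc0 a ha, hc0 b hb, zero_mul, zero_mul]
    · rw [hcper a b hab]
      congr 1
      have hz : Ω * b / μ ∉ L.lattice := fun h => hb ((lat_dm_iff hL μ hμ _).1 h)
      refine ek_per hq e hz ?_
      have := (lat_dm_iff hL μ hμ (a - b)).2 hab
      convert this using 1
      push_cast
      ring
  · intro r hr
    rw [hc0' r, zero_mul]
    intro h
    apply hr
    have h1 : sp μ = sp (ff hR) * sp π := (Ideal.span_singleton_mul_span_singleton _ _).symm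
    rw [h1] at h
    exact h.of_mul_right_left

end Pool.Agent.Y690.NV
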