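import Mathlib

/-!
# Formal power series: the Euler operator, derivations acting on the coefficients, uniqueness
-/

set_option autoImplicit false

namespace Pool.Agent.Y690.NV

open PowerSeries

variable {S : Type*} [CommRing S]

/-- the Euler operator `w d/dw` -/
noncomputable def th (F : S⟦X⟧) : S⟦X⟧ := X * PowerSeries.derivative S F

lemma coeff_th (n : ℕ) (F : S⟦X⟧) : coeff n (th F) = (n : S) * coeff n F := by
  unfold th
  cases n with
  | zero => simp
  | succ n =>
    rw [coeff_succ_X_mul, coeff_derivative]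
    push_cast
    ring

lemma th_mul (F G : S⟦X⟧) : th (F * G) = th F * G + F * th G := by
  unfold th
  rw [Derivation.leibniz, smul_eq_mul, smul_eq_mul]
  ring

lemma th_add (F G : S⟦X⟧) : th (F + G) = th F + th G := by
  unfold th
  rw [map_add]
  ring

lemma th_sub (F G : S⟦X⟧) : th (F - G) = th F - th G := by
  unfold th
  rw [map_sub]
  ring

lemma th_neg (F : S⟦X⟧) : th (-F) = -th F := by
  unfold th
  rw [map_neg]
  ring

lemma th_C (a : S) : th (C a : S⟦X⟧) = 0 := by
  unfold th
  rw [derivative_C, mul_zero]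

lemma th_X : th (X : S⟦X⟧) = X := by
  unfold th
  rw [derivative_X, mul_one]

lemma th_pow (F : S⟦X⟧) (n : ℕ) : th (F ^ n) = n * F ^ (n - 1) * th F := by
  unfold th
  rw [derivative_pow]
  ring

lemma th_ofNat (n : ℕ) [n.AtLeastTwo] : th (OfNat.ofNat n : S⟦X⟧) = 0 := by
  have h : (OfNat.ofNat n : S⟦X⟧) = C (OfNat.ofNat n : S) := (map_ofNat C n).symm
  rw [h, th_C]

lemma th_one : th (1 : S⟦X⟧) = 0 := by
  have h : (1 : S⟦X⟧) = C (1 : S) := by simp
  rw [h, th_C]

section hat

variable {k : Type*} [CommRing k] [Algebra k S]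

/-- a derivation acting on the coefficients -/
noncomputable def hat (D : Derivation k S S) (F : S⟦X⟧) : S⟦X⟧ := PowerSeries.mk fun n => D (coeff n F)

variable (D : Derivation k S S)

lemma coeff_hat (n : ℕ) (F : S⟦X⟧) : coeff n (hat D F) = D (coeff n F) := by
  unfold hat
  rw [coeff_mk]

lemma hat_add (F G : S⟦X⟧) : hat D (F + G) = hat D F + hat D G := by
  ext n
  rw [coeff_hat, map_add, map_add, map_add, coeff_hat, coeff_hat]

lemma hat_sub (F G : S⟦X⟧) : hat D (F - G) = hat D F - hat D G := by
  ext n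
  rw [coeff_hat, map_sub, map_sub, map_sub, coeff_hat, coeff_hat]

lemma hat_neg (F : S⟦X⟧) : hat D (-F) = -hat D F := by
  ext n
  rw [coeff_hat, map_neg, map_neg, map_neg, coeff_hat]

lemma hat_mul (F G : S⟦X⟧) : hat D (F * G) = hat D F * G + F * hat D G := by
  ext n
  rw [coeff_hat, map_add, coeff_mul, coeff_mul, coeff_mul, map_sum, ← Finset.sum_add_distrib]
  refine Finset.sum_congr rfl fun p _ => ?_
  rw [Derivation.leibniz, coeff_hat, coeff_hat, smul_eq_mul, smul_eq_mul]
  ring

lemma hat_C (a : S) : hat D (C a : S⟦X⟧) = C (D a) := by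
  ext n
  rw [coeff_hat, coeff_C, coeff_C]
  split_ifs
  · rfl
  · exact map_zero D

lemma hat_one : hat D (1 : S⟦X⟧) = 0 := by
  have h : (1 : S⟦X⟧) = C (1 : S) := by simp
  rw [h, hat_C, Derivation.map_one_eq_zero, map_zero]

lemma hat_X : hat D (X : S⟦X⟧) = 0 := by
  ext n
  rw [coeff_hat, coeff_X]
  split_ifs
  · rw [Derivation.map_one_eq_zero]; simp
  · simp

lemma hat_pow (F : S⟦X⟧) (n : ℕ) : hat D (F ^ n) = n * F ^ (n - 1) * hat D F := by
  induction n with
  | zero => simp [hat_one]
  | succ n ih =>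
    rw [pow_succ, hat_mul, ih, Nat.add_sub_cancel]
    cases n with
    | zero => simp
    | succ n =>
      rw [Nat.add_sub_cancel]
      push_cast
      ring

lemma hat_ofNat (n : ℕ) [n.AtLeastTwo] : hat D (OfNat.ofNat n : S⟦X⟧) = 0 := by
  have h : (OfNat.ofNat n : S⟦X⟧) = C (OfNat.ofNat n : S) := (map_ofNat C n).symm
  have h2 : (OfNat.ofNat n : S) = ((OfNat.ofNat n : ℕ) : S) := (Nat.cast_ofNat).symm
  rw [h, hat_C, h2, Derivation.map_natCast, map_zero]

lemma hat_th (F : S⟦X⟧) : hat D (th F) = th (hat D F) := by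
  ext n
  rw [coeff_hat, coeff_th, coeff_th, coeff_hat, Derivation.leibniz, Derivation.map_natCast,
    smul_eq_mul, smul_zero, add_zero]

lemma hat_hat (D₁ D₂ : Derivation k S S) (n : ℕ) (F : S⟦X⟧) :
    coeff n (hat D₁ (hat D₂ F)) = D₁ (D₂ (coeff n F)) := by
  rw [coeff_hat, coeff_hat]

end hat

lemma coeff_mul_low {n : ℕ} {F : S⟦X⟧} (h : ∀ j < n, coeff j F = 0) (G : S⟦X⟧) :
    coeff n (G * F) = coeff 0 G * coeff n F := by
  rw [coeff_mul, Finset.sum_eq_single (0, n)]
  · rintro ⟨i, j⟩ hij hne
    have h1 : i + j = n := by simpa using hij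
    have h2 : j < n := by
      rcases Nat.eq_zero_or_pos i with h3 | h3
      · exact absurd (by rw [h3] at h1 ⊢; simp at h1; rw [h1]) hne
      · omega
    show coeff i G * coeff j F = 0
    rw [h j h2, mul_zero]
  · intro h1
    exact absurd (by simp) h1

/-- uniqueness for first order equations -/
theorem uniq [Algebra ℂ S] (D : Derivation ℂ S S) (A R Q F : S⟦X⟧) (a r : ℂ)
    (ha : coeff 0 A = algebraMap ℂ S a) (hr : coeff 0 R = algebraMap ℂ S r) (n₀ : ℕ)
    (hn : ∀ n : ℕ, n ≠ n₀ → a * n - r ≠ 0) (h₀ : coeff n₀ F = 0)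
    (h : A * th F = R * F + X * (Q * hat D F)) : F = 0 := by
  have key : ∀ n, coeff n F = 0 := by
    intro n
    induction n using Nat.strong_induction_on with
    | _ n ih =>
      by_cases hn0 : n = n₀
      · rw [hn0]; exact h₀
      · have h1 := congrArg (coeff n) h
        have h2 : ∀ j < n, coeff j (th F) = 0 := by
          intro j hj
          rw [coeff_th, ih j hj, mul_zero]
        have h3 : coeff n (X * (Q * hat D F)) = 0 := by
          cases n with
          | zero => simp
          | succ m =>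
            rw [coeff_succ_X_mul]
            have h4 : ∀ j < m, coeff j (hat D F) = 0 := by
              intro j hj
              rw [coeff_hat, ih j (by omega), map_zero]
            rw [coeff_mul_low h4, coeff_hat, ih m (by omega), map_zero, mul_zero]
        rw [map_add, coeff_mul_low h2, coeff_mul_low ih, h3, add_zero, coeff_th, ha, hr] at h1
        have h4 : algebraMap ℂ S (a * n - r) * coeff n F = 0 := by
          rw [map_sub, map_mul, map_natCast]
          linear_combination h1
        rw [← Algebra.smul_def] at h4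
        exact (smul_eq_zero_iff_right (hn n hn0)).1 h4
  ext n
  rw [key n, map_zero]

end Pool.Agent.Y690.NV
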