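import Pool.Agent.Y690.X.Tors

/-!
# The values at `±T + Q`
-/

set_option autoImplicit false
set_option linter.unusedSectionVars false
set_option linter.unusedSimpArgs false

open scoped PeriodPair

namespace Pool.Agent.Y690.NV

open H667R3 Pool.Agent.TH936.CW MvPolynomial Finset

/-! ### homogeneity -/

/-- the scaling -/
noncomputable def mc (c : ℂ) : U →ₐ[ℂ] U :=
  aeval ![C c * vE, C (c ^ 2) * vX, C (c ^ 3) * vY, C (c ^ 4) * vG]

lemma mc_E (c : ℂ) : mc c vE = C c * vE := by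
  have h : mc c (X 0) = C c * vE := by unfold mc; rw [aeval_X]; rfl
  exact h
lemma mc_X (c : ℂ) : mc c vX = C (c ^ 2) * vX := by
  have h : mc c (X 1) = C (c ^ 2) * vX := by unfold mc; rw [aeval_X]; rfl
  exact h
lemma mc_Y (c : ℂ) : mc c vY = C (c ^ 3) * vY := by
  have h : mc c (X 2) = C (c ^ 3) * vY := by unfold mc; rw [aeval_X]; rfl
  exact h
lemma mc_G (c : ℂ) : mc c vG = C (c ^ 4) * vG := by
  have h : mc c (X 3) = C (c ^ 4) * vG := by unfold mc; rw [aeval_X]; rfl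
  exact h

lemma D_C (D : Derivation ℂ U U) (a : ℂ) : D (C a) = 0 := by
  have h := D.map_algebraMap a
  rwa [algebraMap_eq] at h

lemma mc_dt (c : ℂ) (u : U) : mc c (dt u) = C (c ^ 2) * dt (mc c u) := by
  induction u using MvPolynomial.induction_on with
  | C a =>
    have h : mc c (C a) = C a := by
      rw [← algebraMap_eq, AlgHom.commutes]
    rw [h, D_C, map_zero, mul_zero]
  | add p q hp hq => rw [map_add, map_add, map_add, map_add, hp, hq]; ring
  | mul_X p i hp =>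
    have hi : mc c (dt (X i)) = C (c ^ 2) * dt (mc c (X i)) := by
      fin_cases i
      · show mc c (dt vE) = C (c ^ 2) * dt (mc c vE)
        rw [mc_E, dt_E, D_mul, D_C, dt_E, map_neg, map_add, map_mul, mc_E, mc_X, mc_Y]
        simp only [map_pow]
        ring
      · show mc c (dt vX) = C (c ^ 2) * dt (mc c vX)
        rw [mc_X, dt_X, D_mul, D_C, dt_X]
        simp only [map_add, map_sub, map_mul, map_pow, map_ofNat, mc_E, mc_X, mc_Y, mc_G]
        ring
      · show mc c (dt vY) = C (c ^ 2) * dt (mc c vY)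
        rw [mc_Y, dt_Y, D_mul, D_C, dt_Y]
        simp only [map_add, map_sub, map_mul, map_pow, map_ofNat, mc_E, mc_X, mc_Y, mc_G]
        ring
      · show mc c (dt vG) = C (c ^ 2) * dt (mc c vG)
        rw [mc_G, dt_G, D_mul, D_C, dt_G]
        unfold vK
        simp only [map_add, map_sub, map_mul, map_pow, map_ofNat, mc_E, mc_X, mc_Y, mc_G]
        ring
    rw [D_mul, map_add, map_mul, map_mul, hp, hi, map_mul, D_mul]
    ring

lemma mc_Dn (c : ℂ) (n : ℕ) : mc c (Dn n) = C (c ^ (2 * n + 1)) * Dn n ∧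
    mc c (Dn (n + 1)) = C (c ^ (2 * n + 3)) * Dn (n + 1) := by
  induction n with
  | zero =>
    refine ⟨?_, ?_⟩
    · rw [Dn_zero, mc_E, mul_zero, zero_add, pow_one]
    · rw [zero_add, Dn_one, mc_dt, mc_E, D_mul, D_C]
      simp only [map_pow]
      ring
  | succ n ih =>
    refine ⟨by rw [ih.2]; congr 3, ?_⟩
    rw [show n + 1 + 1 = n + 2 from rfl, Dn_rec, map_sub, mc_dt, ih.2, D_mul, D_C, map_mul, map_mul,
      ih.1, mc_G]
    simp only [map_pow, map_add, map_natCast, map_one]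
    ring

variable {L : PeriodPair} {q : ℂ}

lemma ek_eq (n : ℕ) {z : ℂ} (hz : z ∉ L.lattice) :
    (n.factorial : ℂ) * ek L 0 q n z = evU L q ((starRingEnd ℂ) z) z (Dn n) := evz_Pp L q _ n hz

lemma evU_C (v z a : ℂ) (u : U) : evU L q v z (C a * u) = a * evU L q v z u := by
  rw [map_mul, ← algebraMap_eq, AlgHom.commutes]
  rfl

theorem ek_I (hL : CM L) (n : ℕ) {z : ℂ} (hz : z ∉ L.lattice) :
    ek L 0 q n (Complex.I * z) = (-Complex.I) ^ (2 * n + 1) * ek L 0 q n z := by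
  have hz' : Complex.I * z ∉ L.lattice := fun h => hz ((I_mul_mem_iff hL).mp h)
  have h : evU L q ((starRingEnd ℂ) (Complex.I * z)) (Complex.I * z) =
      (evU L q ((starRingEnd ℂ) z) z).comp (mc (-Complex.I)) := by
    refine MvPolynomial.algHom_ext fun i => ?_
    fin_cases i
    · show evU L q _ _ vE = evU L q _ _ (mc _ vE)
      rw [mc_E, evU_C, evU_E, evU_E]
      unfold Xx
      rw [zeta_I_mul hL, map_mul, Complex.conj_I]
      ring
    · show evU L q _ _ vX = evU L q _ _ (mc _ vX)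
      rw [mc_X, evU_C, evU_X, evU_X, wp_I_mul hL, neg_sq, Complex.I_sq]
      ring
    · show evU L q _ _ vY = evU L q _ _ (mc _ vY)
      rw [mc_Y, evU_C, evU_Y, evU_Y, wp'_I_mul hL]
      have : (-Complex.I) ^ 3 = Complex.I := by
        rw [neg_pow, Complex.I_pow_three]; ring
      rw [this]
      ring
    · show evU L q _ _ vG = evU L q _ _ (mc _ vG)
      rw [mc_G, evU_C, evU_G, evU_G]
      have : (-Complex.I) ^ 4 = 1 := by
        rw [neg_pow, Complex.I_pow_four]; ring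
      rw [this, one_mul]
  have h1 := ek_eq (q := q) n hz'
  rw [h, AlgHom.comp_apply, (mc_Dn (-Complex.I) n).1, evU_C, ← ek_eq n hz] at h1
  have h2 := fne n
  have h3 : (n.factorial : ℂ) * ek L 0 q n (Complex.I * z) =
      (n.factorial : ℂ) * ((-Complex.I) ^ (2 * n + 1) * ek L 0 q n z) := by
    rw [h1]
    ring
  exact mul_left_cancel₀ h2 h3

theorem ek_neg (hL : CM L) (n : ℕ) {z : ℂ} (hz : z ∉ L.lattice) :
    ek L 0 q n (-z) = -ek L 0 q n z := by
  have hz' : Complex.I * z ∉ L.lattice := fun h => hz ((I_mul_mem_iff hL).mp h)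
  have h1 := ek_I (q := q) hL n hz'
  rw [ek_I hL n hz, ← mul_assoc, ← mul_assoc, Complex.I_mul_I, neg_one_mul, ← mul_pow] at h1
  rw [h1]
  have : (-Complex.I) * (-Complex.I) = -1 := by
    rw [neg_mul_neg, Complex.I_mul_I]
  rw [this, Odd.neg_one_pow ⟨n, rfl⟩]
  ring

/-! ### the values -/

/-- the point of order four (up to sign) -/
structure TP (L : PeriodPair) (q s T : ℂ) : Prop where
  nm : 2 * T ∉ L.lattice
  fo : 4 * T ∈ L.lattice
  x : ℘[L] T = 1 / 2
  y : ℘'[L] T = -s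
  e : E1 L 0 q T = s / 2

lemma E1_neg {z : ℂ} : E1 L 0 q (-z) = -E1 L 0 q z := by
  unfold E1 Xx
  rw [zeta_neg, map_neg]
  ring

lemma TP.neg {s T : ℂ} (h : TP L q s T) : TP L q (-s) (-T) := by
  refine ⟨fun h1 => h.nm ?_, ?_, ?_, ?_, ?_⟩
  · have := neg_mem h1
    rwa [← mul_neg, neg_neg] at this
  · have := neg_mem h.fo
    rwa [← mul_neg] at this
  · rw [L.weierstrassP_neg, h.x]
  · rw [L.derivWeierstrassP_neg, h.y]
  · rw [E1_neg, h.e]; ring

theorem evU_ps (g2 : L.g₂ = -1) {s T Q : ℂ} (hs : s = 1 ∨ s = -1) (hT : TP L q s T)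
    (hQ : Q ∉ L.lattice) (h1 : T + Q ∉ L.lattice) (h2 : T - Q ∉ L.lattice) (u : U) :
    evU L q ((starRingEnd ℂ) (T + Q)) (T + Q) u =
      eval (pt (Xi L Q) (℘'[L] Q) (E1 L 0 q Q)) (ps s u) := by
  have hT' := two_mul_notMem_of L hT.nm
  have h3 : ℘[L] T - ℘[L] Q ≠ 0 := by
    rw [sub_ne_zero, Ne, wp_eq_iff L hT' hQ]
    tauto
  rw [hT.x] at h3
  have hξ : Xi L Q - 1 ≠ 0 := by
    unfold Xi
    intro h
    apply h3
    linear_combination (-1 / 2) * h
  have hX : ℘[L] Q = Xi L Q / 2 := by unfold Xi; ring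
  have h4 : (1 / 2 - Xi L Q / 2) ≠ 0 := by rw [← hX]; exact h3
  have h5 : (1 - Xi L Q) ≠ 0 := fun h => hξ (by linear_combination -h)
  have h : evU L q ((starRingEnd ℂ) (T + Q)) (T + Q) =
      (aeval (pt (Xi L Q) (℘'[L] Q) (E1 L 0 q Q))).comp (ps s) := by
    refine MvPolynomial.algHom_ext fun i => ?_
    fin_cases i
    · show evU L q _ _ vE = aeval _ (ps s vE)
      rw [evU_E, ps_E]
      have : Xx L 0 q ((starRingEnd ℂ) (T + Q)) (T + Q) = E1 L 0 q (T + Q) := rfl
      rw [this, E1_add hT' hQ h1 h2, hT.x, hT.y, hT.e, hX, aeval_eq_eval]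
      unfold pE aE aH aT pt
      simp only [map_add, map_mul, eval_X, eval_C]
      simp only [Matrix.cons_val, coe_eval₂Hom]
      rcases hs with rfl | rfl
      · field_simp
        ring
      · field_simp
        ring
    · show evU L q _ _ vX = aeval _ (ps s vX)
      rw [evU_X, ps_X, wp_add L hT.nm hQ h1 h2, hT.x, hT.y, hX, g2, aeval_eq_eval]
      unfold pX aB aX aH aT pt
      simp only [map_add, map_mul, map_pow, map_one, map_ofNat, eval_X, eval_C]
      simp only [Matrix.cons_val, coe_eval₂Hom]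
      rcases hs with rfl | rfl
      · field_simp
        ring
      · field_simp
        ring
    · show evU L q _ _ vY = aeval _ (ps s vY)
      rw [evU_Y, ps_Y, wp'_add L hT.nm hQ h1 h2, hT.x, hT.y, hX, g2, aeval_eq_eval]
      unfold pY aB aH aT pt
      simp only [map_neg, map_add, map_mul, map_pow, map_one, map_ofNat, eval_X, eval_C]
      simp only [Matrix.cons_val, coe_eval₂Hom]
      rcases hs with rfl | rfl
      · field_simp
        ring
      · field_simp
        ring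
    · show evU L q _ _ vG = aeval _ (ps s vG)
      rw [evU_G, ps_G, g2, aeval_eq_eval]
      unfold aG aB pt
      simp only [map_add, map_sub, map_mul, map_pow, map_one, map_ofNat, eval_X, eval_C]
      simp only [Matrix.cons_val, coe_eval₂Hom]
      norm_num
  rw [h, AlgHom.comp_apply, aeval_eq_eval]

/-- the value at `T` -/
theorem evU_T (g2 : L.g₂ = -1) {T : ℂ} (hT : TP L q 1 T) (ξ η ε : ℂ) (u : U) :
    evU L q ((starRingEnd ℂ) T) T u = eval (pt ξ η ε) (pT u) := by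
  have h : evU L q ((starRingEnd ℂ) T) T = (aeval (pt ξ η ε)).comp pT := by
    refine MvPolynomial.algHom_ext fun i => ?_
    fin_cases i
    · show evU L q _ _ vE = aeval _ (pT vE)
      have : Xx L 0 q ((starRingEnd ℂ) T) T = E1 L 0 q T := rfl
      rw [evU_E, pT_E, aeval_eq_eval, this, hT.e, eval_C]
    · show evU L q _ _ vX = aeval _ (pT vX)
      rw [evU_X, pT_X, aeval_eq_eval, hT.x]
      unfold aB pt
      simp only [map_add, map_mul, map_one, eval_X, eval_C]
      norm_num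
    · show evU L q _ _ vY = aeval _ (pT vY)
      rw [evU_Y, pT_Y, aeval_eq_eval, hT.y]
      unfold aB pt
      simp only [map_neg, eval_X, eval_C]
      norm_num
    · show evU L q _ _ vG = aeval _ (pT vG)
      rw [evU_G, pT_G, g2, aeval_eq_eval]
      unfold aG aB pt
      simp only [map_add, map_sub, map_mul, map_pow, map_one, map_ofNat, eval_X, eval_C]
      simp only [Matrix.cons_val, coe_eval₂Hom]
      norm_num
  rw [h, AlgHom.comp_apply, aeval_eq_eval]

lemma Sg_Mq_add (m₁ m₂ : A) (n : ℕ) : Sg (-aφ) (Mq (m₁ + m₂)) n =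
    Sg (-aφ) (Mq m₁) n + Sg (-aφ) (Mq m₂) n := by
  unfold Sg
  rw [← sum_add_distrib]
  refine sum_congr rfl fun j _ => ?_
  rw [(Mq_add m₁ m₂ (n - j)).1]
  ring

/-- the ideal is killed by the evaluation at a point of the curve -/
lemma ev_II {ξ η ε : ℂ} (h1 : ξ - 1 ≠ 0) (h2 : 2 * η ^ 2 = ξ * (ξ ^ 2 + 1)) {z : A} (hz : z ∈ II) :
    eval (pt ξ η ε) z = 0 := by
  obtain ⟨a, b, rfl⟩ := mem_II.mp hz
  have e1 : eval (pt ξ η ε) r1 = 0 := by
    unfold r1 aX aT pt
    simp only [map_sub, map_mul, map_one, eval_X]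
    simp only [Matrix.cons_val]
    field_simp
    ring
  have e2 : eval (pt ξ η ε) r2 = 0 := by
    unfold r2 aX aH aB pt
    simp only [map_sub, map_mul, map_pow, map_one, eval_X]
    simp only [Matrix.cons_val]
    linear_combination (1 / 2) * h2
  rw [map_add, map_mul, map_mul, e1, e2]
  ring

/-- the base value -/
theorem val_T (g2 : L.g₂ = -1) {T : ℂ} (hT : TP L q 1 T) (ξ η ε : ℂ) (e : ℕ) :
    2 ^ (e + 1) * ((e.factorial : ℂ) * ek L 0 q e T) =
      2 ^ e * eval (pt ξ η ε) (Sg (-aφ) (Mq 1) e) := by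
  rw [ek_eq e (two_mul_notMem_of L hT.nm), evU_T g2 hT ξ η ε, key_T, map_mul, eval_C]
  ring

/-- the value of the pair -/
theorem val_pair (hL : CM L) (g2 : L.g₂ = -1) {T Q : ℂ} (hT : TP L q 1 T)
    (hQ : Q ∉ L.lattice) (h1 : T + Q ∉ L.lattice) (h2 : T - Q ∉ L.lattice) (e : ℕ) :
    2 ^ e * ((e.factorial : ℂ) * (ek L 0 q e (T + Q) + ek L 0 q e (T - Q))) =
      2 ^ e * eval (pt (Xi L Q) (℘'[L] Q) (E1 L 0 q Q)) (Sg (-aφ) (Mq 1) e) +
      2 ^ e * eval (pt (Xi L Q) (℘'[L] Q) (E1 L 0 q Q)) (Sg (-aφ) (Mq (2 * aT)) e) := by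
  have hT' := two_mul_notMem_of L hT.nm
  have h3 : ℘[L] T - ℘[L] Q ≠ 0 := by
    rw [sub_ne_zero, Ne, wp_eq_iff L hT' hQ]
    tauto
  have hξ : Xi L Q - 1 ≠ 0 := by
    unfold Xi
    intro h
    apply h3
    rw [hT.x]
    linear_combination (-1 / 2) * h
  have h4 : -T + Q ∉ L.lattice := fun h => h2 (by
    have := neg_mem h
    rwa [show -(-T + Q) = T - Q by ring] at this)
  have h5 : -T - Q ∉ L.lattice := fun h => h1 (by
    have := neg_mem h
    rwa [show -(-T - Q) = T + Q by ring] at this)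
  have e1 : ek L 0 q e (T - Q) = -ek L 0 q e (-T + Q) := by
    rw [← ek_neg hL e h4]
    congr 1
    ring
  have e2 := ek_eq (q := q) e h1
  have e3 := ek_eq (q := q) e h4
  rw [evU_ps g2 (Or.inl rfl) hT hQ h1 h2] at e2
  rw [evU_ps g2 (Or.inr rfl) hT.neg hQ h4 h5] at e3
  have e4 := ev_II (ε := E1 L 0 q Q) hξ (curve hL g2 hQ) (key_diff e)
  rw [Sg_Mq_add, map_sub, map_sub, map_add] at e4
  rw [e1]
  linear_combination 2 ^ e * e2 - 2 ^ e * e3 + 2 ^ e * e4

lemma TP.add {s T Q : ℂ} (hT : TP L q s T) (hQ : OT L Q) : T + Q ∉ L.lattice := by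
  obtain ⟨-, N, ⟨k, rfl⟩, h2⟩ := hQ
  intro h
  apply hT.nm
  have h3 := nsmul_mem h (2 * (2 * k + 1))
  have h4 := nsmul_mem h2 2
  have h5 := nsmul_mem hT.fo k
  rw [nsmul_eq_mul] at h3 h4 h5
  have h6 := sub_mem (sub_mem h3 h4) h5
  convert h6 using 1
  push_cast
  ring

lemma TP.sub {s T Q : ℂ} (hT : TP L q s T) (hQ : OT L Q) : T - Q ∉ L.lattice := by
  rw [sub_eq_add_neg]
  exact hT.add hQ.neg

section val

variable {Γ : Type*} [LinearOrderedCommGroupWithZero Γ] {v : Valuation ℂ Γ} {ρ : ℂ}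
  (hρ : ρ ^ 4 = 2) (hr : v ρ < 1)

include hρ hr in
theorem est_base (g2 : L.g₂ = -1) {T : ℂ} (hT : TP L q 1 T) (m e : ℕ)
    (he : e = 4 * m ∨ e = 4 * m + 1) :
    v (2 ^ (e + 1) * ((e.factorial : ℂ) * ek L 0 q e T)) = v ρ ^ (8 * m) := by
  rw [val_T g2 hT (1 + ρ ^ 3) 0 0]
  refine est_one hρ hr ?_ ?_ ?_ m e he
  · rw [mul_zero, map_zero]; exact zero_le_one
  · rw [map_zero]; exact zero_le_one
  · rw [add_sub_cancel_left, map_pow]

include hρ hr in
theorem est_pair (hL : CM L) (g2 : L.g₂ = -1)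
    (hq : ∀ l ∈ L.lattice, eta L l = 0 * l + q * (starRingEnd ℂ) l) {T Q : ℂ} (hT : TP L q 1 T)
    (hQ : OT L Q) (m e : ℕ) (he : e = 4 * m ∨ e = 4 * m + 1) :
    v (2 ^ e * ((e.factorial : ℂ) * (ek L 0 q e (T + Q) + ek L 0 q e (T - Q))) -
      2 ^ (e + 1) * ((e.factorial : ℂ) * ek L 0 q e T)) ≤ v ρ ^ (8 * m + 1) := by
  rw [val_pair hL g2 hT hQ.1 (hT.add hQ) (hT.sub hQ),
    val_T g2 hT (Xi L Q) (℘'[L] Q) (E1 L 0 q Q), add_sub_cancel_left]
  exact est_two hρ hr (E1_le hL g2 hρ hr hq hQ) (Et_eq hL g2 hρ hr hQ).le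
    (Xi_sub hL g2 hρ hr hQ) m e he

end val

end Pool.Agent.Y690.NV
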