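import Pool.Agent.Y690.X.Alg3

/-!
# The scaled form of the recursion
-/

set_option autoImplicit false
set_option linter.unusedSimpArgs false
set_option linter.unusedSectionVars false

namespace Pool.Agent.Y690.NV

open MvPolynomial Finset

/-- polynomials in `R`, `B`, `x`, `y`, `η` -/
abbrev Q5 := MvPolynomial (Fin 5) ℤ

noncomputable def qR : Q5 := X 0
noncomputable def qB : Q5 := X 1
noncomputable def qx : Q5 := X 2
noncomputable def qy : Q5 := X 3
noncomputable def qh : Q5 := X 4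

noncomputable def qf : Q5 := (1 + qR ^ 2 * qx) * (1 + qB * (qR ^ 2 * qx)) + qR ^ 2 * (qy * qh)

noncomputable def dq : Derivation ℤ Q5 Q5 :=
  mkDerivation ℤ ![0, qR ^ 2 * (qB - 2 * qB ^ 2), qf,
    -(qB * (qR ^ 2 * qy + qx * qy + qh)),
    qh * (3 * qB * qx + qR ^ 2) + qy * (qB * (qR ^ 2 + 3 * qx) * qx + qR ^ 4 * (1 + qR ^ 2 * qx))]

lemma dq_R : dq qR = 0 := mkDerivation_X _ _ _
lemma dq_B : dq qB = qR ^ 2 * (qB - 2 * qB ^ 2) := mkDerivation_X _ _ _
lemma dq_x : dq qx = qf := mkDerivation_X _ _ _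
lemma dq_y : dq qy = -(qB * (qR ^ 2 * qy + qx * qy + qh)) := mkDerivation_X _ _ _
lemma dq_h : dq qh = qh * (3 * qB * qx + qR ^ 2) +
    qy * (qB * (qR ^ 2 + 3 * qx) * qx + qR ^ 4 * (1 + qR ^ 2 * qx)) := mkDerivation_X _ _ _

lemma Q_mul (a b : Q5) : dq (a * b) = a * dq b + b * dq a := by
  rw [Derivation.leibniz, smul_eq_mul, smul_eq_mul]

lemma Q_pow (a : Q5) (n : ℕ) : dq (a ^ n) = n * a ^ (n - 1) * dq a := by
  rw [Derivation.leibniz_pow, smul_eq_mul, nsmul_eq_mul]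
  ring

/-- `B (1 - 2 B)` -/
noncomputable def qθ : Q5 := qB - 2 * qB ^ 2

lemma dq_R2 (u : Q5) : dq (qR ^ 2 * u) = qR ^ 2 * dq u := by
  rw [Q_mul, Q_pow, dq_R]
  ring

lemma dvd_dq {u : Q5} (h : qR ^ 2 ∣ u) : qR ^ 2 ∣ dq u := by
  obtain ⟨w, rfl⟩ := h
  exact ⟨dq w, dq_R2 w⟩

lemma dvd_dθ : qR ^ 2 ∣ dq qθ := by
  have h2 : dq 2 = 0 := by
    have h := dq.map_natCast 2
    push_cast at h
    exact h
  refine ⟨(qB - 2 * qB ^ 2) * (1 - 4 * qB), ?_⟩
  unfold qθ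
  rw [map_sub, Q_mul, Q_pow, dq_B, h2]
  push_cast
  ring

lemma dvd_df : qR ^ 2 ∣ dq qf := by
  have h : qf = 1 + qR ^ 2 * (qx + qB * qx + qB * (qR ^ 2 * qx ^ 2) + qy * qh) := by
    unfold qf; ring
  rw [h, map_add, Derivation.map_one_eq_zero, zero_add, dq_R2]
  exact Dvd.intro _ rfl

/-- the coefficients of the solution -/
noncomputable def Gq : ℕ → ℕ → Q5
  | 0, 0 => 1
  | 0, _ + 1 => 0
  | 1, 0 => 0
  | 1, 1 => -qf
  | 1, _ + 2 => 0
  | n + 2, 0 => dq (Gq (n + 1) 0) + (n + 1) ^ 2 * (qθ * Gq n 0)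
  | n + 2, j + 1 => dq (Gq (n + 1) (j + 1)) - qf * Gq (n + 1) j + (n + 1) ^ 2 * (qθ * Gq n (j + 1))

lemma Gq_00 : Gq 0 0 = 1 := by rw [Gq]
lemma Gq_0s (j : ℕ) : Gq 0 (j + 1) = 0 := by rw [Gq]
lemma Gq_10 : Gq 1 0 = 0 := by rw [Gq]
lemma Gq_11 : Gq 1 1 = -qf := by rw [Gq]
lemma Gq_1s (j : ℕ) : Gq 1 (j + 2) = 0 := by rw [Gq]
lemma Gq_n0 (n : ℕ) : Gq (n + 2) 0 = dq (Gq (n + 1) 0) + (n + 1) ^ 2 * (qθ * Gq n 0) := by rw [Gq]
lemma Gq_ns (n j : ℕ) : Gq (n + 2) (j + 1) = dq (Gq (n + 1) (j + 1)) - qf * Gq (n + 1) j +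
    (n + 1) ^ 2 * (qθ * Gq n (j + 1)) := by rw [Gq]

lemma Gq_big (n : ℕ) : (∀ j, n < j → Gq n j = 0) ∧ (∀ j, n + 1 < j → Gq (n + 1) j = 0) := by
  induction n with
  | zero =>
    refine ⟨fun j hj => ?_, fun j hj => ?_⟩
    · obtain ⟨i, rfl⟩ : ∃ i, j = i + 1 := ⟨j - 1, by omega⟩
      exact Gq_0s i
    · obtain ⟨i, rfl⟩ : ∃ i, j = i + 2 := ⟨j - 2, by omega⟩
      exact Gq_1s i
  | succ n ih =>
    refine ⟨ih.2, fun j hj => ?_⟩
    obtain ⟨i, rfl⟩ : ∃ i, j = i + 1 := ⟨j - 1, by omega⟩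
    rw [show n + 1 + 1 = n + 2 from rfl, Gq_ns, ih.2 (i + 1) (by omega), ih.2 i (by omega),
      ih.1 (i + 1) (by omega), map_zero]
    ring

/-- the first column -/
lemma col0 (n : ℕ) : (Odd n → qR ^ 2 ∣ Gq n 0) ∧ (Even n → qR ^ 2 ∣ dq (Gq n 0)) ∧
    (Odd (n + 1) → qR ^ 2 ∣ Gq (n + 1) 0) ∧ (Even (n + 1) → qR ^ 2 ∣ dq (Gq (n + 1) 0)) := by
  induction n with
  | zero =>
    refine ⟨fun h => absurd h (by decide), fun _ => ?_, fun _ => ?_, fun h => absurd h (by decide)⟩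
    · rw [Gq_00, Derivation.map_one_eq_zero]; exact dvd_zero _
    · rw [zero_add, Gq_10]; exact dvd_zero _
  | succ n ih =>
    obtain ⟨h1, h2, h3, h4⟩ := ih
    refine ⟨h3, h4, fun ho => ?_, fun he => ?_⟩
    · have hn1 : Even (n + 1) := by rcases Nat.even_or_odd (n + 1) with h | h
                                    · exact h
                                    · exact absurd ho (by rw [Nat.not_odd_iff_even]; exact h.add_one)
      have hn : Odd n := by rcases Nat.even_or_odd n with h | h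
                            · exact absurd hn1 (by rw [Nat.not_even_iff_odd]; exact h.add_one)
                            · exact h
      rw [show n + 1 + 1 = n + 2 from rfl, Gq_n0]
      exact dvd_add (h4 hn1) (dvd_mul_of_dvd_right (dvd_mul_of_dvd_right (h1 hn) _) _)
    · have hn1 : Odd (n + 1) := by rcases Nat.even_or_odd (n + 1) with h | h
                                   · exact absurd he (by rw [Nat.not_even_iff_odd]; exact h.add_one)
                                   · exact h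
      have hn : Even n := by rcases Nat.even_or_odd n with h | h
                             · exact h
                             · exact absurd hn1 (by rw [Nat.not_odd_iff_even]; exact h.add_one)
      have e : ((n : Q5) + 1) ^ 2 * (qθ * Gq n 0) = (((n + 1) ^ 2 : ℕ) : Q5) * (qθ * Gq n 0) := by
        push_cast; ring
      rw [show n + 1 + 1 = n + 2 from rfl, Gq_n0, e, map_add, Q_mul, Derivation.map_natCast,
        mul_zero, add_zero, Q_mul]
      exact dvd_add (dvd_dq (dvd_dq (h3 hn1))) (dvd_mul_of_dvd_right (dvd_add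
        (dvd_mul_of_dvd_right (h2 hn) _) (dvd_mul_of_dvd_right dvd_dθ _)) _)

lemma odd_par {n : ℕ} (h : Odd (n + 1)) : Even n := by
  rcases Nat.even_or_odd n with h' | h'
  · exact h'
  · exact absurd h (by rw [Nat.not_odd_iff_even]; exact h'.add_one)

lemma even_par {n : ℕ} (h : Even (n + 1)) : Odd n := by
  rcases Nat.even_or_odd n with h' | h'
  · exact absurd h (by rw [Nat.not_even_iff_odd]; exact h'.add_one)
  · exact h'

/-- the second column -/
lemma col1 (n : ℕ) : (Even n → qR ^ 2 ∣ Gq n 1) ∧ (Odd n → qR ^ 2 ∣ dq (Gq n 1)) ∧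
    (Even (n + 1) → qR ^ 2 ∣ Gq (n + 1) 1) ∧ (Odd (n + 1) → qR ^ 2 ∣ dq (Gq (n + 1) 1)) := by
  induction n with
  | zero =>
    refine ⟨fun _ => ?_, fun h => absurd h (by decide), fun h => absurd h (by decide), fun _ => ?_⟩
    · rw [Gq_0s]; exact dvd_zero _
    · rw [zero_add, Gq_11, map_neg]; exact (dvd_neg).mpr dvd_df
  | succ n ih =>
    obtain ⟨h1, h2, h3, h4⟩ := ih
    refine ⟨h3, h4, fun he => ?_, fun ho => ?_⟩
    · have hn1 := even_par he
      have hn := odd_par hn1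
      rw [show n + 1 + 1 = n + 2 from rfl, show (1 : ℕ) = 0 + 1 from rfl, Gq_ns]
      exact dvd_add (dvd_sub (h4 hn1) (dvd_mul_of_dvd_right ((col0 (n + 1)).1 hn1) _))
        (dvd_mul_of_dvd_right (dvd_mul_of_dvd_right (h1 hn) _) _)
    · have hn1 := odd_par ho
      have hn := even_par hn1
      have e : ((n : Q5) + 1) ^ 2 * (qθ * Gq n (0 + 1)) =
          (((n + 1) ^ 2 : ℕ) : Q5) * (qθ * Gq n (0 + 1)) := by
        push_cast; ring
      rw [show n + 1 + 1 = n + 2 from rfl, show (1 : ℕ) = 0 + 1 from rfl, Gq_ns, e, map_add,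
        map_sub, Q_mul, Q_mul _ (qθ * _), Derivation.map_natCast, mul_zero, add_zero, Q_mul]
      exact dvd_add (dvd_sub (dvd_dq (dvd_dq (h3 hn1))) (dvd_add
        (dvd_mul_of_dvd_right ((col0 (n + 1)).2.1 hn1) _) (dvd_mul_of_dvd_right dvd_df _)))
        (dvd_mul_of_dvd_right (dvd_add (dvd_mul_of_dvd_right (h2 hn) _)
          (dvd_mul_of_dvd_right dvd_dθ _)) _)

/-- the even entries of the first column -/
lemma col0_even (m : ℕ) : ∃ u v : Q5, Gq (2 * m) 0 = qθ ^ m + qR ^ 2 * u + 2 * v := by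
  induction m with
  | zero => exact ⟨0, 0, by rw [mul_zero, Gq_00]; ring⟩
  | succ m ih =>
    obtain ⟨u, v, h⟩ := ih
    obtain ⟨w, hw⟩ := dvd_dq ((col0 (2 * m + 1)).1 ⟨m, rfl⟩)
    refine ⟨w + qθ * u, qθ * v + (2 * m ^ 2 + 2 * m) * (qθ * Gq (2 * m) 0), ?_⟩
    rw [show 2 * (m + 1) = 2 * m + 2 from rfl, Gq_n0, hw]
    push_cast
    linear_combination qθ * h

section kappa

variable (ρ : ℂ)

/-- the substitution -/
noncomputable def κ : Q5 →+* A := eval₂Hom (Int.castRingHom A)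
  ![C ρ, 2 * aB, C (ρ ^ 2 / 2) * (aX - 1), C (ρ ^ 2) * aE, aH]

lemma κ_R : κ ρ qR = C ρ := eval₂Hom_X' _ _ _
lemma κ_B : κ ρ qB = 2 * aB := eval₂Hom_X' _ _ _
lemma κ_x : κ ρ qx = C (ρ ^ 2 / 2) * (aX - 1) := eval₂Hom_X' _ _ _
lemma κ_y : κ ρ qy = C (ρ ^ 2) * aE := eval₂Hom_X' _ _ _
lemma κ_h : κ ρ qh = aH := eval₂Hom_X' _ _ _

variable {ρ} (hρ : ρ ^ 4 = 2)
include hρ

lemma κ_f : κ ρ qf = fX := by
  unfold qf
  simp only [map_add, map_mul, map_one, map_pow, κ_R, κ_B, κ_x, κ_y, κ_h]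
  refine MvPolynomial.funext fun v => ?_
  simp only [fX, aX, aB, aE, aH, map_add, map_sub, map_mul, map_neg, map_pow, map_one, map_ofNat,
      eval_X, eval_C, map_zero]
  linear_combination (v 1 * (v 1 - 1) * v 0 + (v 1 - 1) / 2 +
    ((ρ ^ 4 + 2) * v 0 * (v 1 - 1) ^ 2 / 2) - (v 1 * (v 1 - 1) * v 0) + v 0 * (v 1 - 1) +
    v 3 * v 2) * hρ

lemma κ_d (u : Q5) : κ ρ (dq u) = C (ρ ^ 2) * da (κ ρ u) := by
  induction u using MvPolynomial.induction_on with
  | C a =>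
    have h1 : dq (C a) = 0 := by
      have h := dq.map_algebraMap a
      rwa [algebraMap_eq] at h
    have h2 : κ ρ (C a) = (a : A) := by unfold κ; rw [eval₂Hom_C]; rfl
    rw [h1, h2, map_zero, Derivation.map_intCast, mul_zero]
  | add p q hp hq => rw [map_add, map_add, map_add, map_add, hp, hq]; ring
  | mul_X p i hp =>
    have hi : κ ρ (dq (X i)) = C (ρ ^ 2) * da (κ ρ (X i)) := by
      have d2 : da 2 = 0 := A_ofNat da 2
      fin_cases i
      · show κ ρ (dq qR) = C (ρ ^ 2) * da (κ ρ qR)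
        rw [dq_R, κ_R, A_C, map_zero, mul_zero]
      · show κ ρ (dq qB) = C (ρ ^ 2) * da (κ ρ qB)
        rw [dq_B, κ_B, A_mul, d2, da_B]
        simp only [map_add, map_sub, map_mul, map_one, map_pow, map_ofNat, κ_R, κ_B, κ_x, κ_y, κ_h]
        refine MvPolynomial.funext fun v => ?_
        simp only [fX, aX, aB, aE, aH, map_add, map_sub, map_mul, map_neg, map_pow, map_one,
          map_ofNat, eval_X, eval_C, map_zero]
        ring
      · show κ ρ (dq qx) = C (ρ ^ 2) * da (κ ρ qx)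
        have e : C (ρ ^ 2) * (C (ρ ^ 2 / 2) * fX) = fX := by
          rw [← mul_assoc, ← map_mul, show ρ ^ 2 * (ρ ^ 2 / 2) = 1 by
            linear_combination (1 / 2) * hρ, map_one, one_mul]
        rw [dq_x, κ_f hρ, κ_x, A_mul, A_C, mul_zero, add_zero, map_sub,
          Derivation.map_one_eq_zero, sub_zero, da_X, e]
      · show κ ρ (dq qy) = C (ρ ^ 2) * da (κ ρ qy)
        rw [dq_y, κ_y, A_mul, A_C, da_E]
        simp only [map_add, map_sub, map_mul, map_neg, map_one, map_pow, map_ofNat, κ_R, κ_B, κ_x,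
          κ_y, κ_h]
        refine MvPolynomial.funext fun v => ?_
        simp only [fX, aX, aB, aE, aH, map_add, map_sub, map_mul, map_neg, map_pow, map_one,
          map_ofNat, eval_X, eval_C, map_zero]
        linear_combination (v 0 * v 3 * 2 + v 0 * v 2 + v 0 * v 3 * (v 1 - 1) - v 0 * v 3 * 2 -
          v 0 * v 3 * (v 1 - 1)) * hρ
      · show κ ρ (dq qh) = C (ρ ^ 2) * da (κ ρ qh)
        rw [dq_h, κ_h, da_H]
        simp only [map_add, map_sub, map_mul, map_neg, map_one, map_pow, map_ofNat, κ_R, κ_B, κ_x,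
          κ_y, κ_h]
        refine MvPolynomial.funext fun v => ?_
        simp only [fX, aX, aB, aE, aH, map_add, map_sub, map_mul, map_neg, map_pow, map_one,
          map_ofNat, eval_X, eval_C, map_zero]
        linear_combination (v 0 * v 3 * ρ ^ 2 * (3 / 2 * v 1 ^ 2 - 2 * v 1 + 1 / 2) +
          v 3 * (ρ ^ 2 * v 1 * (ρ ^ 4 + 2) / 2 - ρ ^ 6 / 2)) * hρ
    rw [Q_mul, map_add, map_mul, map_mul, hp, hi, map_mul, A_mul]
    ring

/-- the solution with initial value one -/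
lemma Mq_scale (n : ℕ) : (2 : A) ^ n * Mq 1 n = C (ρ ^ 2) ^ n * κ ρ (Gq n 0) ∧
    (2 : A) ^ (n + 1) * Mq 1 (n + 1) = C (ρ ^ 2) ^ (n + 1) * κ ρ (Gq (n + 1) 0) := by
  have h22 : C (ρ ^ 2) * C (ρ ^ 2) = (2 : A) := by
    rw [← map_mul, show ρ ^ 2 * ρ ^ 2 = ρ ^ 4 by ring, hρ, map_ofNat]
  have hθ : κ ρ qθ = 2 * aβ := by
    unfold qθ aβ
    simp only [map_sub, map_mul, map_pow, map_ofNat, κ_B]
    ring
  induction n with
  | zero =>
    refine ⟨by rw [Mq_zero, Gq_00, map_one]; ring, ?_⟩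
    rw [zero_add, Mq_one, Gq_10, Derivation.map_one_eq_zero, map_zero]
    ring
  | succ n ih =>
    refine ⟨ih.2, ?_⟩
    have hd : da ((2 : A) ^ (n + 1) * Mq 1 (n + 1)) = (2 : A) ^ (n + 1) * da (Mq 1 (n + 1)) := by
      have : ((2 : A) ^ (n + 1)) = (((2 ^ (n + 1) : ℕ)) : A) := by push_cast; ring
      rw [A_mul, this, Derivation.map_natCast]
      ring
    have hd2 : da (C (ρ ^ 2) ^ (n + 1) * κ ρ (Gq (n + 1) 0)) =
        C (ρ ^ 2) ^ (n + 1) * da (κ ρ (Gq (n + 1) 0)) := by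
      rw [← map_pow, A_mul, A_C]
      ring
    have h1 : (2 : A) ^ (n + 1) * da (Mq 1 (n + 1)) =
        C (ρ ^ 2) ^ (n + 1) * da (κ ρ (Gq (n + 1) 0)) := by
      rw [← hd, ih.2, hd2]
    have hk := κ_d hρ (Gq (n + 1) 0)
    rw [show n + 1 + 1 = n + 2 from rfl, Mq_rec, Gq_n0, map_add, hk]
    have e : κ ρ (((n : Q5) + 1) ^ 2 * (qθ * Gq n 0)) = ((n : A) + 1) ^ 2 *
        (2 * aβ * κ ρ (Gq n 0)) := by
      simp only [map_mul, map_pow, map_add, map_natCast, map_one, hθ]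
    rw [e]
    linear_combination 2 * h1 + (4 * (n + 1) ^ 2 * aβ) * ih.1 -
      (C (ρ ^ 2) ^ (n + 1) * da (κ ρ (Gq (n + 1) 0))) * h22 -
      (2 * ((n : A) + 1) ^ 2 * aβ * κ ρ (Gq n 0) * C (ρ ^ 2) ^ n) * h22

/-- `ρ² τ` -/
noncomputable def aS (ρ : ℂ) : A := C (ρ ^ 2) * aT

/-- the solution with initial value `2 τ` -/
noncomputable def Sx (ρ : ℂ) (n : ℕ) : A :=
  ∑ j ∈ range (n + 1), (j.factorial : A) * (aS ρ ^ (j + 1) * κ ρ (Gq n j))

omit hρ in
lemma Sx_big (n N : ℕ) (h : n < N) : Sx ρ n =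
    ∑ j ∈ range N, (j.factorial : A) * (aS ρ ^ (j + 1) * κ ρ (Gq n j)) := by
  unfold Sx
  refine sum_subset (range_mono h) fun j _ hj => ?_
  rw [(Gq_big n).1 j (by rw [mem_range] at hj; omega), map_zero]
  ring

lemma da_S : C (ρ ^ 2) * da (aS ρ) = -(aS ρ ^ 2 * κ ρ qf) := by
  unfold aS
  rw [A_mul, A_C, κ_f hρ, da_T]
  ring

lemma da_pow (j : ℕ) (g : A) : C (ρ ^ 2) * da (aS ρ ^ (j + 1) * g) =
    aS ρ ^ (j + 1) * (C (ρ ^ 2) * da g) - ((j : A) + 1) * aS ρ ^ (j + 2) * (κ ρ qf * g) := by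
  rw [A_mul, A_pow, Nat.add_sub_cancel]
  push_cast
  linear_combination (g * ((j : A) + 1) * aS ρ ^ j) * da_S hρ

lemma Sx_rec (n : ℕ) : Sx ρ (n + 2) = C (ρ ^ 2) * da (Sx ρ (n + 1)) +
    ((n : A) + 1) ^ 2 * (κ ρ qθ * Sx ρ n) := by
  have h1 : C (ρ ^ 2) * da (Sx ρ (n + 1)) =
      ∑ j ∈ range (n + 3), (j.factorial : A) * (aS ρ ^ (j + 1) * κ ρ (dq (Gq (n + 1) j))) -
      ∑ j ∈ range (n + 2), ((j + 1).factorial : A) * (aS ρ ^ (j + 2) *
        (κ ρ qf * κ ρ (Gq (n + 1) j))) := by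
    rw [sum_range_succ _ (n + 2), (Gq_big (n + 1)).1 (n + 2) (by omega), map_zero, map_zero,
      mul_zero, mul_zero, add_zero]
    unfold Sx
    rw [map_sum, mul_sum, ← sum_sub_distrib]
    refine sum_congr rfl fun j _ => ?_
    have e := da_pow hρ j (κ ρ (Gq (n + 1) j))
    have e2 : da ((j.factorial : A) * (aS ρ ^ (j + 1) * κ ρ (Gq (n + 1) j))) =
        (j.factorial : A) * da (aS ρ ^ (j + 1) * κ ρ (Gq (n + 1) j)) := by
      rw [A_mul, Derivation.map_natCast]; ring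
    rw [e2, κ_d hρ, Nat.factorial_succ]
    push_cast
    linear_combination (j.factorial : A) * e
  rw [h1, Sx_big (n + 2) (n + 3) (by omega), Sx_big n (n + 3) (by omega), mul_sum, mul_sum,
    sum_range_succ' _ (n + 2), sum_range_succ' _ (n + 2), sum_range_succ' _ (n + 2)]
  have h2 : ∑ k ∈ range (n + 2), ((k + 1).factorial : A) * (aS ρ ^ (k + 1 + 1) *
      κ ρ (Gq (n + 2) (k + 1))) = ∑ k ∈ range (n + 2), ((k + 1).factorial : A) *
        (aS ρ ^ (k + 1 + 1) * κ ρ (dq (Gq (n + 1) (k + 1)))) -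
      ∑ j ∈ range (n + 2), ((j + 1).factorial : A) * (aS ρ ^ (j + 2) *
        (κ ρ qf * κ ρ (Gq (n + 1) j))) +
      ∑ k ∈ range (n + 2), ((n : A) + 1) ^ 2 * (κ ρ qθ * (((k + 1).factorial : A) *
        (aS ρ ^ (k + 1 + 1) * κ ρ (Gq n (k + 1))))) := by
    rw [← sum_sub_distrib, ← sum_add_distrib]
    refine sum_congr rfl fun k _ => ?_
    rw [Gq_ns]
    simp only [map_add, map_sub, map_mul, map_pow, map_natCast, map_one]
    ring
  rw [h2, Gq_n0]
  simp only [map_add, map_sub, map_mul, map_pow, map_natCast, map_one, Nat.factorial_zero]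
  ring

/-- the solution with initial value `2 τ` -/
lemma Mq_scale' (n : ℕ) : (2 : A) ^ n * Mq (2 * aT) n = C (ρ ^ 2) ^ (n + 1) * Sx ρ n ∧
    (2 : A) ^ (n + 1) * Mq (2 * aT) (n + 1) = C (ρ ^ 2) ^ (n + 2) * Sx ρ (n + 1) := by
  have h22 : C (ρ ^ 2) * C (ρ ^ 2) = (2 : A) := by
    rw [← map_mul, show ρ ^ 2 * ρ ^ 2 = ρ ^ 4 by ring, hρ, map_ofNat]
  have hθ : κ ρ qθ = 2 * aβ := by
    unfold qθ aβ
    simp only [map_sub, map_mul, map_pow, map_ofNat, κ_B]
    ring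
  have h00 : Sx ρ 0 = aS ρ := by
    unfold Sx
    rw [sum_range_one, Gq_00, map_one]
    simp
  induction n with
  | zero =>
    refine ⟨?_, ?_⟩
    · rw [Mq_zero, h00]
      unfold aS
      linear_combination (-aT) * h22
    · have h10 : Sx ρ 1 = -(aS ρ ^ 2 * κ ρ qf) := by
        unfold Sx
        rw [sum_range_succ, sum_range_one, Gq_10, Gq_11, map_zero, map_neg]
        simp
      have d2 : da 2 = 0 := A_ofNat da 2
      rw [zero_add, Mq_one, h10, A_mul, d2, κ_f hρ, da_T]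
      unfold aS
      linear_combination (aT ^ 2 * fX * (C (ρ ^ 2) * C (ρ ^ 2) + 2)) * h22
  | succ n ih =>
    refine ⟨ih.2, ?_⟩
    have hd : da ((2 : A) ^ (n + 1) * Mq (2 * aT) (n + 1)) =
        (2 : A) ^ (n + 1) * da (Mq (2 * aT) (n + 1)) := by
      have : ((2 : A) ^ (n + 1)) = (((2 ^ (n + 1) : ℕ)) : A) := by push_cast; ring
      rw [A_mul, this, Derivation.map_natCast]
      ring
    have hd2 : da (C (ρ ^ 2) ^ (n + 2) * Sx ρ (n + 1)) =
        C (ρ ^ 2) ^ (n + 2) * da (Sx ρ (n + 1)) := by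
      rw [← map_pow, A_mul, A_C]
      ring
    have h1 : (2 : A) ^ (n + 1) * da (Mq (2 * aT) (n + 1)) =
        C (ρ ^ 2) ^ (n + 2) * da (Sx ρ (n + 1)) := by
      rw [← hd, ih.2, hd2]
    rw [show n + 1 + 1 = n + 2 from rfl, Mq_rec, Sx_rec hρ, hθ]
    linear_combination 2 * h1 + (4 * (n + 1) ^ 2 * aβ) * ih.1 -
      (C (ρ ^ 2) ^ (n + 2) * da (Sx ρ (n + 1))) * h22 -
      (2 * ((n : A) + 1) ^ 2 * aβ * Sx ρ n * C (ρ ^ 2) ^ (n + 1)) * h22

end kappa

end Pool.Agent.Y690.NV
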