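import Pool.Agent.Y690.X.Est
import Pool.Agent.Y690.X.Lat
import Pool.Agent.H667R3.W7

/-!
# Torsion points of odd order on the square lattice, at two
-/

set_option autoImplicit false
set_option linter.unusedSectionVars false

open scoped PeriodPair

namespace Pool.Agent.Y690.NV

open H667R3 Pool.Agent.TH936.CW

/-- a nonzero point of odd order -/
def OT (L : PeriodPair) (z : ℂ) : Prop := z ∉ L.lattice ∧ ∃ N : ℕ, Odd N ∧ (N : ℂ) * z ∈ L.lattice

variable {L : PeriodPair}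

lemma OT.two {z : ℂ} (h : OT L z) : OT L (2 * z) := by
  obtain ⟨h1, N, ⟨k, rfl⟩, h2⟩ := h
  refine ⟨fun h3 => h1 ?_, 2 * k + 1, ⟨k, rfl⟩, ?_⟩
  · have h4 : (k : ℂ) * (2 * z) ∈ L.lattice := by
      have := nsmul_mem h3 k
      rwa [nsmul_eq_mul] at this
    have h5 := sub_mem h2 h4
    have e : ((2 * k + 1 : ℕ) : ℂ) * z - k * (2 * z) = z := by push_cast; ring
    rwa [e] at h5
  · have := nsmul_mem h2 2
    rw [nsmul_eq_mul] at this
    have e : ((2 : ℕ) : ℂ) * (((2 * k + 1 : ℕ) : ℂ) * z) = ((2 * k + 1 : ℕ) : ℂ) * (2 * z) := by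
      push_cast; ring
    rwa [e] at this

lemma OT.pow {z : ℂ} (h : OT L z) (n : ℕ) : OT L (2 ^ n * z) := by
  induction n with
  | zero => rwa [pow_zero, one_mul]
  | succ n ih => rw [pow_succ', mul_assoc]; exact ih.two

lemma OT.neg {z : ℂ} (h : OT L z) : OT L (-z) := by
  obtain ⟨h1, N, h3, h2⟩ := h
  refine ⟨fun h => h1 ?_, N, h3, ?_⟩
  · have := neg_mem h
    rwa [neg_neg] at this
  · have := neg_mem h2
    rwa [← mul_neg] at this

lemma OT.per {z : ℂ} (h : OT L z) : ∃ d : ℕ, 0 < d ∧ 2 ^ d * z - z ∈ L.lattice := by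
  obtain ⟨h1, N, h3, h2⟩ := h
  have hN : 0 < N := h3.pos
  refine ⟨N.totient, Nat.totient_pos.mpr hN, ?_⟩
  have hc : Nat.Coprime 2 N := by rwa [Nat.coprime_two_left]
  have h4 := Nat.ModEq.pow_totient hc
  have h5 : N ∣ 2 ^ N.totient - 1 := (Nat.modEq_iff_dvd' (Nat.one_le_two_pow)).mp h4.symm
  obtain ⟨k, hk⟩ := h5
  have h6 : (2 : ℂ) ^ N.totient * z - z = k * (N * z) := by
    have h7 : (2 : ℂ) ^ N.totient - 1 = N * k := by
      have := congrArg (Nat.cast : ℕ → ℂ) hk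
      rw [Nat.cast_sub (Nat.one_le_two_pow)] at this
      push_cast at this
      exact this
    linear_combination z * h7
  rw [h6]
  have := nsmul_mem h2 k
  rwa [nsmul_eq_mul] at this

/-- the coordinates -/
noncomputable def Xi (L : PeriodPair) (z : ℂ) : ℂ := 2 * ℘[L] z

variable (hL : CM L) (g2 : L.g₂ = -1)

include hL g2 in
lemma curve {z : ℂ} (hz : z ∉ L.lattice) : 2 * ℘'[L] z ^ 2 = Xi L z * (Xi L z ^ 2 + 1) := by
  have h := L.derivWeierstrassP_sq z hz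
  rw [g2, g₃_eq_zero hL] at h
  unfold Xi
  linear_combination 2 * h

include hL g2 in
lemma dup {z : ℂ} (hz : 2 * z ∉ L.lattice) :
    Xi L (2 * z) * (4 * Xi L z * (Xi L z ^ 2 + 1)) = (Xi L z ^ 2 - 1) ^ 2 := by
  have hz' := two_mul_notMem_of L hz
  have h1 := wp_two L hz
  have h2 := curve hL g2 hz'
  have h3 := wp'_ne_zero L hz
  rw [g2] at h1
  unfold Xi at h2 ⊢
  have h4 : ℘[L] (2 * z) * (4 * ℘'[L] z ^ 2) = -2 * ℘[L] z * (4 * ℘'[L] z ^ 2) +
      (6 * ℘[L] z ^ 2 - -1 / 2) ^ 2 := by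
    rw [h1]
    field_simp
  linear_combination 4 * h4 - (8 * ℘[L] (2 * z) + 16 * ℘[L] z) * h2

lemma E1_dup {q z : ℂ} (hz : 2 * z ∉ L.lattice) : E1 L 0 q (2 * z) = 2 * E1 L 0 q z +
    (6 * ℘[L] z ^ 2 - L.g₂ / 2) / (2 * ℘'[L] z) := by
  unfold E1 Xx
  rw [zeta_two L hz, map_mul]
  have : (starRingEnd ℂ) (2 : ℂ) = 2 := Complex.conj_ofNat 2
  rw [this]
  ring

lemma Xi_per {z w : ℂ} (h : w - z ∈ L.lattice) : Xi L w = Xi L z := by
  have h2 := Pool.Agent.W245.EB.wp_add_lattice L (u := z) h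
  rw [add_sub_cancel] at h2
  unfold Xi
  rw [h2]

section val

variable {Γ : Type*} [LinearOrderedCommGroupWithZero Γ] {v : Valuation ℂ Γ} {ρ : ℂ}
  (hρ : ρ ^ 4 = 2) (hr : v ρ < 1)

include hρ in
lemma v_four : v 4 = v ρ ^ 8 := by
  rw [show (4 : ℂ) = 2 * 2 by norm_num, map_mul, v_two hρ, ← pow_add]

include hL g2 in
lemma dup_v {z : ℂ} (hz : OT L z) : v (Xi L (2 * z)) * (v 4 * v (Xi L z) * v (Xi L z ^ 2 + 1)) =
    v (Xi L z ^ 2 - 1) ^ 2 := by
  have h := congrArg v (dup hL g2 hz.two.1)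
  rwa [map_mul, map_mul, map_mul, map_pow v (Xi L z ^ 2 - 1)] at h

include hL g2 hρ hr in
lemma big_step {z : ℂ} (hz : OT L z) (h : 1 < v (Xi L z)) : v (Xi L z) < v (Xi L (2 * z)) := by
  have h0 := dup_v (v := v) hL g2 hz
  have h1 : v 1 < v (Xi L z ^ 2) := by
    rw [map_one, map_pow]
    exact one_lt_pow₀ h (by norm_num)
  have h2 : v (Xi L z ^ 2 + 1) = v (Xi L z) ^ 2 := by
    rw [Valuation.map_add_eq_of_lt_left v h1, map_pow]
  have h3 : v (Xi L z ^ 2 - 1) = v (Xi L z) ^ 2 := by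
    rw [Valuation.map_sub_eq_of_lt_left v h1, map_pow]
  rw [h2, h3] at h0
  have hx : v (Xi L z) ≠ 0 := (zero_lt_one.trans h).ne'
  have h4 : v (Xi L (2 * z)) * v 4 = v (Xi L z) := by
    have h5 : (v (Xi L (2 * z)) * v 4) * v (Xi L z) ^ 3 = v (Xi L z) * v (Xi L z) ^ 3 := by
      calc (v (Xi L (2 * z)) * v 4) * v (Xi L z) ^ 3
          = v (Xi L (2 * z)) * (v 4 * v (Xi L z) * v (Xi L z) ^ 2) := by
            rw [pow_succ' (v (Xi L z)) 2]
            simp only [mul_assoc]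
        _ = (v (Xi L z) ^ 2) ^ 2 := h0
        _ = v (Xi L z) * v (Xi L z) ^ 3 := by
            rw [← pow_mul, ← pow_succ']
    exact mul_right_cancel₀ (pow_ne_zero _ hx) h5
  have hy : 0 < v (Xi L (2 * z)) := by
    rw [zero_lt_iff]
    intro hy
    rw [hy, zero_mul] at h4
    exact hx h4.symm
  calc v (Xi L z) = v (Xi L (2 * z)) * v 4 := h4.symm
    _ < v (Xi L (2 * z)) * 1 := by
        refine mul_lt_mul_of_pos_left ?_ hy
        rw [v_four hρ]
        exact pow_lt_one' hr (by norm_num)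
    _ = _ := mul_one _

include hL g2 hρ hr in
lemma Xi_le {z : ℂ} (hz : OT L z) : v (Xi L z) ≤ 1 := by
  by_contra hcon
  push Not at hcon
  have h1 : ∀ n : ℕ, v (Xi L z) ≤ v (Xi L (2 ^ n * z)) ∧
      v (Xi L (2 ^ n * z)) < v (Xi L (2 ^ (n + 1) * z)) := by
    intro n
    induction n with
    | zero =>
      rw [pow_zero, one_mul, zero_add, pow_one]
      exact ⟨le_rfl, big_step hL g2 hρ hr hz hcon⟩
    | succ n ih =>
      have h2 : v (Xi L z) ≤ v (Xi L (2 ^ (n + 1) * z)) := ih.1.trans ih.2.le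
      refine ⟨h2, ?_⟩
      have h3 := big_step hL g2 hρ hr (hz.pow (n + 1)) (hcon.trans_le h2)
      rwa [← mul_assoc, ← pow_succ'] at h3
  obtain ⟨d, hd, hd2⟩ := hz.per
  obtain ⟨k, rfl⟩ : ∃ k, d = k + 1 := ⟨d - 1, by omega⟩
  have h2 := (h1 k).1.trans_lt (h1 k).2
  rw [Xi_per hd2] at h2
  exact lt_irrefl _ h2

include hL g2 hρ hr in
lemma Xi_eq {z : ℂ} (hz : OT L z) : v (Xi L z) = 1 := by
  refine le_antisymm (Xi_le hL g2 hρ hr hz) ?_
  by_contra hcon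
  push Not at hcon
  have h0 := dup_v (v := v) hL g2 hz
  have h1 : v (Xi L z ^ 2) < v 1 := by
    rw [map_one, map_pow]
    exact pow_lt_one₀ zero_le hcon (by norm_num)
  rw [Valuation.map_add_eq_of_lt_right v h1, Valuation.map_sub_eq_of_lt_right v h1, map_one, one_pow,
    mul_one] at h0
  have h2 : v (Xi L (2 * z)) * (v 4 * v (Xi L z)) < 1 := by
    refine (mul_le_of_le_one_left' (Xi_le hL g2 hρ hr hz.two)).trans_lt ?_
    refine mul_lt_one_of_lt_of_le ?_ hcon.le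
    rw [v_four hρ]
    exact pow_lt_one' hr (by norm_num)
  rw [h0] at h2
  exact lt_irrefl _ h2

include hL g2 hρ hr in
lemma Xi_sq {z : ℂ} (hz : OT L z) : v (Xi L z ^ 2 - 1) = v ρ ^ 6 ∧ v (Xi L z ^ 2 + 1) = v ρ ^ 4 := by
  have hp := rho_pos (v := v) hρ
  have h0 := dup_v (v := v) hL g2 hz
  rw [Xi_eq hL g2 hρ hr hz, Xi_eq hL g2 hρ hr hz.two, one_mul, mul_one, v_four hρ] at h0
  have e : Xi L z ^ 2 + 1 = 2 + (Xi L z ^ 2 - 1) := by ring
  have h84 : v ρ ^ 8 < v ρ ^ 4 := pow_lt_pow_right_of_lt_one₀ hp hr (by norm_num)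
  rcases lt_or_ge (v (Xi L z ^ 2 - 1)) (v ρ ^ 4) with h | h
  · have h1 : v (Xi L z ^ 2 + 1) = v ρ ^ 4 := by
      rw [e, Valuation.map_add_eq_of_lt_left v (by rw [v_two hρ]; exact h), v_two hρ]
    refine ⟨?_, h1⟩
    rw [h1, ← pow_add] at h0
    have h2 : v (Xi L z ^ 2 - 1) ^ 2 = (v ρ ^ 6) ^ 2 := by rw [← h0, ← pow_mul]
    exact (pow_left_inj₀ zero_le zero_le (by norm_num)).mp h2
  · exfalso
    have h1 : v (Xi L z ^ 2 + 1) ≤ v (Xi L z ^ 2 - 1) := by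
      rw [e]
      exact (v.map_add _ _).trans (max_le (by rw [v_two hρ]; exact h) le_rfl)
    have hpos : 0 < v (Xi L z ^ 2 - 1) := (pow_pos hp 4).trans_le h
    have h2 : v (Xi L z ^ 2 - 1) * v (Xi L z ^ 2 - 1) ≤ v ρ ^ 8 * v (Xi L z ^ 2 - 1) := by
      rw [← pow_two, ← h0]
      exact mul_le_mul_right h1 _
    have h3 := le_of_mul_le_mul_right h2 hpos
    exact lt_irrefl _ ((h3.trans_lt h84).trans_le h)

include hL g2 hρ hr in
lemma Xi_sub {z : ℂ} (hz : OT L z) : v (Xi L z - 1) = v ρ ^ 3 := by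
  have hp := rho_pos (v := v) hρ
  have h0 := (Xi_sq hL g2 hρ hr hz).1
  rw [show Xi L z ^ 2 - 1 = (Xi L z - 1) * (Xi L z + 1) by ring, map_mul] at h0
  have e : Xi L z + 1 = (Xi L z - 1) + 2 := by ring
  rcases lt_or_ge (v ρ ^ 4) (v (Xi L z - 1)) with h | h
  · have h1 : v (Xi L z + 1) = v (Xi L z - 1) := by
      rw [e, Valuation.map_add_eq_of_lt_left v (by rw [v_two hρ]; exact h)]
    rw [h1, ← pow_two] at h0
    have h2 : v (Xi L z - 1) ^ 2 = (v ρ ^ 3) ^ 2 := by rw [h0, ← pow_mul]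
    exact (pow_left_inj₀ zero_le zero_le (by norm_num)).mp h2
  · exfalso
    have h1 : v (Xi L z + 1) ≤ v ρ ^ 4 := by
      rw [e]
      exact (v.map_add _ _).trans (max_le h (by rw [v_two hρ]))
    have h2 : v ρ ^ 6 ≤ v ρ ^ 8 := by
      rw [← h0]
      calc v (Xi L z - 1) * v (Xi L z + 1) ≤ v ρ ^ 4 * v ρ ^ 4 := mul_le_mul' h h1
        _ = v ρ ^ 8 := by rw [← pow_add]
    exact lt_irrefl _ (h2.trans_lt (pow_lt_pow_right_of_lt_one₀ hp hr (by norm_num)))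

include hL g2 hρ hr in
lemma Et_eq {z : ℂ} (hz : OT L z) : v (℘'[L] z) = 1 := by
  have hp := rho_pos (v := v) hρ
  have h := congrArg v (curve hL g2 hz.1)
  rw [map_mul, map_mul, map_pow, Xi_eq hL g2 hρ hr hz, (Xi_sq hL g2 hρ hr hz).2, v_two hρ,
    one_mul] at h
  have h2 : v (℘'[L] z) ^ 2 = 1 := by
    have h3 : v ρ ^ 4 * v (℘'[L] z) ^ 2 = v ρ ^ 4 * 1 := by rw [h, mul_one]
    exact mul_left_cancel₀ (pow_pos hp 4).ne' h3
  have h3 : v (℘'[L] z) ^ 2 = 1 ^ 2 := by rw [h2, one_pow]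
  exact (pow_left_inj₀ zero_le zero_le (by norm_num)).mp h3

include hL g2 hρ hr in
lemma E1_step {q z : ℂ} (hz : OT L z) : ∃ c : ℂ, v c ≤ 1 ∧
    ρ ^ 2 * E1 L 0 q (2 * z) = 2 * (ρ ^ 2 * E1 L 0 q z) + c := by
  have hp := rho_pos (v := v) hρ
  have h1 := E1_dup (q := q) hz.two.1
  have h2 := wp'_ne_zero L hz.two.1
  refine ⟨ρ ^ 2 * ((3 * (Xi L z ^ 2 - 1) + 4) / (4 * ℘'[L] z)), ?_, ?_⟩
  · have h3 : v (3 * (Xi L z ^ 2 - 1) + 4) ≤ v ρ ^ 6 := by
      refine (v.map_add _ _).trans (max_le ?_ ?_)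
      · rw [map_mul, (Xi_sq hL g2 hρ hr hz).1]
        have : v (3 : ℂ) ≤ 1 := by exact_mod_cast v_nat v 3
        exact mul_le_of_le_one_left' this
      · rw [v_four hρ]
        exact rpow_le hr (by norm_num)
    rw [map_mul, map_div₀, map_mul, v_four hρ, Et_eq hL g2 hρ hr hz, map_pow, mul_one]
    calc v ρ ^ 2 * (v (3 * (Xi L z ^ 2 - 1) + 4) / v ρ ^ 8)
        ≤ v ρ ^ 2 * (v ρ ^ 6 / v ρ ^ 8) := by
          gcongr
          exact zero_le
      _ = 1 := by field_simp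
  · rw [h1, g2]
    unfold Xi
    field_simp
    ring

include hL g2 hρ hr in
lemma E1_le {q z : ℂ} (hq : ∀ l ∈ L.lattice, eta L l = 0 * l + q * (starRingEnd ℂ) l)
    (hz : OT L z) : v (ρ ^ 2 * E1 L 0 q z) ≤ 1 := by
  by_contra hcon
  push Not at hcon
  have h1 : ∀ n : ℕ, v (ρ ^ 2 * E1 L 0 q (2 ^ n * z)) ≤
      max (v 2 ^ n * v (ρ ^ 2 * E1 L 0 q z)) 1 := by
    intro n
    induction n with
    | zero => rw [pow_zero, one_mul, pow_zero, one_mul]; exact le_max_left _ _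
    | succ n ih =>
      obtain ⟨c, hc, hc2⟩ := E1_step (q := q) hL g2 hρ hr (hz.pow n)
      rw [pow_succ' (2 : ℂ) n, mul_assoc, hc2]
      refine (v.map_add _ _).trans (max_le ?_ (hc.trans (le_max_right _ _)))
      rw [map_mul]
      calc v 2 * v (ρ ^ 2 * E1 L 0 q (2 ^ n * z)) ≤
          v 2 * max (v 2 ^ n * v (ρ ^ 2 * E1 L 0 q z)) 1 := mul_le_mul_right ih _
        _ ≤ max (v 2 ^ (n + 1) * v (ρ ^ 2 * E1 L 0 q z)) 1 := by
            rcases le_total (v 2 ^ n * v (ρ ^ 2 * E1 L 0 q z)) 1 with h | h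
            · rw [max_eq_right h, mul_one]
              refine le_trans ?_ (le_max_right _ _)
              exact_mod_cast v_nat v 2
            · rw [max_eq_left h, ← mul_assoc, ← pow_succ']
              exact le_max_left _ _
  obtain ⟨d, hd, hd2⟩ := hz.per
  have h2 := h1 d
  rw [E1_per' hq hz.1 hd2] at h2
  rcases le_total (v 2 ^ d * v (ρ ^ 2 * E1 L 0 q z)) 1 with h | h
  · rw [max_eq_right h] at h2
    exact lt_irrefl _ (h2.trans_lt hcon)
  · rw [max_eq_left h] at h2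
    have h3 : v 2 ^ d * v (ρ ^ 2 * E1 L 0 q z) < 1 * v (ρ ^ 2 * E1 L 0 q z) := by
      refine mul_lt_mul_of_pos_right ?_ (zero_lt_one.trans hcon)
      refine pow_lt_one₀ zero_le ?_ hd.ne'
      rw [v_two hρ]
      exact pow_lt_one' hr (by norm_num)
    rw [one_mul] at h3
    exact lt_irrefl _ (h2.trans_lt h3)

end val

end Pool.Agent.Y690.NV
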