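import Pool.Agent.Y690.X.Base
import Pool.Agent.TH936.CW.Alg

/-!
# The distribution relation for the Eisenstein-Kronecker numbers and the value formula
-/

set_option autoImplicit false
set_option linter.unusedSectionVars false

open Filter
open scoped Topology PeriodPair

namespace Pool.Agent.Y690.NV

open H667R3 Pool.Agent.TH936.CW Pool.Agent.W192.HK
open Pool.Agent.TH936.CM (IsLat latE latE_coe out_sub exists_gen)

variable {L : PeriodPair} {R : Subring ℂ} {Ω q : ℂ}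

lemma gg_neg (e : ℕ) (v u : ℂ) : gg e (-v) (-u) = -gg e v u := by
  unfold gg
  rw [inv_neg, neg_pow v, neg_pow (u⁻¹) (e + 1), pow_succ (-1 : ℂ) e]
  have h : ((-1 : ℂ) ^ e) * (-1) ^ e = 1 := by rw [← mul_pow]; norm_num
  linear_combination (-(v ^ e * u⁻¹ ^ (e + 1))) * h

lemma TT_odd (e : ℕ) (t z : ℂ) : TT L e ((starRingEnd ℂ) (-z)) t (-z) =
    -TT L e ((starRingEnd ℂ) z) t z := by
  unfold TT
  rw [← (Equiv.neg L.lattice).tsum_eq, ← tsum_neg]
  refine tsum_congr fun l => ?_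
  unfold tm
  have h1 : ((Equiv.neg L.lattice l : L.lattice) : ℂ) = -(l : ℂ) := rfl
  rw [h1, map_neg, map_neg]
  have e1 : -(starRingEnd ℂ) z + -(starRingEnd ℂ) (l : ℂ) + (starRingEnd ℂ) t =
    -((starRingEnd ℂ) z + (starRingEnd ℂ) (l : ℂ) - (starRingEnd ℂ) t) := by ring
  have e2 : -z + -(l : ℂ) + t = -(z + l - t) := by ring
  have e3 : -(starRingEnd ℂ) z + -(starRingEnd ℂ) (l : ℂ) - (starRingEnd ℂ) t =
    -((starRingEnd ℂ) z + (starRingEnd ℂ) (l : ℂ) + (starRingEnd ℂ) t) := by ring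
  have e4 : -z + -(l : ℂ) - t = -(z + l + t) := by ring
  have e5 : -(starRingEnd ℂ) z + -(starRingEnd ℂ) (l : ℂ) =
    -((starRingEnd ℂ) z + (starRingEnd ℂ) (l : ℂ)) := by ring
  have e6 : -z + -(l : ℂ) = -(z + l) := by ring
  rw [e1, e2, e3, e4, e5, e6, gg_neg, gg_neg, gg_neg]
  ring

variable (hCM : CM L) (hq : ∀ l ∈ L.lattice, eta L l = 0 * l + q * (starRingEnd ℂ) l)

include hCM hq in
theorem TT_Dk' (e : ℕ) {z t : ℂ} (h0 : z ∉ L.lattice) (h1 : z + t ∉ L.lattice)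
    (h2 : z - t ∉ L.lattice) :
    TT L e ((starRingEnd ℂ) z) t z = (q ^ e)⁻¹ * Dk L 0 q e z t := by
  obtain ⟨C, hC⟩ := TT_Dk hq e t
  have n0 : -z ∉ L.lattice := fun h => h0 (by have := neg_mem h; rwa [neg_neg] at this)
  have n1 : -z + t ∉ L.lattice := fun h => h2 (by
    have := neg_mem h
    rwa [show -(-z + t) = z - t by ring] at this)
  have n2 : -z - t ∉ L.lattice := fun h => h1 (by
    have := neg_mem h
    rwa [show -(-z - t) = z + t by ring] at this)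
  have a1 := hC z h0 h1 h2
  have a2 := hC (-z) n0 n1 n2
  have hqe : (q ^ e)⁻¹ ≠ 0 := inv_ne_zero (pow_ne_zero _ (q_ne hq))
  have a3 : Dk L 0 q e (-z) t = -Dk L 0 q e z t := by
    unfold Dk
    rw [ek_neg hCM e h0]
    have b1 : ek L 0 q e (-z + t) = -ek L 0 q e (z - t) := by
      rw [← ek_neg hCM e h2]; congr 1; ring
    have b2 : ek L 0 q e (-z - t) = -ek L 0 q e (z + t) := by
      rw [← ek_neg hCM e h1]; congr 1; ring
    rw [b1, b2]
    ring
  rw [TT_odd, a1, a3] at a2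
  have a4 : (q ^ e)⁻¹ * C = 0 := by linear_combination (-1 / 2 : ℂ) * a2
  have a5 := (mul_eq_zero.1 a4).resolve_left hqe
  rw [a1, a5, add_zero]

/-! ### partitions modulo an element -/

/-- the decomposition `α = q.out + μ β` -/
noncomputable def prm (μ : R) (hμ : μ ≠ 0) : (R ⧸ sp μ) × R ≃ R :=
  Equiv.ofBijective (fun p => p.1.out + μ * p.2) ⟨by
    rintro ⟨p, a⟩ ⟨q, b⟩ h
    have h1 : p.out + μ * a = q.out + μ * b := h
    have h2 : p = q := by
      rw [← Ideal.Quotient.mk_out p, ← Ideal.Quotient.mk_out q, Ideal.Quotient.mk_eq_mk_iff_sub_mem,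
        Ideal.mem_span_singleton']
      exact ⟨b - a, by linear_combination -h1⟩
    subst h2
    have h3 : μ * a = μ * b := by linear_combination h1
    rw [mul_left_cancel₀ hμ h3], by
    intro α
    have h1 : α - (Ideal.Quotient.mk (sp μ) α).out ∈ sp μ := by
      rw [← Ideal.Quotient.mk_eq_mk_iff_sub_mem, Ideal.Quotient.mk_out]
    rw [Ideal.mem_span_singleton'] at h1
    obtain ⟨b, hb⟩ := h1
    exact ⟨⟨Ideal.Quotient.mk (sp μ) α, b⟩, by
      show (Ideal.Quotient.mk (sp μ) α).out + μ * b = α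
      linear_combination hb⟩⟩

lemma tsum_prm (μ : R) (hμ : μ ≠ 0) [Fintype (R ⧸ sp μ)] (F : R → ℂ) (hF : Summable F) :
    ∑' α : R, F α = ∑ q : R ⧸ sp μ, ∑' β : R, F (q.out + μ * β) := by
  have h1 : Summable (fun p : (R ⧸ sp μ) × R => F (p.1.out + μ * p.2)) :=
    ((prm μ hμ).summable_iff (f := F)).2 hF
  rw [← (prm μ hμ).tsum_eq F]
  have h2 := h1.tsum_prod' (fun q => h1.prod_factor q)
  exact h2.trans (tsum_fintype _)

lemma coe_ne {μ : R} (hμ : μ ≠ 0) : (μ : ℂ) ≠ 0 := fun h => hμ (Subtype.ext h)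

/-- the factor of the distribution relation -/
noncomputable def gm (e : ℕ) (μ : ℂ) : ℂ := gg e ((starRingEnd ℂ) μ⁻¹) μ⁻¹

lemma gm_eq (e : ℕ) {μ : ℂ} : gm e μ = μ ^ (e + 1) / (starRingEnd ℂ) μ ^ e := by
  unfold gm gg
  rw [map_inv₀, inv_inv, inv_pow]
  ring

theorem EK_dm (hL : IsLat L R Ω) (e : ℕ) {δ : ℝ} (hδ : 0 < δ) (μ : R) (hμ : μ ≠ 0)
    [Fintype (R ⧸ sp μ)] (z : ℂ) :
    ∑ q : R ⧸ sp μ, EK R Ω e δ (z + Ω * q.out / μ) =
      gm e μ * EK R Ω e (δ * Complex.normSq (μ : ℂ)⁻¹) (μ * z) := by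
  have hk0 := coe_ne hμ
  have hn : 0 < Complex.normSq (μ : ℂ)⁻¹ := Complex.normSq_pos.2 (inv_ne_zero hk0)
  have e1 : ∀ α : R, gd e δ (z + Ω * α / μ) = gm e μ *
      gd e (δ * Complex.normSq (μ : ℂ)⁻¹) (μ * z + Ω * α) := by
    intro α
    have h1 : z + Ω * α / μ = (μ : ℂ)⁻¹ * (μ * z + Ω * α) := by field_simp
    rw [h1, gd_mul]
    rfl
  have hs : Summable (fun α : R => gd e δ (z + Ω * α / μ)) := by
    refine ((summ_gd hL e (μ * z) (δ := δ * Complex.normSq (μ : ℂ)⁻¹)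
      (by positivity)).mul_left (gm e μ)).congr fun α => ?_
    rw [e1]
  have h2 := tsum_prm μ hμ _ hs
  have h3 : ∑' α : R, gd e δ (z + Ω * α / μ) =
      gm e μ * EK R Ω e (δ * Complex.normSq (μ : ℂ)⁻¹) (μ * z) := by
    rw [tsum_congr e1, tsum_mul_left]
    rfl
  rw [← h3, h2]
  refine Finset.sum_congr rfl fun q _ => ?_
  unfold EK
  refine tsum_congr fun β => ?_
  congr 1
  push_cast
  field_simp
  ring

/-- sums of periodic functions -/
theorem sum_Em (hL : IsLat L R Ω) (e : ℕ) {δ : ℝ} (μ : R) (hμ : μ ≠ 0)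
    [Fintype (R ⧸ sp μ)] (c : R → ℂ) (hc : ∀ a b : R, a - b ∈ sp μ → c a = c b)
    (hcs : Summable (fun α : R => c α * gd e δ (α : ℂ))) :
    SK e c δ = gg e ((starRingEnd ℂ) ((μ : ℂ) / Ω)) ((μ : ℂ) / Ω) * ∑ q : R ⧸ sp μ,
      c q.out * EK R Ω e (δ * Complex.normSq ((μ : ℂ) / Ω)) (Ω * q.out / μ) := by
  have hn0 := coe_ne hμ
  have hΩ := hL.ne
  unfold SK
  rw [tsum_prm μ hμ _ hcs, Finset.mul_sum]
  refine Finset.sum_congr rfl fun q _ => ?_
  unfold EK
  rw [← tsum_mul_left, ← tsum_mul_left]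
  refine tsum_congr fun β => ?_
  have e1 : c (q.out + μ * β) = c q.out := by
    refine hc _ _ ?_
    rw [add_sub_cancel_left, Ideal.mem_span_singleton']
    exact ⟨β, by ring⟩
  have e2 : ((q.out + μ * β : R) : ℂ) = (μ / Ω) * (Ω * q.out / μ + Ω * β) := by
    push_cast
    field_simp
  rw [e1, e2, gd_mul]
  ring

/-! ### the distribution relation for `ek` -/

lemma lat_dm_iff (hL : IsLat L R Ω) (μ : R) (hμ : μ ≠ 0) (r : R) :
    Ω * r / μ ∈ L.lattice ↔ r ∈ sp μ := by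
  have hn0 := coe_ne hμ
  have hΩ := hL.ne
  rw [hL.mem, Ideal.mem_span_singleton']
  constructor
  · rintro ⟨s, hs⟩
    refine ⟨s, Subtype.ext ?_⟩
    have : (r : ℂ) = s * μ := by
      field_simp at hs
      linear_combination hs
    rw [this]
    push_cast
    ring
  · rintro ⟨s, rfl⟩
    refine ⟨s, ?_⟩
    push_cast
    field_simp

lemma mu_mul (hL : IsLat L R Ω) (μ : R) (hμ : μ ≠ 0) (r : R) {z : ℂ}
    (hz : (μ : ℂ) * z ∉ L.lattice) : z + Ω * r / μ ∉ L.lattice := by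
  intro h
  apply hz
  have h1 := hL.mul μ _ h
  have h2 := sub_mem h1 (hL.mem_mul r)
  convert h2 using 1
  have := coe_ne hμ
  field_simp
  ring

lemma lim_scale {c : ℝ} (hc : 0 < c) : Tendsto (fun δ : ℝ => δ * c) (𝓝[>] 0) (𝓝[>] 0) := by
  rw [tendsto_nhdsWithin_iff]
  constructor
  · have h1 : Continuous (fun δ : ℝ => δ * c) := by fun_prop
    have h2 := (h1.tendsto 0).mono_left (nhdsWithin_le_nhds (s := Set.Ioi 0))
    simpa using h2
  · filter_upwards [self_mem_nhdsWithin] with δ (hδ : 0 < δ)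
    exact mul_pos hδ hc

theorem TT_dm (hL : IsLat L R Ω) (e : ℕ) (μ : R) (hμ : μ ≠ 0) [Fintype (R ⧸ sp μ)] {z t : ℂ}
    (hz : (μ : ℂ) * z ∉ L.lattice) :
    ∑ y : R ⧸ sp μ, TT L e ((starRingEnd ℂ) (z + Ω * y.out / μ)) t (z + Ω * y.out / μ) =
      gm e μ * TT L e ((starRingEnd ℂ) (μ * z)) (μ * t) (μ * z) := by
  have hn : 0 < Complex.normSq (μ : ℂ)⁻¹ := Complex.normSq_pos.2 (inv_ne_zero (coe_ne hμ))
  have h1 : Tendsto (fun δ : ℝ => ∑ y : R ⧸ sp μ, (EK R Ω e δ (z + Ω * y.out / μ + t) +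
      EK R Ω e δ (z + Ω * y.out / μ - t) - 2 * EK R Ω e δ (z + Ω * y.out / μ))) (𝓝[>] 0)
      (𝓝 (∑ y : R ⧸ sp μ, TT L e ((starRingEnd ℂ) (z + Ω * y.out / μ)) t (z + Ω * y.out / μ))) :=
    tendsto_finsetSum _ fun y _ => lim_TT hL e (mu_mul hL μ hμ _ hz)
  have h2 := ((lim_TT hL e (z := μ * z) (t := μ * t) hz).comp (lim_scale hn)).const_mul (gm e μ)
  refine tendsto_nhds_unique h1 (h2.congr' ?_)
  filter_upwards [self_mem_nhdsWithin] with δ (hδ : 0 < δ)
  have e1 := EK_dm hL e hδ μ hμ (z + t)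
  have e2 := EK_dm hL e hδ μ hμ (z - t)
  have e3 := EK_dm hL e hδ μ hμ z
  rw [Finset.sum_sub_distrib, Finset.sum_add_distrib, ← Finset.mul_sum, e3]
  have e4 : ∑ y : R ⧸ sp μ, EK R Ω e δ (z + Ω * y.out / μ + t) =
      ∑ y : R ⧸ sp μ, EK R Ω e δ (z + t + Ω * y.out / μ) :=
    Finset.sum_congr rfl fun y _ => by congr 1; ring
  have e5 : ∑ y : R ⧸ sp μ, EK R Ω e δ (z + Ω * y.out / μ - t) =
      ∑ y : R ⧸ sp μ, EK R Ω e δ (z - t + Ω * y.out / μ) :=
    Finset.sum_congr rfl fun y _ => by congr 1; ring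
  rw [e4, e5, e1, e2]
  simp only [Function.comp_apply]
  rw [mul_add, mul_sub]
  ring

/-- the defect of the distribution relation -/
noncomputable def Fd (L : PeriodPair) (q Ω : ℂ) (e : ℕ) (μ : R) [Fintype (R ⧸ sp μ)] (z : ℂ) : ℂ :=
  ∑ y : R ⧸ sp μ, ek L 0 q e (z + Ω * y.out / μ) - gm e μ * ek L 0 q e (μ * z)

include hCM hq in
lemma Fd_two (hL : IsLat L R Ω) (e : ℕ) (μ : R) (hμ : μ ≠ 0) [Fintype (R ⧸ sp μ)] {z t : ℂ}
    (hz : (μ : ℂ) * z ∉ L.lattice) (h1 : (μ : ℂ) * (z + t) ∉ L.lattice)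
    (h2 : (μ : ℂ) * (z - t) ∉ L.lattice) :
    Fd L q Ω e μ (z + t) + Fd L q Ω e μ (z - t) = 2 * Fd L q Ω e μ z := by
  have h := TT_dm hL e μ hμ (t := t) hz
  have hqe : (q ^ e)⁻¹ ≠ 0 := inv_ne_zero (pow_ne_zero _ (q_ne hq))
  have a1 : ∀ y : R ⧸ sp μ, TT L e ((starRingEnd ℂ) (z + Ω * y.out / μ)) t (z + Ω * y.out / μ) =
      (q ^ e)⁻¹ * (ek L 0 q e (z + t + Ω * y.out / μ) + ek L 0 q e (z - t + Ω * y.out / μ) -
        2 * ek L 0 q e (z + Ω * y.out / μ)) := by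
    intro y
    have b1 : z + Ω * y.out / μ + t = z + t + Ω * y.out / μ := by ring
    have b2 : z + Ω * y.out / μ - t = z - t + Ω * y.out / μ := by ring
    rw [TT_Dk' hCM hq e (mu_mul hL μ hμ _ hz)
      (by rw [b1]; exact mu_mul hL μ hμ _ h1)
      (by rw [b2]; exact mu_mul hL μ hμ _ h2)]
    unfold Dk
    rw [b1, b2]
  have a2 : TT L e ((starRingEnd ℂ) (μ * z)) (μ * t) (μ * z) = (q ^ e)⁻¹ *
      (ek L 0 q e (μ * (z + t)) + ek L 0 q e (μ * (z - t)) - 2 * ek L 0 q e (μ * z)) := by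
    rw [TT_Dk' hCM hq e hz (by rw [← mul_add]; exact h1) (by rw [← mul_sub]; exact h2)]
    unfold Dk
    rw [← mul_add, ← mul_sub]
  rw [Finset.sum_congr rfl (fun y _ => a1 y), a2, ← Finset.mul_sum, Finset.sum_sub_distrib,
    Finset.sum_add_distrib, ← Finset.mul_sum, mul_left_comm] at h
  have h3 := mul_left_cancel₀ hqe h
  unfold Fd
  linear_combination h3

include hq in
lemma Fd_per (hL : IsLat L R Ω) (e : ℕ) (μ : R) (hμ : μ ≠ 0) [Fintype (R ⧸ sp μ)] {z w : ℂ}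
    (hz : (μ : ℂ) * z ∉ L.lattice) (h : w - z ∈ L.lattice) : Fd L q Ω e μ w = Fd L q Ω e μ z := by
  unfold Fd
  congr 1
  · refine Finset.sum_congr rfl fun y _ => ?_
    refine ek_per hq e (mu_mul hL μ hμ _ hz) ?_
    rwa [add_sub_add_right_eq_sub]
  · congr 1
    refine ek_per hq e hz ?_
    rw [← mul_sub]
    exact hL.mul μ _ h

include hCM hq in
lemma Fd_neg (hL : IsLat L R Ω) (e : ℕ) (μ : R) (hμ : μ ≠ 0) [Fintype (R ⧸ sp μ)] {z : ℂ}
    (hz : (μ : ℂ) * z ∉ L.lattice) : Fd L q Ω e μ (-z) = -Fd L q Ω e μ z := by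
  unfold Fd
  have h1 : ∑ y : R ⧸ sp μ, ek L 0 q e (-z + Ω * y.out / μ) =
      -∑ y : R ⧸ sp μ, ek L 0 q e (z + Ω * y.out / μ) := by
    rw [← Equiv.sum_comp (Equiv.neg (R ⧸ sp μ)) (fun y => ek L 0 q e (-z + Ω * y.out / μ)),
      ← Finset.sum_neg_distrib]
    refine Finset.sum_congr rfl fun y _ => ?_
    rw [Equiv.neg_apply, ← ek_neg hCM e (mu_mul hL μ hμ _ hz)]
    have hz' : (μ : ℂ) * (-z) ∉ L.lattice := fun h => hz (by
      have := neg_mem h
      rwa [mul_neg, neg_neg] at this)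
    refine ek_per hq e ?_ ?_
    · intro h
      have := neg_mem h
      rw [neg_neg] at this
      exact mu_mul hL μ hμ _ hz this
    · have h1 : (-y).out - (-y.out) ∈ sp μ := by
        have := out_sub (sp μ) (-y.out)
        rwa [map_neg, Ideal.Quotient.mk_out] at this
      have h2 := (lat_dm_iff hL μ hμ _).2 h1
      convert h2 using 1
      push_cast
      ring
  rw [h1, mul_neg, ek_neg hCM e hz]
  ring

include hCM hq in
/-- the distribution relation at torsion points -/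
theorem Fd_zero (hL : IsLat L R Ω) (e : ℕ) (μ : R) (hμ : μ ≠ 0) [Fintype (R ⧸ sp μ)] {z : ℂ}
    (hz : (μ : ℂ) * z ∉ L.lattice) {N : ℕ} (hN : 0 < N) (hNz : (N : ℂ) * z ∈ L.lattice) :
    Fd L q Ω e μ z = 0 := by
  classical
  have hμ' := coe_ne hμ
  obtain ⟨s', hs'⟩ := exists_gen L ((Finset.range (N + 3)).image
    fun j : ℕ => (μ : ℂ) * ((j : ℂ) * z - z))
  set s : ℂ := s' / μ with hs
  have gen : ∀ j : ℕ, j < N + 3 → (μ : ℂ) * (s + ((j : ℂ) * z - z)) ∉ L.lattice := by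
    intro j hj
    have := (hs' _ (Finset.mem_image.2 ⟨j, Finset.mem_range.2 hj, rfl⟩)).2
    convert this using 2
    rw [hs]
    field_simp
  have key : ∀ j : ℕ, j ≤ N → Fd L q Ω e μ (s + ((j : ℂ) * z - z)) = Fd L q Ω e μ (s - z) +
      j * (Fd L q Ω e μ s - Fd L q Ω e μ (s - z)) ∧
      Fd L q Ω e μ (s + (((j + 1 : ℕ) : ℂ) * z - z)) = Fd L q Ω e μ (s - z) +
      (j + 1) * (Fd L q Ω e μ s - Fd L q Ω e μ (s - z)) := by
    intro j
    induction j with
    | zero =>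
      intro _
      refine ⟨?_, ?_⟩
      · have : s + (((0 : ℕ) : ℂ) * z - z) = s - z := by push_cast; ring
        rw [this]; push_cast; ring
      · have : s + (((0 + 1 : ℕ) : ℂ) * z - z) = s := by push_cast; ring
        rw [this]; push_cast; ring
    | succ j ih =>
      intro hj
      obtain ⟨i1, i2⟩ := ih (by omega)
      refine ⟨by rw [i2]; push_cast; ring, ?_⟩
      have h0 := gen (j + 1) (by omega)
      have h1 := gen (j + 2) (by omega)
      have h2 := gen j (by omega)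
      have e1 : s + (((j + 1 : ℕ) : ℂ) * z - z) + z = s + (((j + 2 : ℕ) : ℂ) * z - z) := by
        push_cast; ring
      have e2 : s + (((j + 1 : ℕ) : ℂ) * z - z) - z = s + ((j : ℂ) * z - z) := by
        push_cast; ring
      have h3 := Fd_two hCM hq hL e μ hμ (t := z) h0 (by rw [e1]; exact h1) (by rw [e2]; exact h2)
      rw [e1, e2, i1, i2] at h3
      have e3 : ((j + 1 + 1 : ℕ) : ℂ) = ((j + 2 : ℕ) : ℂ) := by push_cast; ring
      rw [e3]
      push_cast at h3 ⊢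
      linear_combination h3
  have hsz : (μ : ℂ) * (s - z) ∉ L.lattice := by
    have := gen 0 (by omega)
    convert this using 2
    push_cast; ring
  have hs0 : (μ : ℂ) * s ∉ L.lattice := by
    have := gen 1 (by omega)
    convert this using 2
    push_cast; ring
  have hsp : (μ : ℂ) * (s + z) ∉ L.lattice := by
    have := gen 2 (by omega)
    convert this using 2
    push_cast; ring
  have k1 := (key N le_rfl).1
  have e1 : Fd L q Ω e μ (s + ((N : ℂ) * z - z)) = Fd L q Ω e μ (s - z) := by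
    refine Fd_per hq hL e μ hμ hsz ?_
    convert hNz using 1
    ring
  rw [e1] at k1
  have hN0 : (N : ℂ) ≠ 0 := by exact_mod_cast hN.ne'
  have k2 : Fd L q Ω e μ s - Fd L q Ω e μ (s - z) = 0 := by
    have : (N : ℂ) * (Fd L q Ω e μ s - Fd L q Ω e μ (s - z)) = 0 := by linear_combination -k1
    exact (mul_eq_zero.1 this).resolve_left hN0
  have k3 := Fd_two hCM hq hL e μ hμ (t := z) hs0 hsp hsz
  have hzs : (μ : ℂ) * (z - s) ∉ L.lattice := fun h => hsz (by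
    have := neg_mem h
    rwa [← mul_neg, neg_sub] at this)
  have k4 := Fd_two hCM hq hL e μ hμ (z := z) (t := s) hz (by rw [add_comm]; exact hsp) hzs
  have k5 : Fd L q Ω e μ (z - s) = -Fd L q Ω e μ (s - z) := by
    rw [← Fd_neg hCM hq hL e μ hμ hsz]
    congr 1
    ring
  rw [add_comm z s, k5] at k4
  linear_combination (1 / 2) * k3 - (1 / 2) * k4 + k2

end Pool.Agent.Y690.NV
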